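import Pool.Agent.H57.SQ.NumT
import Pool.Agent.H56.ALL.Ext

/-!
# The rows from the last rows of steep classes

`Top n`: the last rows of classes which are steep at the window at which the last row is reached.
`rows_of_top`, `jmp_of_top`: with the micro and the static statement for all classes it gives all
rows above the diagonal threshold, in particular the jumps. `fullE_of_top`, `jmpE_of_top`: the same
for the rows of maximal deficit.
-/

set_option autoImplicit false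

namespace Pool.ONE

open Set MeasureTheory Pool.KA Pool.GEN Pool.STR Pool.LEV Pool.ALL
open Pool.LBT (LSys ThrOf Slo Tri)
open Pool.Agent.H49.Ent Pool.Agent.H32.Dense Pool.STK Pool.KSAT Pool.K2S Pool.PB Pool.S6C

/-- **The statement on the last rows.** -/
def Top (n : ℕ) : Prop := LocN n TopW

/-- Bad rows have a vanishing diagonal slope. -/
theorem zerN_of_mic {P : ℝ → ℝ → ℝ} (hP : Law P) {r : ℝ → ℝ} (hM : MicW P r) (hS : StaU P r) :
    ZerN P r 0 := by
  have hgm : Monotone fun Q => Lv P (Q, 0) := fun x y hxy => Lv_mono hP ⟨hxy, le_rfl⟩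
  have hn : ∀ k : ℕ, (0 : ℝ) < 1 / ((k : ℝ) + 1) := fun k => by positivity
  have h1 := ae_all_iff.2 fun k => hS _ (hn k)
  filter_upwards [hM, h1] with Q a b c1 c2 c3 c4 c5 c6
  by_contra hc
  have e3 : 0 < deriv (fun Q => Lv P (Q, 0)) Q :=
    lt_of_le_of_ne hgm.deriv_nonneg (Ne.symm hc)
  have e4 := a c1 c2 c3 c4 e3 c5 (by linarith)
  obtain ⟨k, hk⟩ := exists_nat_one_div_lt (show 0 < 1 - deriv r Q by linarith)
  have e5 := b k c1 c2 c3 c4 e3 e4 c5
  linarith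

/-- Rows with large deficit have a vanishing diagonal slope. -/
theorem zerN_of_micE {P : ℝ → ℝ → ℝ} (hP : Law P) {r : ℝ → ℝ} {h : ℝ} (hM : MicE P r h)
    (hS : StaE P r h) : ZerN P r h := by
  have hgm : Monotone fun Q => Lv P (Q, 0) := fun x y hxy => Lv_mono hP ⟨hxy, le_rfl⟩
  filter_upwards [hM, hS] with Q a b c1 c2 c3 c4 c5 c6
  by_contra hc
  have e3 : 0 < deriv (fun Q => Lv P (Q, 0)) Q :=
    lt_of_le_of_ne hgm.deriv_nonneg (Ne.symm hc)
  have e5 := b c1 c2 c3 c4 e3 (a c1 c2 c3 c4 e3 c5 c6) c5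
  linarith

/-- **All rows above the diagonal threshold.** -/
theorem rows_of_top {n : ℕ} (hM : Mic n) (hS : Sta n) (hT : Top n) :
    LocN n fun P r => ∀ᵐ Q : ℝ, 0 < Q → Q < 1 → 0 < Lv P (Q, 0) → DifferentiableAt ℝ r Q →
      1 ≤ deriv r Q := by
  intro hn hZ al g₀ s d h1 h2 h3 e K₀ N S h4 h5 P r h6 h7
  have key := full_of_top (P := P) h7.lip h7.mono le_rfl fun Q q0 q1 _ => by
    obtain ⟨T, P', r', -, a3, a4, a5, a6⟩ := Pool.SQ.sq_numT hn h3 h5 h6 h7 q1
    exact ⟨P', r', a6, zerN_of_mic (a4.law ())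
      (hM hn hZ al g₀ s d h1 h2 h3 2 0 N T (by norm_num) a3 P' r' a4 a5)
      (hS hn hZ al g₀ s d h1 h2 h3 2 0 N T (by norm_num) a3 P' r' a4 a5),
      hT hn hZ al g₀ s d h1 h2 h3 2 0 N T (by norm_num) a3 P' r' a4 a5⟩
  filter_upwards [key] with Q a b1 b2 b3 b4
  have := a b1 b2 b3 b4
  linarith

/-- **The jumps.** -/
theorem jmp_of_top {n : ℕ} (hM : Mic n) (hS : Sta n) (hT : Top n) : Jmp n := by
  refine LocN.mono (rows_of_top hM hS hT) ?_
  intro P r _ _ _ _ _ h h' hh'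
  filter_upwards [h] with Q a b1 b2 b3 _ _ b4
  have := a b1 b2 b3 b4
  linarith

/-- **All rows of maximal deficit.** -/
theorem fullE_of_top {n : ℕ} {η : ℝ → ℝ} (hη : ∀ D, 0 < D → η D ≤ 1) (hM : LocE n η MicE)
    (hS : LocE n η StaE) (hT : LocE n η fun P r _ => TopW P r) : LocE n η FullE := by
  intro hn hZ D hD hD1 hE al g₀ s d h1 h2 h3 e K₀ N S h4 h5 P r h6 h7
  exact full_of_top (P := P) h7.lip h7.mono (mul_nonneg (by linarith [hη D hD]) hD.le)
    fun Q q0 q1 _ => by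
    obtain ⟨T, P', r', -, a3, a4, a5, a6⟩ := Pool.SQ.sq_numT hn h3 h5 h6 h7 q1
    exact ⟨P', r', a6, zerN_of_micE (a4.law ())
      (hM hn hZ D hD hD1 hE al g₀ s d h1 h2 h3 2 0 N T (by norm_num) a3 P' r' a4 a5)
      (hS hn hZ D hD hD1 hE al g₀ s d h1 h2 h3 2 0 N T (by norm_num) a3 P' r' a4 a5),
      hT hn hZ D hD hD1 hE al g₀ s d h1 h2 h3 2 0 N T (by norm_num) a3 P' r' a4 a5⟩

/-- **The jumps of maximal deficit.** -/
theorem jmpE_of_top {n : ℕ} {η : ℝ → ℝ} (hη : ∀ D, 0 < D → η D ≤ 1) (hM : LocE n η MicE)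
    (hS : LocE n η StaE) (hT : LocE n η fun P r _ => TopW P r) : LocE n η JmpE := by
  intro hn hZ D hD hD1 hE al g₀ s d h1 h2 h3 e K₀ N S h4 h5 P r h6 h7
  filter_upwards [fullE_of_top hη hM hS hT hn hZ D hD hD1 hE al g₀ s d h1 h2 h3 e K₀ N S h4 h5
    P r h6 h7] with Q a b1 b2 b3 _ _ b4
  exact a b1 b2 b3 b4

end Pool.ONE
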