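import Pool.Agent.H93.GEN.RowS
import Mathlib.MeasureTheory.Integral.IntervalIntegral.LebesgueDifferentiationThm

/-!
# Classes which are steep at their last row

`SteepW P w`: near the window `w`, at which the last row is reached, the threshold is steep.
`TopW P r`: if the class is steep at the window at which the last row is reached, almost all rows
just below the last one are full. `topW_of_r1m`, `topW_of_r1t`: this follows from the statement on
the last rows for calm windows. `NumT P r Q P' r'`: the numbers of the class truncated at the row `Q`.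
`ZerN P r h`: bad rows have a vanishing diagonal slope. `full_of_top`: **the rows of macroscopic
windows**, from `ZerN` and `TopW` for the truncated classes: at a density point `Q` of the bad rows
the truncated class is steep at its last row.
-/

set_option autoImplicit false

namespace Pool.STR

open MeasureTheory Set Filter Topology Pool.LEV

/-- The threshold is steep at the window `w` at which the last row is reached. -/
def SteepW (P : ℝ → ℝ → ℝ) (w : ℝ) : Prop :=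
  ∀ δ : ℝ, 0 < δ → ∃ η : ℝ, 0 < η ∧ ∀ w₀, 0 < w₀ → w - η < w₀ → w₀ < w →
    w - w₀ ≤ δ * (1 - P w₀ w₀)

/-- **(T)** The last rows of a class which is steep at the window at which the last row is
reached. -/
def TopW (P : ℝ → ℝ → ℝ) (r : ℝ → ℝ) : Prop :=
  ∀ w, 0 < w → w < 1 → (∀ w₀, 0 < w₀ → w₀ < w → P w₀ w₀ < 1) →
    (∀ w₁, w < w₁ → w₁ ≤ 1 → P w₁ w₁ = 1) → SteepW P w → RowT r 1

/-- **The last rows, from any number of rows which is at least the number of rows above the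
threshold.** -/
def R1M (P : ℝ → ℝ → ℝ) (r c : ℝ → ℝ) (W : Set ℝ) : Prop :=
  ∀ ε : ℝ, 0 < ε → ∃ δ : ℝ, 0 < δ ∧ ∀ w₀ ∈ W, ∀ w₁ ∈ W, 0 < w₀ → w₀ < w₁ → w₁ ≤ 1 →
    P w₁ w₁ = 1 → (w₁ - w₀) + (c w₁ - c w₀) ≤ δ * (1 - P w₀ w₀) →
    ∃ m : ℝ, 1 - P w₀ w₀ ≤ m ∧ m ≤ 1 ∧ (1 - ε) * m ≤ r 1 - r (1 - m)

theorem R1T.r1m {P : ℝ → ℝ → ℝ} {r c : ℝ → ℝ} {W : Set ℝ} (h0 : ∀ w, 0 < w → w ≤ 1 → 0 ≤ P w w)
    (h : R1T P r c W) : R1M P r c W := by
  intro ε hε
  obtain ⟨δ, hδ, h⟩ := h ε hε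
  refine ⟨δ, hδ, fun w₀ b0 w₁ b1 c0 c1 c2 c3 c4 => ⟨1 - P w₀ w₀, le_rfl, ?_, ?_⟩⟩
  · have := h0 w₀ c0 (by linarith)
    linarith
  · rw [sub_sub_cancel]
    exact h w₀ b0 w₁ b1 c0 c1 c2 c3 c4

/-- **One falling level.** -/
theorem topW_of_r1m {P : ℝ → ℝ → ℝ} {r c : ℝ → ℝ} {W : Set ℝ}
    (hW : Dense W) (h : R1M P r c W)
    (hc : ∀ w, 0 < w → w < 1 → (∀ w₁, w < w₁ → w₁ ≤ 1 → P w₁ w₁ = 1) → FinW c W w) :
    TopW P r := by
  intro w hw hw1 hlt htop hst ε hε
  obtain ⟨δ, hδ, h⟩ := h ε hε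
  obtain ⟨M₀, η₀, hη₀, hc⟩ := hc w hw hw1 htop
  obtain ⟨M, hMd⟩ : ∃ M, M = max M₀ 0 := ⟨_, rfl⟩
  have hM0 : 0 ≤ M := by rw [hMd]; exact le_max_right _ _
  have hM1 : M₀ ≤ M := by rw [hMd]; exact le_max_left _ _
  obtain ⟨e, he⟩ : ∃ e, e = δ / (2 * (1 + M)) := ⟨_, rfl⟩
  have e0 : 0 < e := by rw [he]; positivity
  have eM : 2 * (1 + M) * e = δ := by
    rw [he]
    field_simp
  obtain ⟨η, hη, hst⟩ := hst e e0
  obtain ⟨w₀, b0, c1, c2⟩ := hW.exists_between
    (show max (w / 2) (max (w - η) (w - η₀)) < w from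
      max_lt (by linarith) (max_lt (by linarith) (by linarith)))
  have d1 := le_max_left (w / 2) (max (w - η) (w - η₀))
  have d2 := (le_max_left (w - η) (w - η₀)).trans (le_max_right (w / 2) _)
  have d3 := (le_max_right (w - η) (w - η₀)).trans (le_max_right (w / 2) _)
  have w0p : 0 < w₀ := by linarith
  have s1 := hst w₀ w0p (by linarith) c2
  have l1 := hlt w₀ w0p c2
  obtain ⟨w₁, b1, c3, c4⟩ := hW.exists_between
    (show w < min 1 (min (w + η₀) (w + (w - w₀))) from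
      lt_min hw1 (lt_min (by linarith) (by linarith)))
  have f1 := c4.trans_le (min_le_left _ _)
  have f2 := c4.trans_le ((min_le_right _ _).trans (min_le_left _ _))
  have f3 := c4.trans_le ((min_le_right _ _).trans (min_le_right _ _))
  obtain ⟨m, m0, m1, h2⟩ := h w₀ b0 w₁ b1 w0p (by linarith) f1.le (htop w₁ c3 f1.le) (by
    have h3 := hc w₀ b0 w₁ b1 w0p (by linarith) c2 c3 f2 f1.le
    have h4 : c w₁ - c w₀ ≤ M * (w₁ - w₀) :=
      h3.trans (mul_le_mul_of_nonneg_right hM1 (by linarith))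
    calc (w₁ - w₀) + (c w₁ - c w₀) ≤ (1 + M) * (w₁ - w₀) := by linarith
      _ ≤ (1 + M) * (2 * (w - w₀)) := mul_le_mul_of_nonneg_left (by linarith) (by linarith)
      _ ≤ (1 + M) * (2 * (e * (1 - P w₀ w₀))) := by
          refine mul_le_mul_of_nonneg_left (by linarith) (by linarith)
      _ = δ * (1 - P w₀ w₀) := by rw [← eM]; ring)
  exact ⟨m, by linarith, m1, h2⟩

/-- **One falling level.** -/
theorem topW_of_r1t {P : ℝ → ℝ → ℝ} {r c : ℝ → ℝ} {W : Set ℝ} (h0 : ∀ w, 0 < w → w ≤ 1 → 0 ≤ P w w)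
    (hW : Dense W) (h : R1T P r c W)
    (hc : ∀ w, 0 < w → w < 1 → (∀ w₁, w < w₁ → w₁ ≤ 1 → P w₁ w₁ = 1) → FinW c W w) :
    TopW P r := topW_of_r1m hW (h.r1m h0) hc

/-- **The numbers of the class truncated at the row `Q`.** -/
structure NumT (P : ℝ → ℝ → ℝ) (r : ℝ → ℝ) (Q : ℝ) (P' : ℝ → ℝ → ℝ) (r' : ℝ → ℝ) : Prop where
  law : Law P'
  low : ∀ w, 0 < w → w ≤ 1 → 0 ≤ P' w w
  up : ∀ w, 0 < w → w ≤ 1 → P' w w ≤ 1
  thr : ∀ w w₁, 0 < w → w < w₁ → w₁ ≤ 1 → P' w w ≤ P w₁ w₁ + (1 - Q)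
  rate : ∀ x, 0 ≤ x → x ≤ 1 → r' x = r (max 0 (x - (1 - Q)))

/-- The last rows of the truncated class are the rows just below `Q`. -/
theorem rowT_of_rate {r r' : ℝ → ℝ} {Q : ℝ} (hQ : 0 < Q) (hQ1 : Q < 1) (hr : Monotone r)
    (hn : ∀ x, 0 ≤ x → x ≤ 1 → r' x = r (max 0 (x - (1 - Q)))) (h : RowT r' 1) : RowT r Q := by
  intro ε hε
  obtain ⟨m, m0, m1, h2⟩ := h ε hε
  have e1 : r' 1 = r Q := by
    rw [hn 1 zero_le_one le_rfl, sub_sub_cancel, max_eq_right hQ.le]
  have e2 : r' (1 - m) = r (max 0 (Q - m)) := by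
    rw [hn (1 - m) (by linarith) (by linarith)]
    congr 2
    ring
  rw [e1, e2] at h2
  rcases le_total m Q with h3 | h3
  · rw [max_eq_right (by linarith)] at h2
    exact ⟨m, m0, m1, h2⟩
  · rw [max_eq_left (by linarith)] at h2
    refine ⟨Q, hQ, hQ1.le, ?_⟩
    rw [sub_self]
    rcases le_total ε 1 with h4 | h4
    · exact (mul_le_mul_of_nonneg_left h3 (by linarith)).trans h2
    · have := hr hQ.le
      nlinarith

/-- **A class whose bad rows are dense at the last row and have a vanishing diagonal slope is steep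
at the window at which the last row is reached.** -/
theorem steep_top {P : ℝ → ℝ → ℝ} (hP : Law P) (h0 : ∀ w, 0 < w → w ≤ 1 → 0 ≤ P w w)
    (h1 : ∀ w, 0 < w → w ≤ 1 → P w w ≤ 1) (hg : 0 < Lv P (1, 0)) {u : ℝ → ℝ} (hu : Monotone u)
    (hd : HasDerivAt u 0 1) {ρ : ℝ} (hρ : ρ < 1)
    (hz : ∀ᵐ R : ℝ, ρ < R → 0 < R → R < 1 → 0 < Lv P (R, 0) →
      DifferentiableAt ℝ (fun Q => Lv P (Q, 0)) R → DifferentiableAt ℝ u R →
      deriv (fun Q => Lv P (Q, 0)) R ≤ deriv u R) :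
    Lv P (1, 0) < 1 ∧ (∀ w₀, 0 < w₀ → w₀ < Lv P (1, 0) → P w₀ w₀ < 1) ∧
      (∀ w₁, Lv P (1, 0) < w₁ → w₁ ≤ 1 → P w₁ w₁ = 1) ∧ SteepW P (Lv P (1, 0)) := by
  obtain ⟨g, hgd⟩ : ∃ g : ℝ → ℝ, g = fun Q => Lv P (Q, 0) := ⟨_, rfl⟩
  have hgm : Monotone g := by
    rw [hgd]
    exact fun x y hxy => Lv_mono hP ⟨hxy, le_rfl⟩
  have hgl : LipschitzWith 1 g := by
    rw [hgd]
    refine LipschitzWith.of_dist_le_mul fun x y => ?_
    refine ((Lv_lip hP).dist_le_mul _ _).trans ?_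
    rw [Prod.dist_eq]
    simp
  have hgl' : ∀ x y, x ≤ y → g y - g x ≤ y - x := fun x y hxy => lip_le hgl hxy
  have eg : Lv P (1, 0) = g 1 := by rw [hgd]
  have el : lev P 1 0 = g 1 := by
    rw [← eg, Lv_eq (P := P) le_rfl zero_le_one zero_le_one le_rfl]
  rw [eg] at hg ⊢
  rw [← hgd] at hz
  -- the slope below the last row
  have key : ∀ R, max ρ (1 - g 1) < R → 0 < R → R < 1 → g 1 - g R ≤ u 1 - u R := by
    intro R hR hR0 hR1
    have k1 : ρ < R := (le_max_left _ _).trans_lt hR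
    have k2 : 1 - g 1 < R := (le_max_right _ _).trans_lt hR
    have hgR : 0 < g R := by
      have := hgl' R 1 hR1.le
      linarith
    have hm : Monotone fun x => x - g x + u x := by
      intro x y hxy
      have a1 := hgl' x y hxy
      have a2 := hu hxy
      show x - g x + u x ≤ y - g y + u y
      linarith
    have hgae : ∀ᵐ x : ℝ, DifferentiableAt ℝ g x := hgm.ae_differentiableAt
    have huae : ∀ᵐ x : ℝ, DifferentiableAt ℝ u x := hu.ae_differentiableAt
    have h2 := cost (ρ := fun x => x - g x + u x) (G := R) (hm.monotoneOn _) hR1.le ?_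
    · linarith
    · filter_upwards [hz, hgae, huae] with x b1 b2 b3 c1 c2 _
      have c3 : 0 < g x := hgR.trans_le (hgm c1.le)
      have c4 : 0 < Lv P (x, 0) := by
        have : Lv P (x, 0) = g x := by rw [hgd]
        rw [this]
        exact c3
      have c5 := b1 (by linarith) (by linarith) c2 c4 b2 b3
      have c6 : deriv (fun x => x - g x + u x) x = 1 - deriv g x + deriv u x :=
        (((hasDerivAt_id x).sub b2.hasDerivAt).add b3.hasDerivAt).deriv
      rw [c6]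
      linarith
  -- differentiability of `u`
  have hu' : ∀ e : ℝ, 0 < e → ∃ d : ℝ, 0 < d ∧ ∀ x, 0 ≤ x → x < d → u 1 - u (1 - x) ≤ e * x := by
    intro e he
    have h3 := hd.isLittleO.def he
    obtain ⟨d, hd', h4⟩ := Metric.eventually_nhds_iff.1 h3
    refine ⟨d, hd', fun x hx hxd => ?_⟩
    have h5 := h4 (y := 1 - x) (by
      rw [Real.dist_eq, show (1 : ℝ) - x - 1 = -x by ring, abs_neg, abs_of_nonneg hx]
      exact hxd)
    rw [show (1 : ℝ) - x - 1 = -x by ring] at h5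
    simp only [smul_eq_mul, mul_zero, sub_zero, Real.norm_eq_abs, abs_neg, abs_of_nonneg hx] at h5
    have h6 := (abs_le.1 h5).1
    linarith
  have gap : ∀ e : ℝ, 0 < e → ∃ d : ℝ, 0 < d ∧ ∀ R, 1 - d < R → R < 1 →
      g 1 - g R ≤ e * (1 - R) := by
    intro e he
    obtain ⟨d, hd1, h2⟩ := hu' e he
    obtain ⟨d', hdd⟩ : ∃ d', d' = min d (min (1 - max ρ (1 - g 1)) (1 / 2)) := ⟨_, rfl⟩
    have k0 : max ρ (1 - g 1) < 1 := max_lt hρ (by linarith)
    have k1 : 0 < d' := by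
      rw [hdd]
      exact lt_min hd1 (lt_min (by linarith) (by norm_num))
    have k2 : d' ≤ d := by rw [hdd]; exact min_le_left _ _
    have k3 : d' ≤ 1 - max ρ (1 - g 1) := by
      rw [hdd]; exact (min_le_right _ _).trans (min_le_left _ _)
    have k4 : d' ≤ 1 / 2 := by rw [hdd]; exact (min_le_right _ _).trans (min_le_right _ _)
    refine ⟨d', k1, fun R hR hR1 => ?_⟩
    have h3 := key R (by linarith) (by linarith) hR1
    have h4 := h2 (1 - R) (by linarith) (by linarith)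
    rw [sub_sub_cancel] at h4
    linarith
  have diag : ∀ w, 0 < w → w < g 1 → P w w < 1 := by
    intro w hw hwg
    have c2 := lt_of_lt_lev (P := P) (Q := 1) zero_le_one hw.le (by rw [el]; exact hwg)
    rwa [sub_zero] at c2
  have g1 : g 1 ≤ 1 := by
    rw [← el]
    exact lev_le_one zero_le_one
  refine ⟨?_, diag, ?_, ?_⟩
  · obtain ⟨d, hd1, h2⟩ := gap (1 / 2) (by norm_num)
    obtain ⟨R, hR1, hR2⟩ := exists_between (show max (1 - d) 0 < 1 from max_lt (by linarith) one_pos)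
    have e1 := h2 R ((le_max_left _ _).trans_lt hR1) hR2
    have e3 : 0 < R := (le_max_right _ _).trans_lt hR1
    have e2 : g R ≤ R := by
      rw [hgd]
      exact Lv_diag_le hP h0 e3 hR2
    linarith
  · intro w₁ hw hw1
    have c2 := le_of_lev_lt hP (Q := 1) le_rfl zero_le_one (by rw [el]; exact hw) hw1
    rw [sub_zero] at c2
    exact le_antisymm (h1 w₁ (hg.trans hw) hw1) c2
  · intro δ hδ
    obtain ⟨d, hd1, h2⟩ := gap δ hδ
    refine ⟨δ * d, by positivity, fun w₀ b0 b1 b2 => ?_⟩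
    have p1 := diag w₀ b0 b2
    have p0 := h0 w₀ b0 (by linarith)
    rcases lt_or_ge (1 - d) (P w₀ w₀) with h3 | h3
    · have h4 := h2 (P w₀ w₀) h3 p1
      have h5 : g (P w₀ w₀) ≤ w₀ := by
        rw [hgd]
        show Lv P (P w₀ w₀, 0) ≤ w₀
        rw [Lv_eq (P := P) le_rfl zero_le_one p0 p1.le]
        exact lev_le ⟨b0.le, by linarith, Or.inl (by rw [sub_zero])⟩
      linarith
    · have : δ * d ≤ δ * (1 - P w₀ w₀) := mul_le_mul_of_nonneg_left (by linarith) hδ.le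
      linarith

/-- Almost all rows with deficit more than `h` have a vanishing diagonal slope. -/
def ZerN (P : ℝ → ℝ → ℝ) (r : ℝ → ℝ) (h : ℝ) : Prop :=
  ∀ᵐ Q : ℝ, 0 < Q → Q < 1 → 0 < Lv P (Q, 0) → DifferentiableAt ℝ (fun Q => Lv P (Q, 0)) Q →
    DifferentiableAt ℝ r Q → deriv r Q < 1 - h → deriv (fun Q => Lv P (Q, 0)) Q = 0

/-- **The rows with deficit at most `h`**, from the truncated classes. -/
theorem full_of_top {P : ℝ → ℝ → ℝ} {r : ℝ → ℝ}
    (hl : LipschitzWith 1 r) (hr : Monotone r) {h : ℝ} (hh : 0 ≤ h)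
    (H : ∀ Q : ℝ, 0 < Q → Q < 1 → 0 < Lv P (Q, 0) → ∃ (P' : ℝ → ℝ → ℝ) (r' : ℝ → ℝ),
      NumT P r Q P' r' ∧ ZerN P' r' h ∧ TopW P' r') :
    ∀ᵐ Q : ℝ, 0 < Q → Q < 1 → 0 < Lv P (Q, 0) → DifferentiableAt ℝ r Q → 1 - h ≤ deriv r Q := by
  -- the bad rows
  obtain ⟨B, hB⟩ : ∃ B : Set ℝ, B = {Q | DifferentiableAt ℝ r Q ∧ deriv r Q < 1 - h} := ⟨_, rfl⟩
  have hBm : MeasurableSet B := by
    rw [hB]
    exact (measurableSet_of_differentiableAt ℝ r).inter
      (measurableSet_lt (measurable_deriv r) measurable_const)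
  obtain ⟨I, hI⟩ : ∃ I : ℝ → ℝ, I = Bᶜ.indicator fun _ => (1 : ℝ) := ⟨_, rfl⟩
  have hI0 : ∀ x, 0 ≤ I x := by
    intro x
    rw [hI]
    exact indicator_nonneg (fun _ _ => zero_le_one) x
  have hIl : LocallyIntegrable I volume := by
    rw [hI]
    exact (locallyIntegrable_const (1 : ℝ)).indicator hBm.compl
  have hIi : ∀ a b, IntervalIntegrable I volume a b := fun a b =>
    intervalIntegrable_iff.2 ((hIl.integrableOn_isCompact isCompact_uIcc).mono_set
      uIoc_subset_uIcc)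
  obtain ⟨u, hu⟩ : ∃ u : ℝ → ℝ, u = fun x => ∫ t in (0 : ℝ)..x, I t := ⟨_, rfl⟩
  have hum : Monotone u := by
    intro x y hxy
    have h1 : u y - u x = ∫ t in x..y, I t := by
      rw [hu]
      exact intervalIntegral.integral_interval_sub_left (hIi _ _) (hIi _ _)
    have h2 : 0 ≤ ∫ t in x..y, I t := intervalIntegral.integral_nonneg hxy fun t _ => hI0 t
    linarith
  have hud : ∀ᵐ x : ℝ, HasDerivAt u (I x) x := by
    filter_upwards [_root_.LocallyIntegrable.ae_hasDerivAt_integral hIl] with x hx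
    rw [hu]
    exact hx 0
  filter_upwards [hud] with Q hQu a1 a2 a3 a6
  by_contra hc
  push Not at hc
  have hQB : Q ∈ B := by
    rw [hB]
    exact ⟨a6, hc⟩
  have hIQ : I Q = 0 := by
    rw [hI]
    exact indicator_of_notMem (show Q ∉ Bᶜ from fun h' => h' hQB) _
  rw [hIQ] at hQu
  obtain ⟨P', r', hn, hM, hT⟩ := H Q a1 a2 a3
  obtain ⟨c, hcd⟩ : ∃ c, c = 1 - Q := ⟨_, rfl⟩
  have c0 : 0 < c := by rw [hcd]; linarith
  have c1 : c < 1 := by rw [hcd]; linarith
  obtain ⟨u', hu'⟩ : ∃ u' : ℝ → ℝ, u' = fun x => u (x - c) := ⟨_, rfl⟩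
  have hum' : Monotone u' := by
    intro x y hxy
    rw [hu']
    exact hum (by linarith)
  have hdd : HasDerivAt u' 0 1 := by
    have e1 : (1 : ℝ) - c = Q := by rw [hcd]; ring
    rw [hu']
    rw [← e1] at hQu
    exact HasDerivAt.comp_sub_const 1 c hQu
  have hshift : ∀ᵐ x : ℝ, HasDerivAt u (I (x - c)) (x - c) :=
    (measurePreserving_sub_right volume c).quasiMeasurePreserving.ae hud
  have hg' : 0 < Lv P' (1, 0) := by
    obtain ⟨w₁, w0', w1⟩ := exists_between a3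
    obtain ⟨w, w0, w0''⟩ := exists_between w0'
    have h2 : P w₁ w₁ < Q := diag_lt_of_lt a1 a2 w0'.le w1
    have h3' : w₁ < 1 := by
      refine w1.trans_le ?_
      rw [Lv_eq (P := P) le_rfl zero_le_one a1.le a2.le]
      exact lev_le_one zero_le_one
    have h3 : w < 1 := w0''.trans h3'
    have h4 := hn.thr w w₁ w0 w0'' h3'.le
    refine w0.trans_le ?_
    by_contra hc'
    push Not at hc'
    rw [Lv_eq (P := P') le_rfl zero_le_one zero_le_one le_rfl] at hc'
    have c2 := le_of_lev_lt hn.law (Q := 1) le_rfl zero_le_one hc' h3.le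
    rw [sub_zero] at c2
    linarith
  obtain ⟨s1, s2, s3, s4⟩ := steep_top hn.law hn.low hn.up hg' hum' hdd c1 (by
    filter_upwards [hM, hshift] with R k1 k3 b0 b1 b2 b3 b4 b5
    have k4 : HasDerivAt u' (I (R - c)) R := by
      rw [hu']
      exact HasDerivAt.comp_sub_const R c k3
    rw [k4.deriv]
    by_cases hRB : R - c ∈ B
    · have e2 : deriv (fun Q => Lv P' (Q, 0)) R = 0 := by
        rw [hB] at hRB
        obtain ⟨d1, d2⟩ := hRB
        have d3 : HasDerivAt (fun x => r (x - c)) (deriv r (R - c)) R :=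
          HasDerivAt.comp_sub_const R c d1.hasDerivAt
        have d4 : HasDerivAt r' (deriv r (R - c)) R := by
          refine d3.congr_of_eventuallyEq ?_
          filter_upwards [Ioo_mem_nhds b0 b2] with x hx
          rw [hn.rate x (by linarith [hx.1]) hx.2.le, ← hcd,
            max_eq_right (by linarith [hx.1])]
        exact k1 b1 b2 b3 b4 d4.differentiableAt (by rw [d4.deriv]; exact d2)
      rw [e2]
      exact hI0 _
    · have e2 : I (R - c) = 1 := by
        rw [hI]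
        exact indicator_of_mem (show R - c ∈ Bᶜ from hRB) _
      rw [e2]
      have hgl : LipschitzWith 1 (fun Q => Lv P' (Q, 0)) := by
        refine LipschitzWith.of_dist_le_mul fun x y => ?_
        refine ((Lv_lip hn.law).dist_le_mul _ _).trans ?_
        rw [Prod.dist_eq]
        simp
      have e3 := norm_deriv_le_of_lipschitz hgl (x₀ := R)
      rw [Real.norm_eq_abs, NNReal.coe_one] at e3
      exact (le_abs_self _).trans e3)
  have h7 := hT (Lv P' (1, 0)) hg' s1 s2 s3 s4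
  have h8 := one_le_of_rowT hl (rowT_of_rate a1 a2 hr hn.rate h7) a6
  linarith

end Pool.STR
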