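import Pool.Agent.H93.GEN.RowF

/-!
# Ratios of falls

`Ratio P v w p`: near the window `w` the fall of `v` is `p` times the number of rows.
`ratio_ae`: for a monotone function `v` and almost every row `Q` there is such a ratio at the
window of the row `Q`. `R1D P ρ v W`: the statement for one falling level, the fall of the others
has to be small compared with the number of rows. `R1D.rowF`: it gives the rows of the windows with
ratio `0`. `jmpN_of_r1d`: what is left are the windows with a positive ratio.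
-/

set_option autoImplicit false

namespace Pool.STR

open MeasureTheory Set Filter Topology Pool.LEV

/-- **The ratio of a fall and of the number of rows** at a window. -/
def Ratio (P : ℝ → ℝ → ℝ) (v : ℝ → ℝ) (w p : ℝ) : Prop :=
  ∀ ε : ℝ, 0 < ε → ∃ η : ℝ, 0 < η ∧ ∀ w₀ w₁ : ℝ, 0 < w₀ → w - η < w₀ → w₀ < w → w < w₁ →
    w₁ < w + η → w₁ ≤ 1 →
    |v w₁ - v w₀ - p * (P w₁ w₁ - P w₀ w₀)| ≤ ε * (P w₁ w₁ - P w₀ w₀)

/-- **The statement for one falling level**, the other falls are small compared with the number of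
rows. -/
def R1D (P : ℝ → ℝ → ℝ) (ρ v : ℝ → ℝ) (W : Set ℝ) : Prop :=
  ∀ ε : ℝ, 0 < ε → ∃ δ : ℝ, 0 < δ ∧ ∀ w₀ ∈ W, ∀ w₁ ∈ W, 0 < w₀ → w₀ < w₁ → w₁ ≤ 1 →
    (w₁ - w₀) + (v w₁ - v w₀) ≤ δ * (P w₁ w₁ - P w₀ w₀) →
    (1 - ε) * (P w₁ w₁ - P w₀ w₀) ≤ ρ (P w₁ w₁) - ρ (P w₀ w₀)

section ratio

variable {P : ℝ → ℝ → ℝ}

theorem Ratio.add {v v' : ℝ → ℝ} {w p p' : ℝ} (h : Ratio P v w p) (h' : Ratio P v' w p') :
    Ratio P (fun x => v x + v' x) w (p + p') := by
  intro ε hε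
  obtain ⟨η, hη, h⟩ := h (ε / 2) (by linarith)
  obtain ⟨η', hη', h'⟩ := h' (ε / 2) (by linarith)
  refine ⟨min η η', lt_min hη hη', fun w₀ w₁ a0 a1 a2 a3 a4 a5 => ?_⟩
  have e1 := min_le_left η η'
  have e2 := min_le_right η η'
  have b1 := h w₀ w₁ a0 (by linarith) a2 a3 (by linarith) a5
  have b2 := h' w₀ w₁ a0 (by linarith) a2 a3 (by linarith) a5
  have e3 : v w₁ + v' w₁ - (v w₀ + v' w₀) - (p + p') * (P w₁ w₁ - P w₀ w₀) =
      (v w₁ - v w₀ - p * (P w₁ w₁ - P w₀ w₀)) +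
        (v' w₁ - v' w₀ - p' * (P w₁ w₁ - P w₀ w₀)) := by ring
  rw [e3]
  refine (abs_add_le _ _).trans ?_
  linarith

/-- **Ratio `0`.** -/
theorem R1D.rowF (hP : Law P) (h0 : ∀ w, 0 < w → w ≤ 1 → 0 ≤ P w w) {ρ v : ℝ → ℝ} {W : Set ℝ}
    (hW : Dense W) (h : R1D P ρ v W) {Q : ℝ} (hQ : 0 < Q) (hQ1 : Q < 1)
    (hg : 0 < Lv P (Q, 0)) (hd : HasDerivAt (fun Q => Lv P (Q, 0)) 0 Q)
    (hv : Ratio P v (Lv P (Q, 0)) 0) : RowF P ρ W (Lv P (Q, 0)) := by
  intro ε hε η hη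
  obtain ⟨δ, hδ, h⟩ := h ε hε
  obtain ⟨η', hη', hv⟩ := hv (δ / 2) (by linarith)
  obtain ⟨w₀, b0, w₁, b1, c1, c2, c3, c4, c5, c6, c7⟩ :=
    steep hP h0 hW hQ hQ1 hg hd (half_pos hδ) (lt_min hη hη')
  have e1 := min_le_left η η'
  have e2 := min_le_right η η'
  have b2 := hv w₀ w₁ c5 (by linarith) c2 c3 (by linarith) c6
  rw [zero_mul, sub_zero] at b2
  have b3 := (abs_le.1 b2).2
  exact ⟨w₀, b0, w₁, b1, by linarith, c2, c3, by linarith,
    h w₀ b0 w₁ b1 c5 (by linarith) c6 (by linarith)⟩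

/-- The diagonal threshold is monotone. -/
theorem dg_mono (hP : Law P) {w w' : ℝ} (h0 : 0 ≤ w) (h : w ≤ w') (h1 : w' ≤ 1)
    (hu : P w w ≤ 1) : P w w ≤ P w' w' := by
  by_contra hc
  push Not at hc
  have h2 := hP.slope w w (w' - w) h0 le_rfl (by linarith) (by linarith)
  rw [add_sub_cancel] at h2
  have h3 := hP.mono_w w' w w' h0 h le_rfl h1
  rcases min_le_iff.1 (h2.trans h3) with h4 | h4
  · linarith
  · linarith

end ratio

section ae

variable {P : ℝ → ℝ → ℝ} (hP : Law P) (h0 : ∀ w, 0 < w → w ≤ 1 → 0 ≤ P w w ∧ P w w ≤ 1)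
  {v : ℝ → ℝ}

include hP h0 in
/-- **Almost every row has a ratio.** -/
theorem ratio_ae (hv : ∀ x y, 0 < x → x ≤ y → y ≤ 1 → v x ≤ v y) :
    ∀ᵐ Q : ℝ, 0 < Q → Q < 1 → 0 < Lv P (Q, 0) → ∃ p : ℝ, 0 ≤ p ∧ Ratio P v (Lv P (Q, 0)) p := by
  -- a monotone extension of the function of the row
  obtain ⟨g, hgd⟩ : ∃ g : ℝ → ℝ, g = fun Q => Lv P (Q, 0) := ⟨_, rfl⟩
  have hgm : Monotone g := by
    rw [hgd]
    exact fun x y hxy => Lv_mono hP ⟨hxy, le_rfl⟩
  suffices hk : ∀ k : ℕ, ∀ᵐ Q : ℝ, 0 < Q → Q < 1 → 1 / ((k : ℝ) + 1) < g Q →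
      ∃ p : ℝ, 0 ≤ p ∧ Ratio P v (g Q) p by
    have h1 := ae_all_iff.2 hk
    filter_upwards [h1] with Q hQ a1 a2 a3
    have a3' : 0 < g Q := by rw [hgd]; exact a3
    obtain ⟨k, hk⟩ := exists_nat_one_div_lt a3'
    have := hQ k a1 a2 hk
    rw [hgd] at this
    exact this
  intro k
  obtain ⟨c, hc⟩ : ∃ c : ℝ, c = 1 / ((k : ℝ) + 1) := ⟨_, rfl⟩
  have c0 : 0 < c := by rw [hc]; positivity
  have c1 : c ≤ 1 := by
    rw [hc, div_le_one (by positivity)]
    have : (0 : ℝ) ≤ k := Nat.cast_nonneg k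
    linarith
  obtain ⟨u, hu⟩ : ∃ u : ℝ → ℝ, u = fun x => v (max c (min x 1)) := ⟨_, rfl⟩
  have hum : Monotone u := by
    rw [hu]
    intro x y hxy
    refine hv _ _ (lt_of_lt_of_le c0 (le_max_left _ _)) ?_ (max_le c1 (min_le_right _ _))
    exact max_le_max le_rfl (min_le_min hxy le_rfl)
  have huv : ∀ x, c ≤ x → x ≤ 1 → u x = v x := by
    intro x h1 h2
    rw [hu]
    simp only [min_eq_left h2, max_eq_right h1]
  have hcomp : Monotone (u ∘ g) := hum.comp hgm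
  filter_upwards [hcomp.ae_differentiableAt] with Q hQd a1 a2 a3
  rw [← hc] at a3
  obtain ⟨w, hw⟩ : ∃ w, w = g Q := ⟨_, rfl⟩
  rw [← hw] at a3
  have hwQ : w ≤ Q := by
    rw [hw, hgd]
    exact Lv_diag_le hP (fun w h1 h2 => (h0 w h1 h2).1) a1 a2
  have hw0 : 0 < w := c0.trans a3
  have hw1 : w < 1 := by linarith
  have gQ : Lv P (Q, 0) = w := by rw [hw, hgd]
  -- the diagonal threshold
  have dm : ∀ x y, 0 < x → x ≤ y → y ≤ 1 → P x x ≤ P y y := fun x y hx hxy hy =>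
    dg_mono hP hx.le hxy hy (h0 x hx (hxy.trans hy)).2
  have up : ∀ w₁, w < w₁ → w₁ ≤ 1 → Q ≤ P w₁ w₁ := fun w₁ h1 h2 =>
    le_diag_of_lt hP a1 a2 h2 (by rw [gQ]; exact h1)
  have dn : ∀ w₀, 0 < w₀ → w₀ < w → P w₀ w₀ < Q := fun w₀ h1 h2 =>
    diag_lt_of_lt a1 a2 h1.le (by rw [gQ]; exact h2)
  by_cases hat : ∃ m : ℝ, 0 < m ∧ ∀ w₀ w₁, 0 < w₀ → w₀ < w → w < w₁ → w₁ ≤ 1 →
      m ≤ P w₁ w₁ - P w₀ w₀
  · -- a jump: both sides have limits
    obtain ⟨m, hm, hj⟩ := hat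
    obtain ⟨A, hA⟩ : ∃ A : ℝ → ℝ, A = fun x => P (max c (min x 1)) (max c (min x 1)) := ⟨_, rfl⟩
    have hAm : Monotone A := by
      rw [hA]
      intro x y hxy
      refine dm _ _ (lt_of_lt_of_le c0 (le_max_left _ _)) ?_ (max_le c1 (min_le_right _ _))
      exact max_le_max le_rfl (min_le_min hxy le_rfl)
    have hAP : ∀ x, c ≤ x → x ≤ 1 → A x = P x x := by
      intro x h1 h2
      rw [hA]
      simp only [min_eq_left h2, max_eq_right h1]
    have lim : ∀ f : ℝ → ℝ, Monotone f → ∀ κ : ℝ, 0 < κ → ∃ η : ℝ, 0 < η ∧ ∀ w₀ w₁,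
        w - η < w₀ → w₀ < w → w < w₁ → w₁ < w + η →
        |f w₁ - f w₀ - (Function.rightLim f w - Function.leftLim f w)| ≤ κ := by
      intro f hf κ hκ
      have t1 := hf.tendsto_leftLim w
      have t2 := hf.tendsto_rightLim w
      have t3 := (Metric.tendsto_nhdsWithin_nhds.1 t1) (κ / 2) (by linarith)
      have t4 := (Metric.tendsto_nhdsWithin_nhds.1 t2) (κ / 2) (by linarith)
      obtain ⟨η₁, hη₁, t3⟩ := t3
      obtain ⟨η₂, hη₂, t4⟩ := t4
      refine ⟨min η₁ η₂, lt_min hη₁ hη₂, fun w₀ w₁ b1 b2 b3 b4 => ?_⟩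
      have e1 := min_le_left η₁ η₂
      have e2 := min_le_right η₁ η₂
      have t5 := t3 (x := w₀) b2 (by
        rw [Real.dist_eq, abs_lt]; constructor <;> linarith)
      have t6 := t4 (x := w₁) b3 (by
        rw [Real.dist_eq, abs_lt]; constructor <;> linarith)
      rw [Real.dist_eq] at t5 t6
      have t7 := abs_lt.1 t5
      have t8 := abs_lt.1 t6
      rw [abs_le]
      constructor <;> linarith
    obtain ⟨U, hU⟩ : ∃ U, U = Function.rightLim u w - Function.leftLim u w := ⟨_, rfl⟩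
    obtain ⟨M, hM⟩ : ∃ M, M = Function.rightLim A w - Function.leftLim A w := ⟨_, rfl⟩
    have hU0 : 0 ≤ U := by
      rw [hU]
      have := (hum.leftLim_le (le_refl w)).trans (hum.le_rightLim (le_refl w))
      linarith
    have hM0 : m ≤ M := by
      refine le_of_forall_pos_le_add fun κ hκ => ?_
      obtain ⟨η, hη, h1⟩ := lim A hAm κ hκ
      obtain ⟨s, hs⟩ : ∃ s, s = min (η / 2) (min ((w - c) / 2) ((1 - w) / 2)) := ⟨_, rfl⟩
      have s0 : 0 < s := by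
        rw [hs]; exact lt_min (by linarith) (lt_min (by linarith) (by linarith))
      have s1 : s ≤ η / 2 := by rw [hs]; exact min_le_left _ _
      have s2 : s ≤ (w - c) / 2 := by
        rw [hs]; exact (min_le_right _ _).trans (min_le_left _ _)
      have s3 : s ≤ (1 - w) / 2 := by
        rw [hs]; exact (min_le_right _ _).trans (min_le_right _ _)
      have h2 := (abs_le.1 (h1 (w - s) (w + s) (by linarith) (by linarith) (by linarith)
        (by linarith))).2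
      rw [hAP _ (by linarith) (by linarith), hAP _ (by linarith) (by linarith), ← hM] at h2
      have h3 := hj (w - s) (w + s) (by linarith) (by linarith) (by linarith) (by linarith)
      linarith
    have M0 : 0 < M := hm.trans_le hM0
    refine ⟨U / M, by positivity, fun ε hε => ?_⟩
    obtain ⟨κ, hκ⟩ : ∃ κ, κ = ε * m / (1 + U / M) := ⟨_, rfl⟩
    have hUM : 0 ≤ U / M := by positivity
    have κ0 : 0 < κ := by rw [hκ]; positivity
    obtain ⟨η₁, hη₁, l1⟩ := lim u hum κ κ0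
    obtain ⟨η₂, hη₂, l2⟩ := lim A hAm κ κ0
    obtain ⟨η, hη⟩ : ∃ η, η = min (min η₁ η₂) (w - c) := ⟨_, rfl⟩
    have n0 : 0 < η := by rw [hη]; exact lt_min (lt_min hη₁ hη₂) (by linarith)
    have n1 : η ≤ η₁ := by rw [hη]; exact (min_le_left _ _).trans (min_le_left _ _)
    have n2 : η ≤ η₂ := by rw [hη]; exact (min_le_left _ _).trans (min_le_right _ _)
    have n3 : η ≤ w - c := by rw [hη]; exact min_le_right _ _
    refine ⟨η, n0, fun w₀ w₁ b0 b1 b2 b3 b4 b5 => ?_⟩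
    rw [← hw] at b1 b2 b3 b4
    have f1 := l1 w₀ w₁ (by linarith) b2 b3 (by linarith)
    have f2 := l2 w₀ w₁ (by linarith) b2 b3 (by linarith)
    rw [← hU, huv _ (by linarith) b5, huv _ (by linarith) (by linarith)] at f1
    rw [← hM, hAP _ (by linarith) b5, hAP _ (by linarith) (by linarith)] at f2
    have f3 := hj w₀ w₁ b0 b2 b3 b5
    have e1 : v w₁ - v w₀ - U / M * (P w₁ w₁ - P w₀ w₀) =
        (v w₁ - v w₀ - U) - U / M * (P w₁ w₁ - P w₀ w₀ - M) := by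
      field_simp
      ring
    rw [e1]
    calc _ ≤ |v w₁ - v w₀ - U| + |U / M * (P w₁ w₁ - P w₀ w₀ - M)| := abs_sub _ _
      _ ≤ κ + U / M * κ := by
          rw [abs_mul, abs_of_nonneg hUM]
          exact add_le_add f1 (mul_le_mul_of_nonneg_left f2 hUM)
      _ = ε * m := by
          rw [hκ]
          have : 1 + U / M ≠ 0 := by positivity
          field_simp
      _ ≤ ε * (P w₁ w₁ - P w₀ w₀) := mul_le_mul_of_nonneg_left f3 hε.le
  · -- no jump
    push Not at hat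
    obtain ⟨p, hp⟩ : ∃ p, p = deriv (u ∘ g) Q := ⟨_, rfl⟩
    have hp0 : 0 ≤ p := by rw [hp]; exact hcomp.deriv_nonneg
    refine ⟨p, hp0, fun ε hε => ?_⟩
    have h3 := hQd.hasDerivAt.isLittleO.def hε
    obtain ⟨d, hd, h4⟩ := Metric.eventually_nhds_iff.1 h3
    have h5 : ∀ x, |x - Q| < d → |(u ∘ g) x - (u ∘ g) Q - (x - Q) * p| ≤ ε * |x - Q| := by
      intro x hx
      have h6 := h4 (y := x) (by rw [Real.dist_eq]; exact hx)
      rw [hp]
      simpa using h6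
    obtain ⟨w₀', w₁', b0, b1, b2, b3, b4⟩ := hat (min d (1 - Q))
      (lt_min hd (by linarith))
    have e1 := min_le_left d (1 - Q)
    have e2 := min_le_right d (1 - Q)
    have u1 := up w₁' b2 b3
    have u0 := dn w₀' b0 b1
    obtain ⟨η, hη⟩ : ∃ η, η = min (min (w - w₀') (w₁' - w)) (w - c) := ⟨_, rfl⟩
    have n0 : 0 < η := by
      rw [hη]; exact lt_min (lt_min (by linarith) (by linarith)) (by linarith)
    have n1 : η ≤ w - w₀' := by rw [hη]; exact (min_le_left _ _).trans (min_le_left _ _)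
    have n2 : η ≤ w₁' - w := by rw [hη]; exact (min_le_left _ _).trans (min_le_right _ _)
    have n3 : η ≤ w - c := by rw [hη]; exact min_le_right _ _
    refine ⟨η, n0, fun w₀ w₁ c0' c1' c2' c3' c4' c5' => ?_⟩
    rw [← hw] at c1' c2' c3' c4'
    have m1 := dm w₁ w₁' (by linarith) (by linarith) b3
    have m0 := dm w₀' w₀ b0 (by linarith) (by linarith)
    have v1 := up w₁ c3' c5'
    have v0 := dn w₀ c0' c2'
    have g1 : g (P w₁ w₁) = w₁ := by
      rw [hgd]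
      show Lv P (P w₁ w₁, 0) = w₁
      rw [Lv_eq (P := P) le_rfl zero_le_one (by linarith) (by linarith)]
      exact lev_diag hP (by linarith) c5' (by linarith)
    have q0 := (h0 w₀ c0' (by linarith)).1
    have g0 : g (P w₀ w₀) = w₀ := by
      rw [hgd]
      show Lv P (P w₀ w₀, 0) = w₀
      rw [Lv_eq (P := P) le_rfl zero_le_one q0 (by linarith)]
      exact lev_diag hP c0'.le (by linarith) (by linarith)
    have r1 := h5 (P w₁ w₁) (by rw [abs_lt]; constructor <;> linarith)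
    have r0 := h5 (P w₀ w₀) (by rw [abs_lt]; constructor <;> linarith)
    simp only [Function.comp_apply] at r1 r0
    rw [g1, huv w₁ (by linarith) c5', abs_of_nonneg (by linarith : 0 ≤ P w₁ w₁ - Q)] at r1
    rw [g0, huv w₀ (by linarith) (by linarith),
      abs_of_nonpos (by linarith : P w₀ w₀ - Q ≤ 0)] at r0
    have r1' := abs_le.1 r1
    have r0' := abs_le.1 r0
    rw [abs_le]
    constructor <;> nlinarith

end ae

/-- **What is left after the statement for one falling level.** -/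
theorem jmpN_of_r1d {P : ℝ → ℝ → ℝ} (hP : Law P)
    (h0 : ∀ w, 0 < w → w ≤ 1 → 0 ≤ P w w ∧ P w w ≤ 1) {ρ v : ℝ → ℝ} (hρ : LipschitzWith 1 ρ)
    {W : Set ℝ} (hW : Dense W) (hv : ∀ x y, 0 < x → x ≤ y → y ≤ 1 → v x ≤ v y)
    (h : R1D P ρ v W)
    (h' : ∀ᵐ Q : ℝ, 0 < Q → Q < 1 → 0 < Lv P (Q, 0) →
      HasDerivAt (fun Q => Lv P (Q, 0)) 0 Q → (∃ p : ℝ, 0 < p ∧ Ratio P v (Lv P (Q, 0)) p) →
      RowF P ρ W (Lv P (Q, 0))) : JmpN P ρ := by
  refine jmpN_of_rowF hP h0 hρ (W := W) ?_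
  filter_upwards [h', ratio_ae hP h0 hv] with Q hQ hr a1 a2 a3 a4
  obtain ⟨p, hp, hr⟩ := hr a1 a2 a3
  rcases hp.eq_or_lt with hp | hp
  · rw [← hp] at hr
    exact R1D.rowF hP (fun w b1 b2 => (h0 w b1 b2).1) hW h a1 a2 a3 a4 hr
  · exact hQ a1 a2 a3 a4 ⟨p, hp, hr⟩

end Pool.STR
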