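import Pool.Agent.H93.GEN.RowT

/-!
# The last rows of truncated classes

`NumQ`: the threshold `P'` and the rate `r'` of the class in which the digits of the last
coordinate after the row `Q` are forgotten. `R1T`, `R2T`: the statements on the rows between the
threshold of a window and the last row, with one and with two falling levels.
`rowT_of_r1t`, `rowT_of_r2t`: they give full rows just below `Q`.
`jmpN_of_r1t`, `jmpN_of_r2t`: the rows with a vanishing diagonal slope; in the second theorem the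
levels of the truncated classes are compared for all rows of truncation in a dense set.
-/

set_option autoImplicit false

namespace Pool.STR

open MeasureTheory Set Filter Topology Pool.LEV

/-- The numbers of the class in which the last coordinate is forgotten after the row `Q`. -/
structure NumQ (P : ℝ → ℝ → ℝ) (r : ℝ → ℝ) (W : Set ℝ) (Q : ℝ) (P' : ℝ → ℝ → ℝ) (r' : ℝ → ℝ) :
    Prop where
  rate : ∀ x, 0 ≤ x → x ≤ 1 → r' x = r (max 0 (x - (1 - Q)))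
  low : ∀ w ∈ W, 0 < w → w ≤ 1 → 0 ≤ P' w w
  thr : ∀ w ∈ W, 0 < w → w ≤ 1 → P' w w ≤ P w w + (1 - Q)
  top : ∀ w ∈ W, Lv P (Q, 0) < w → w ≤ 1 → P' w w = 1

/-- **The last rows, one falling level.** -/
def R1T (P : ℝ → ℝ → ℝ) (r c : ℝ → ℝ) (W : Set ℝ) : Prop :=
  ∀ ε : ℝ, 0 < ε → ∃ δ : ℝ, 0 < δ ∧ ∀ w₀ ∈ W, ∀ w₁ ∈ W, 0 < w₀ → w₀ < w₁ → w₁ ≤ 1 →
    P w₁ w₁ = 1 → (w₁ - w₀) + (c w₁ - c w₀) ≤ δ * (1 - P w₀ w₀) →
    (1 - ε) * (1 - P w₀ w₀) ≤ r 1 - r (P w₀ w₀)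

/-- **The last rows, two falling levels.** -/
def R2T (P : ℝ → ℝ → ℝ) (r c v : ℝ → ℝ) (W : Set ℝ) : Prop :=
  ∀ ε C₀ : ℝ, 0 < ε → 0 ≤ C₀ → ∃ δ : ℝ, 0 < δ ∧ ∀ w₀ ∈ W, ∀ w₁ ∈ W, ∀ w₂ ∈ W, 0 < w₀ →
    w₀ < w₁ → w₁ < w₂ → w₂ ≤ 1 → P w₁ w₁ = 1 → P w₂ w₂ = 1 →
    (w₁ - w₀) + (c w₁ - c w₀) ≤ δ * (w₂ - w₀) →
    (w₂ - w₀) + (c w₂ - c w₀) ≤ δ * (1 - P w₀ w₀) →
    v w₁ - v w₀ ≤ C₀ * (1 - P w₀ w₀) →
    (1 - ε) * (1 - P w₀ w₀) ≤ r 1 - r (P w₀ w₀)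

/-- Calm windows around `w`. -/
def FinW (c : ℝ → ℝ) (W : Set ℝ) (w : ℝ) : Prop :=
  ∃ M η : ℝ, 0 < η ∧ ∀ w₀ ∈ W, ∀ w₁ ∈ W, 0 < w₀ → w - η < w₀ → w₀ < w → w < w₁ → w₁ < w + η →
    w₁ ≤ 1 → c w₁ - c w₀ ≤ M * (w₁ - w₀)

section top

variable {P P' : ℝ → ℝ → ℝ} {r r' c v : ℝ → ℝ} {W : Set ℝ} {Q : ℝ}

/-- **Three windows**, the middle one is chosen last. -/
theorem tripleM (hP : Law P) (h0 : ∀ w, 0 < w → w ≤ 1 → 0 ≤ P w w) (hW : Dense W)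
    (hQ : 0 < Q) (hQ1 : Q < 1) (hg : 0 < Lv P (Q, 0))
    (hd : HasDerivAt (fun Q => Lv P (Q, 0)) 0 Q) (hv : FinW c W (Lv P (Q, 0)))
    {δ₀ η : ℝ} (hδ₀ : 0 < δ₀) (hη : 0 < η) :
    ∃ w₀ ∈ W, Lv P (Q, 0) - η < w₀ ∧ w₀ < Lv P (Q, 0) ∧ 0 < w₀ ∧ P w₀ w₀ < Q ∧
      ∃ w₂ ∈ W, Lv P (Q, 0) < w₂ ∧ w₂ < Lv P (Q, 0) + η ∧ w₂ ≤ 1 ∧
      (w₂ - w₀) + (c w₂ - c w₀) ≤ δ₀ * (Q - P w₀ w₀) ∧
      ∃ κ : ℝ, 0 < κ ∧ ∀ w₁ ∈ W, Lv P (Q, 0) < w₁ → w₁ < Lv P (Q, 0) + κ → w₁ < w₂ ∧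
        (w₁ - w₀) + (c w₁ - c w₀) ≤ δ₀ * (w₂ - w₀) := by
  obtain ⟨M₀, η₀, hη₀, hv⟩ := hv
  obtain ⟨δ, hδd⟩ : ∃ δ, δ = min δ₀ 1 := ⟨_, rfl⟩
  have hδ : 0 < δ := by rw [hδd]; exact lt_min hδ₀ one_pos
  have hδ1 : δ ≤ 1 := by rw [hδd]; exact min_le_right _ _
  have hδ2 : δ ≤ δ₀ := by rw [hδd]; exact min_le_left _ _
  obtain ⟨M, hMd⟩ : ∃ M, M = max M₀ 0 := ⟨_, rfl⟩
  have hM0 : 0 ≤ M := by rw [hMd]; exact le_max_right _ _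
  have hM1 : M₀ ≤ M := by rw [hMd]; exact le_max_left _ _
  have hgQ : Lv P (Q, 0) ≤ Q := Lv_diag_le hP h0 hQ hQ1
  obtain ⟨w, hw⟩ : ∃ w, w = Lv P (Q, 0) := ⟨_, rfl⟩
  obtain ⟨A, hA⟩ : ∃ A, A = 2 * (1 + M) / δ := ⟨_, rfl⟩
  have hA1 : 2 ≤ A := by
    rw [hA, le_div_iff₀ hδ]
    nlinarith
  obtain ⟨e, he⟩ : ∃ e, e = δ / (A * (1 + M)) := ⟨_, rfl⟩
  have e0 : 0 < e := by rw [he]; positivity
  obtain ⟨t, ht⟩ : ∃ t, t = min η (min η₀ (1 - w)) / (2 * A) := ⟨_, rfl⟩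
  have hm0 : 0 < min η (min η₀ (1 - w)) :=
    lt_min hη (lt_min hη₀ (by rw [hw]; linarith))
  have t0 : 0 < t := by rw [ht]; positivity
  have tA : A * (2 * t) = min η (min η₀ (1 - w)) := by
    rw [ht]
    field_simp
  have t1 : A * (2 * t) ≤ η := by rw [tA]; exact min_le_left _ _
  have t2 : A * (2 * t) ≤ η₀ := by
    rw [tA]; exact (min_le_right _ _).trans (min_le_left _ _)
  have t3 : A * (2 * t) ≤ 1 - w := by
    rw [tA]; exact (min_le_right _ _).trans (min_le_right _ _)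
  have t4 : 4 * t ≤ A * (2 * t) := by nlinarith
  obtain ⟨w₀, b0, w₁, b1, c1, c2, c3, c4, c5, c6, c8, c7⟩ :=
    steepL hP h0 hW hQ hQ1 hg hd e0 t0
  rw [← hw] at c1 c2 c3 c4 hv ⊢
  obtain ⟨y, hy⟩ : ∃ y, y = w₁ - w₀ := ⟨_, rfl⟩
  have y0 : 0 < y := by linarith
  have y1 : y < 2 * t := by linarith
  rw [← hy] at c7
  obtain ⟨w₂, b2, d1, d2⟩ := hW.exists_between
    (show w₀ + A / 2 * y < w₀ + A * y by nlinarith)
  have yA : y ≤ A / 2 * y := by nlinarith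
  have yA' : A * y ≤ A * (2 * t) := mul_le_mul_of_nonneg_left y1.le (by linarith)
  have g2 : c w₂ - c w₀ ≤ M * (w₂ - w₀) := by
    have := hv w₀ b0 w₂ b2 c5 (by linarith) c2 (by linarith) (by linarith) (by linarith)
    exact this.trans (mul_le_mul_of_nonneg_right hM1 (by linarith))
  have h9 : 0 ≤ Q - P w₀ w₀ := by linarith
  refine ⟨w₀, b0, by linarith, c2, c5, c8, w₂, b2, by linarith, by linarith, by linarith, ?_,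
    w₁ - w, by linarith, ?_⟩
  · calc (w₂ - w₀) + (c w₂ - c w₀) ≤ (1 + M) * (w₂ - w₀) := by linarith
      _ ≤ (1 + M) * (A * y) := mul_le_mul_of_nonneg_left (by linarith) (by linarith)
      _ ≤ (1 + M) * (A * (e * (Q - P w₀ w₀))) := by
          refine mul_le_mul_of_nonneg_left (mul_le_mul_of_nonneg_left c7 (by linarith))
            (by linarith)
      _ = δ * (Q - P w₀ w₀) := by
          rw [he]
          have : A * (1 + M) ≠ 0 := by positivity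
          field_simp
      _ ≤ δ₀ * (Q - P w₀ w₀) := mul_le_mul_of_nonneg_right hδ2 h9
  · intro w' hw' f1 f2
    have f3 : w' < w₁ := by linarith
    have g1 : c w' - c w₀ ≤ M * y := by
      have := hv w₀ b0 w' hw' c5 (by linarith) c2 f1 (by linarith) (by linarith)
      refine (this.trans (mul_le_mul_of_nonneg_right hM1 (by linarith))).trans ?_
      exact mul_le_mul_of_nonneg_left (by linarith) hM0
    refine ⟨by linarith, ?_⟩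
    calc (w' - w₀) + (c w' - c w₀) ≤ (1 + M) * y := by linarith
      _ = δ * (A / 2 * y) := by rw [hA]; field_simp
      _ ≤ δ * (w₂ - w₀) := mul_le_mul_of_nonneg_left (by linarith) hδ.le
      _ ≤ δ₀ * (w₂ - w₀) := mul_le_mul_of_nonneg_right hδ2 (by linarith)

/-- The last rows of the truncated class are the rows just below `Q`. -/
theorem NumQ.rowT (hn : NumQ P r W Q P' r') (hr : Monotone r) (hQ : 0 < Q) (hQ1 : Q < 1)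
    {ε w₀ : ℝ} (hw : w₀ ∈ W) (hw0 : 0 < w₀) (hw1 : w₀ ≤ 1) (h : P w₀ w₀ < Q)
    (h2 : (1 - ε) * (1 - P' w₀ w₀) ≤ r' 1 - r' (P' w₀ w₀)) :
    ∃ m : ℝ, 0 < m ∧ m ≤ 1 ∧ (1 - ε) * m ≤ r Q - r (Q - m) := by
  obtain ⟨m, hm⟩ : ∃ m, m = 1 - P' w₀ w₀ := ⟨_, rfl⟩
  have t1 := hn.thr w₀ hw hw0 hw1
  have t2 := hn.low w₀ hw hw0 hw1
  have m0 : 0 < m := by linarith
  have m1 : m ≤ 1 := by linarith
  have e1 : r' 1 = r Q := by
    rw [hn.rate 1 zero_le_one le_rfl, sub_sub_cancel, max_eq_right hQ.le]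
  have e2 : r' (P' w₀ w₀) = r (max 0 (Q - m)) := by
    rw [hn.rate (P' w₀ w₀) t2 (by linarith)]
    congr 2
    rw [hm]
    ring
  rw [e1, e2, ← hm] at h2
  rcases le_total m Q with h3 | h3
  · rw [max_eq_right (by linarith)] at h2
    exact ⟨m, m0, m1, h2⟩
  · rw [max_eq_left (by linarith)] at h2
    refine ⟨Q, hQ, hQ1.le, ?_⟩
    rw [sub_self]
    rcases le_total ε 1 with h4 | h4
    · exact (mul_le_mul_of_nonneg_left h3 (by linarith)).trans h2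
    · have := hr hQ.le
      nlinarith

/-- **One falling level.** -/
theorem rowT_of_r1t (hP : Law P) (h0 : ∀ w, 0 < w → w ≤ 1 → 0 ≤ P w w) (hr : Monotone r)
    (hW : Dense W) (hQ : 0 < Q) (hQ1 : Q < 1) (hg : 0 < Lv P (Q, 0))
    (hd : HasDerivAt (fun Q => Lv P (Q, 0)) 0 Q) (hn : NumQ P r W Q P' r')
    (hc : FinW c W (Lv P (Q, 0))) (h : R1T P' r' c W) : RowT r Q := by
  intro ε hε
  obtain ⟨δ, hδ, h⟩ := h ε hε
  obtain ⟨M₀, η₀, hη₀, hc⟩ := hc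
  obtain ⟨M, hMd⟩ : ∃ M, M = max M₀ 0 := ⟨_, rfl⟩
  have hM0 : 0 ≤ M := by rw [hMd]; exact le_max_right _ _
  have hM1 : M₀ ≤ M := by rw [hMd]; exact le_max_left _ _
  obtain ⟨w₀, b0, w₁, b1, c1, c2, c3, c4, c5, c6, c8, c7⟩ :=
    steepL hP h0 hW hQ hQ1 hg hd (show 0 < δ / (1 + M) by positivity) hη₀
  refine hn.rowT hr hQ hQ1 b0 c5 (by linarith) c8 (h w₀ b0 w₁ b1 c5 (by linarith) c6
    (hn.top w₁ b1 c3 c6) ?_)
  have h3 := hc w₀ b0 w₁ b1 c5 c1 c2 c3 c4 c6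
  have h4 : c w₁ - c w₀ ≤ M * (w₁ - w₀) :=
    h3.trans (mul_le_mul_of_nonneg_right hM1 (by linarith))
  have t1 := hn.thr w₀ b0 c5 (by linarith)
  calc (w₁ - w₀) + (c w₁ - c w₀) ≤ (1 + M) * (w₁ - w₀) := by linarith
    _ ≤ (1 + M) * (δ / (1 + M) * (Q - P w₀ w₀)) := mul_le_mul_of_nonneg_left c7 (by linarith)
    _ = δ * (Q - P w₀ w₀) := by
        have : (1 + M) ≠ 0 := by positivity
        field_simp
    _ ≤ δ * (1 - P' w₀ w₀) := mul_le_mul_of_nonneg_left (by linarith) hδ.le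

/-- The levels `v` fall at most `C` times as fast as the threshold near the row `Q`. -/
def LowW (P : ℝ → ℝ → ℝ) (v : ℝ → ℝ) (W : Set ℝ) (Q : ℝ) : Prop :=
  ∃ C : ℝ, 0 ≤ C ∧ ∃ η : ℝ, 0 < η ∧ ∀ w₀ ∈ W, 0 < w₀ → Lv P (Q, 0) - η < w₀ →
    w₀ < Lv P (Q, 0) → P w₀ w₀ < Q → ∃ κ : ℝ, 0 < κ ∧ ∀ w₁ ∈ W, Lv P (Q, 0) < w₁ →
      w₁ < Lv P (Q, 0) + κ → w₁ ≤ 1 → v w₁ - v w₀ ≤ C * (Q - P w₀ w₀)

/-- **Two falling levels.** -/
theorem rowT_of_r2t (hP : Law P) (h0 : ∀ w, 0 < w → w ≤ 1 → 0 ≤ P w w) (hr : Monotone r)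
    (hW : Dense W) (hQ : 0 < Q) (hQ1 : Q < 1) (hg : 0 < Lv P (Q, 0))
    (hd : HasDerivAt (fun Q => Lv P (Q, 0)) 0 Q) (hn : NumQ P r W Q P' r')
    (hc : FinW c W (Lv P (Q, 0))) (hv : LowW P v W Q) (h : R2T P' r' c v W) : RowT r Q := by
  intro ε hε
  obtain ⟨C, hC, η, hη, hv⟩ := hv
  obtain ⟨δ, hδ, h⟩ := h ε C hε hC
  obtain ⟨w₀, b0, c1, c2, c3, c4, w₂, b2, d1, d2, d3, d4, κ, hκ, h5⟩ :=
    tripleM hP h0 hW hQ hQ1 hg hd hc hδ hη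
  obtain ⟨κ', hκ', h6⟩ := hv w₀ b0 c3 c1 c2 c4
  obtain ⟨w₁, b1, f1, f2⟩ := hW.exists_between
    (show Lv P (Q, 0) < Lv P (Q, 0) + min κ κ' by linarith [lt_min hκ hκ'])
  obtain ⟨g1, g2⟩ := h5 w₁ b1 f1 (f2.trans_le (by linarith [min_le_left κ κ']))
  have g3 := h6 w₁ b1 f1 (f2.trans_le (by linarith [min_le_right κ κ'])) (by linarith)
  have t1 := hn.thr w₀ b0 c3 (by linarith)
  refine hn.rowT hr hQ hQ1 b0 c3 (by linarith) c4 (h w₀ b0 w₁ b1 w₂ b2 c3 (by linarith) g1 d3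
    (hn.top w₁ b1 f1 (by linarith)) (hn.top w₂ b2 d1 d3) g2 ?_ ?_)
  · exact d4.trans (mul_le_mul_of_nonneg_left (by linarith) hδ.le)
  · exact g3.trans (mul_le_mul_of_nonneg_left (by linarith) hC)

/-- **The rows with a vanishing diagonal slope, one falling level.** -/
theorem jmpN_of_r1t (hP : Law P) (h0 : ∀ w, 0 < w → w ≤ 1 → 0 ≤ P w w)
    (hl : LipschitzWith 1 r) (hr : Monotone r)
    (h : ∀ᵐ Q : ℝ, 0 < Q → Q < 1 → 0 < Lv P (Q, 0) →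
      HasDerivAt (fun Q => Lv P (Q, 0)) 0 Q → DifferentiableAt ℝ r Q → deriv r Q < 1 →
      ∃ (W : Set ℝ) (P' : ℝ → ℝ → ℝ) (r' c : ℝ → ℝ), Dense W ∧ NumQ P r W Q P' r' ∧
        FinW c W (Lv P (Q, 0)) ∧ R1T P' r' c W) : JmpN P r := by
  refine jmpN_of_rowT hl ?_
  filter_upwards [h] with Q hQ a1 a2 a3 a4 a5 a6
  obtain ⟨W, P', r', c, b1, b2, b3, b4⟩ := hQ a1 a2 a3 a4 a5 a6
  exact rowT_of_r1t hP h0 hr b1 a1 a2 a3 a4 b2 b3 b4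

/-- **The rows with a vanishing diagonal slope, two falling levels.** `V q w`: the level at the
window `w` in the class truncated at the row `q`, for `q` in a dense set. -/
theorem jmpN_of_r2t (hP : Law P) (h0 : ∀ w, 0 < w → w ≤ 1 → 0 ≤ P w w ∧ P w w ≤ 1)
    (hl : LipschitzWith 1 r) (hr : Monotone r) {D : Set ℝ} (hD : Dense D) {V : ℝ → ℝ → ℝ} {B : ℝ}
    (hB : ∀ q ∈ D, ∀ w, 0 < w → w ≤ 1 → |V q w| ≤ B)
    (hV : ∀ q ∈ D, ∀ q' ∈ D, ∀ w w', q ≤ q' → 0 < w → w ≤ w' → w' ≤ 1 → V q w ≤ V q' w')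
    (h : ∀ᵐ Q : ℝ, 0 < Q → Q < 1 → 0 < Lv P (Q, 0) →
      HasDerivAt (fun Q => Lv P (Q, 0)) 0 Q → DifferentiableAt ℝ r Q → deriv r Q < 1 →
      ∃ (W : Set ℝ) (P' : ℝ → ℝ → ℝ) (r' c v : ℝ → ℝ), Dense W ∧ NumQ P r W Q P' r' ∧
        FinW c W (Lv P (Q, 0)) ∧
        (∀ q ∈ D, q < Q → ∀ w ∈ W, 0 < w → w ≤ 1 → V q w ≤ v w) ∧
        (∀ q ∈ D, Q < q → ∀ w ∈ W, 0 < w → w ≤ 1 → v w ≤ V q w) ∧
        R2T P' r' c v W) : JmpN P r := by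
  refine jmpN_of_rowT hl ?_
  filter_upwards [h, low_ratio hP h0 hD hB hV] with Q hQ hR a1 a2 a3 a4 a5 a6
  obtain ⟨W, P', r', c, v, b1, b2, b3, b4, b5, b6⟩ := hQ a1 a2 a3 a4 a5 a6
  obtain ⟨C, hC, η, hη, hR⟩ := hR a1 a2 a3
  refine rowT_of_r2t hP (fun w h1 h2 => (h0 w h1 h2).1) hr b1 a1 a2 a3 a4 b2 b3
    ⟨C, hC, η, hη, ?_⟩ b6
  intro w₀ c0 c1 c2 c3 c4
  obtain ⟨κ, hκ, hR⟩ := hR w₀ c1 c2 c3 c4
  refine ⟨κ, hκ, fun w₁ d0 d1 d2 d3 => ?_⟩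
  obtain ⟨q, hq, q1, q2⟩ := hD.exists_between (show Q - κ < Q by linarith)
  obtain ⟨q', hq', q3, q4⟩ := hD.exists_between (show Q < Q + κ by linarith)
  have e1 := hR w₁ d1 d2 d3 q hq q' hq' q1 q2 q3 q4
  have e2 := b4 q hq q2 w₀ c0 c1 (by linarith)
  have e3 := b5 q' hq' q3 w₁ d0 (by linarith) d3
  linarith

end top

end Pool.STR
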