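import Pool.Agent.H93.GEN.Jz
import Pool.Agent.H22.GEN.Frc
import Pool.Agent.H78.LS.Dens

/-!
# Fronts at good scales

`frnN_of`: if the local statement at fronts (no front) is known at every row and every scale `r k`
with a small cost `θ k (w - C r k) - θ k (w + C r k) ≤ ε' r k`, `w = Lv P (Q, 0)`, where the rows
are not full in the box of size `C r k`, then there are no fronts for arbitrarily small scales at
almost all rows which are not full and not in a jump (`FrnN`).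
`frnC_of`: the same for cells of fronts; `jmpN_of_good`: the consequence for (J).
-/

set_option autoImplicit false

namespace Pool.STR

open MeasureTheory Set Filter Topology Pool.LEV

/-- An infinite set contains three points in increasing order. -/
theorem three {S : Set ℝ} (hS : S.Infinite) : ∃ a ∈ S, ∃ b ∈ S, ∃ c ∈ S, a < b ∧ b < c := by
  obtain ⟨t, ht1, ht2⟩ := hS.exists_subset_card_eq 3
  obtain ⟨x, y, z, h1, h2, h3, h4⟩ := Finset.card_eq_three.1 ht2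
  have hx : x ∈ S := ht1 (by rw [h4]; simp)
  have hy : y ∈ S := ht1 (by rw [h4]; simp)
  have hz : z ∈ S := ht1 (by rw [h4]; simp)
  rcases lt_or_gt_of_ne h1 with a | a <;> rcases lt_or_gt_of_ne h2 with b | b <;>
    rcases lt_or_gt_of_ne h3 with c | c
  · exact ⟨x, hx, y, hy, z, hz, a, c⟩
  · exact ⟨x, hx, z, hz, y, hy, b, c⟩
  · linarith
  · exact ⟨z, hz, x, hx, y, hy, b, a⟩
  · exact ⟨y, hy, x, hx, z, hz, a, b⟩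
  · linarith
  · exact ⟨y, hy, z, hz, x, hx, c, b⟩
  · exact ⟨z, hz, y, hy, x, hx, c, a⟩

/-- The rows over a countable set of windows which are not in a jump are countably many. -/
theorem natm_countable {P : ℝ → ℝ → ℝ} (hP : Law P) {Z : Set ℝ} (hZ : Z.Countable) :
    {Q : ℝ | ¬ Atm P Q ∧ Lv P (Q, 0) ∈ Z}.Countable := by
  have h1 : {Q : ℝ | ¬ Atm P Q ∧ Lv P (Q, 0) ∈ Z} =
      ⋃ w ∈ Z, {Q : ℝ | ¬ Atm P Q ∧ Lv P (Q, 0) = w} := by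
    ext Q
    simp only [Set.mem_ofPred_eq, mem_iUnion, exists_prop]
    constructor
    · rintro ⟨h1, h2⟩
      exact ⟨_, h2, h1, rfl⟩
    · rintro ⟨w, h1, h2, h3⟩
      exact ⟨h2, h3 ▸ h1⟩
  rw [h1]
  refine hZ.biUnion fun w _ => Set.Finite.countable ?_
  by_contra hinf
  obtain ⟨a, ha, b, hb, c, hc, hab, hbc⟩ := three hinf
  refine hb.1 ⟨min (b - a) (c - b), lt_min (by linarith) (by linarith), ?_⟩
  have hm : Monotone (fun Q => Lv P (Q, 0)) := fun x y hxy => Lv_mono hP ⟨hxy, le_rfl⟩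
  have h2 : Lv P (b + min (b - a) (c - b), 0) ≤ Lv P (c, 0) :=
    hm (by linarith [min_le_right (b - a) (c - b)])
  have h3 : Lv P (a, 0) ≤ Lv P (b - min (b - a) (c - b), 0) :=
    hm (by linarith [min_le_left (b - a) (c - b)])
  rw [hc.2] at h2
  rw [ha.2] at h3
  exact h2.trans h3

/-- Almost every row which is not in a jump has a window outside a countable set. -/
theorem ae_natm {P : ℝ → ℝ → ℝ} (hP : Law P) {Z : Set ℝ} (hZ : Z.Countable) :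
    ∀ᵐ Q : ℝ, ¬ Atm P Q → Lv P (Q, 0) ∉ Z := by
  have h1 : ∀ᵐ Q : ℝ, Q ∉ {Q : ℝ | ¬ Atm P Q ∧ Lv P (Q, 0) ∈ Z} :=
    (natm_countable hP hZ).ae_notMem _
  filter_upwards [h1] with Q hQ h2 h3
  exact hQ ⟨h2, h3⟩

/-- **No fronts at good scales.** -/
theorem frnN_of {P : ℝ → ℝ → ℝ} (hP : Law P) {ρ : ℝ → ℝ} {D M : ℝ} {θ : ℕ → ℝ → ℝ} {r : ℕ → ℝ}
    (hr : ∀ k, 0 < r k) (hr0 : Tendsto r atTop (𝓝 0)) (hθ : ∀ k, Antitone (θ k))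
    (h0 : ∀ k w, 0 ≤ θ k w) (h1 : ∀ k w, θ k w ≤ M * r k)
    (H : ∀ h : ℝ, 0 < h → ∃ ε ε' C : ℝ, 0 < ε ∧ 0 < ε' ∧ 0 ≤ C ∧ ∀ (Q : ℝ) (k : ℕ), 0 < Q →
      Q < 1 → 0 < Lv P (Q, 0) → C * r k ≤ Q → C * r k ≤ 1 - Q → C * r k ≤ Lv P (Q, 0) →
      (∀ Q₁ Q₂ : ℝ, |Q₁ - Q| ≤ C * r k → |Q₂ - Q| ≤ C * r k → Q₁ ≤ Q₂ →
        ρ Q₂ - ρ Q₁ ≤ (1 - h) * (Q₂ - Q₁) + ε' * r k) →
      θ k (Lv P (Q, 0) - C * r k) - θ k (Lv P (Q, 0) + C * r k) ≤ ε' * r k →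
      ∀ w₀ w₁, ¬ Frn P D ε Q (r k) w₀ w₁) : FrnN P ρ D := by
  intro h hh
  obtain ⟨ε, ε', C, hε, hε', hC, H⟩ := H h hh
  refine ⟨ε, hε, ?_⟩
  obtain ⟨Z, hZ, hZ'⟩ := good_scales hr hr0 hθ h0 h1
  filter_upwards [ae_natm hP hZ] with Q hQ q0 q1 q2 q3 q4 q5 r₁ hr₁
  obtain ⟨d, hd, hd'⟩ := rate_le q4 q5.le hε' hC
  have e1 : ∀ᶠ k in atTop, r k < min r₁ d :=
    hr0.eventually (eventually_lt_nhds (lt_min hr₁ hd))
  have e2 : ∀ᶠ k in atTop, C * r k < min (min Q (1 - Q)) (Lv P (Q, 0)) := by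
    have h2 : Tendsto (fun k => C * r k) atTop (𝓝 (C * 0)) := hr0.const_mul C
    rw [mul_zero] at h2
    exact h2.eventually (eventually_lt_nhds (lt_min (lt_min q0 (by linarith)) q2))
  obtain ⟨k, hk1, hk2, hk3⟩ := ((hZ' _ (hQ q3) C ε' hε').and_eventually (e1.and e2)).exists
  refine ⟨r k, hr k, hk2.trans_le (min_le_left _ _), ?_⟩
  refine H Q k q0 q1 q2 ?_ ?_ ?_ ?_ hk1
  · exact (hk3.trans_le ((min_le_left _ _).trans (min_le_left _ _))).le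
  · exact (hk3.trans_le ((min_le_left _ _).trans (min_le_right _ _))).le
  · exact (hk3.trans_le (min_le_right _ _)).le
  · exact hd' (r k) (hr k) (hk2.trans_le (min_le_right _ _))

/-- **No cells of fronts at good scales.** `θ c k w` is the cost of the first `c r k` digits of the
direction given the label of the window `w`. -/
theorem frnC_of {ι : Type*} {L : ι → ℝ → ℝ → ℝ} {j : ι} (hP : Law (L j)) {ρ : ℝ → ℝ} {D : ℝ}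
    {M : ℕ → ℝ} {θ : ℕ → ℕ → ℝ → ℝ} {r : ℕ → ℝ} (hr : ∀ k, 0 < r k) (hr0 : Tendsto r atTop (𝓝 0))
    (hθ : ∀ c k, Antitone (θ c k)) (h0 : ∀ c k w, 0 ≤ θ c k w) (h1 : ∀ c k w, θ c k w ≤ M c * r k)
    (H : ∀ h : ℝ, 0 < h → ∃ ε C : ℝ, 0 < ε ∧ 0 < C ∧ ∀ δ : ℝ, 0 < δ →
      ∃ (c : ℕ) (ε' C' : ℝ), 0 < ε' ∧ 0 ≤ C' ∧ ∀ (Q : ℝ) (k : ℕ), 0 < Q → Q < 1 →
      0 < Lv (L j) (Q, 0) → C' * r k ≤ Q → C' * r k ≤ 1 - Q → C' * r k ≤ Lv (L j) (Q, 0) →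
      (∀ Q₁ Q₂ : ℝ, |Q₁ - Q| ≤ C' * r k → |Q₂ - Q| ≤ C' * r k → Q₁ ≤ Q₂ →
        ρ Q₂ - ρ Q₁ ≤ (1 - h) * (Q₂ - Q₁) + ε' * r k) →
      θ c k (Lv (L j) (Q, 0) - C' * r k) - θ c k (Lv (L j) (Q, 0) + C' * r k) ≤ ε' * r k →
      ∀ (w₀ w₁ a₀ Y : ℝ) (s : ι → ℝ) (G : Set ι), δ * r k ≤ Y →
        ¬ FCell L j D ε C Q (r k) w₀ w₁ a₀ Y s G) : FrnC L j ρ D := by
  intro h hh
  obtain ⟨ε, C, hε, hC, H⟩ := H h hh
  refine ⟨ε, C, hε, hC, fun δ hδ => ?_⟩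
  obtain ⟨c, ε', C', hε', hC', H⟩ := H δ hδ
  obtain ⟨Z, hZ, hZ'⟩ := good_scales hr hr0 (hθ c) (h0 c) (h1 c)
  filter_upwards [ae_natm hP hZ] with Q hQ q0 q1 q2 q3 q4 q5 r₁ hr₁
  obtain ⟨d, hd, hd'⟩ := rate_le q4 q5.le hε' hC'
  have e1 : ∀ᶠ k in atTop, r k < min r₁ d :=
    hr0.eventually (eventually_lt_nhds (lt_min hr₁ hd))
  have e2 : ∀ᶠ k in atTop, C' * r k < min (min Q (1 - Q)) (Lv (L j) (Q, 0)) := by
    have h2 : Tendsto (fun k => C' * r k) atTop (𝓝 (C' * 0)) := hr0.const_mul C'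
    rw [mul_zero] at h2
    exact h2.eventually (eventually_lt_nhds (lt_min (lt_min q0 (by linarith)) q2))
  obtain ⟨k, hk1, hk2, hk3⟩ := ((hZ' _ (hQ q3) C' ε' hε').and_eventually (e1.and e2)).exists
  refine ⟨r k, hr k, hk2.trans_le (min_le_left _ _), ?_⟩
  refine H Q k q0 q1 q2 ?_ ?_ ?_ ?_ hk1
  · exact (hk3.trans_le ((min_le_left _ _).trans (min_le_left _ _))).le
  · exact (hk3.trans_le ((min_le_left _ _).trans (min_le_right _ _))).le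
  · exact (hk3.trans_le (min_le_right _ _)).le
  · exact hd' (r k) (hr k) (hk2.trans_le (min_le_right _ _))

/-- **(J) from good scales.** -/
theorem jmpN_of_good {ι : Type*} [Finite ι] {L : ι → ℝ → ℝ → ℝ} {j : ι} {ρ : ℝ → ℝ} {D : ℝ}
    (hD : 1 ≤ D) (hL : ∀ i, Law (L i)) (hl : ∀ i, LipR (L i) D)
    (hw : ∀ w, 0 < w → w ≤ 1 → 0 ≤ L j w w) (hJ : JmpA (L j) ρ)
    {M : ℕ → ℝ} {θ : ℕ → ℕ → ℝ → ℝ} {r : ℕ → ℝ} (hr : ∀ k, 0 < r k) (hr0 : Tendsto r atTop (𝓝 0))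
    (hθ : ∀ c k, Antitone (θ c k)) (h0 : ∀ c k w, 0 ≤ θ c k w) (h1 : ∀ c k w, θ c k w ≤ M c * r k)
    (H : ∀ h : ℝ, 0 < h → ∃ ε C : ℝ, 0 < ε ∧ 0 < C ∧ ∀ δ : ℝ, 0 < δ →
      ∃ (c : ℕ) (ε' C' : ℝ), 0 < ε' ∧ 0 ≤ C' ∧ ∀ (Q : ℝ) (k : ℕ), 0 < Q → Q < 1 →
      0 < Lv (L j) (Q, 0) → C' * r k ≤ Q → C' * r k ≤ 1 - Q → C' * r k ≤ Lv (L j) (Q, 0) →
      (∀ Q₁ Q₂ : ℝ, |Q₁ - Q| ≤ C' * r k → |Q₂ - Q| ≤ C' * r k → Q₁ ≤ Q₂ →
        ρ Q₂ - ρ Q₁ ≤ (1 - h) * (Q₂ - Q₁) + ε' * r k) →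
      θ c k (Lv (L j) (Q, 0) - C' * r k) - θ c k (Lv (L j) (Q, 0) + C' * r k) ≤ ε' * r k →
      ∀ (w₀ w₁ a₀ Y : ℝ) (s : ι → ℝ) (G : Set ι), δ * r k ≤ Y →
        ¬ FCell L j D ε C Q (r k) w₀ w₁ a₀ Y s G) : JmpN (L j) ρ :=
  jmpN_of_cell hD hL hl hw hJ (frnC_of (hL j) hr hr0 hθ h0 h1 H)

end Pool.STR
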