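import Pool.Agent.H22.GEN.Front

/-!
# Rows between two diagonals

`RowR P ρ C W`: for windows `w₀ < w₁` in `W` the rows between the diagonal thresholds of `w₀` and
`w₁` which are not full have measure at most `C * (w₁ - w₀)`. `jmpN_of_rowR`: the rows with a
vanishing diagonal slope are full. `RowRe P ρ W`: the weak form, for every `ε` the rows which are
not full have measure at most `ε` times the number of rows, if `w₁ - w₀` is small compared with
the number of rows. `jmpN_of_rowRe`: the weak form is enough.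
-/

set_option autoImplicit false

namespace Pool.STR

open MeasureTheory Set Filter Topology Pool.LEV

/-- The rows between two diagonals. -/
def RowR (P : ℝ → ℝ → ℝ) (ρ : ℝ → ℝ) (C : ℝ) (W : Set ℝ) : Prop :=
  ∀ w₀ ∈ W, ∀ w₁ ∈ W, 0 < w₀ → w₀ < w₁ → w₁ ≤ 1 →
    P w₁ w₁ - P w₀ w₀ - C * (w₁ - w₀) ≤ ρ (P w₁ w₁) - ρ (P w₀ w₀)

/-- **Rows with a vanishing diagonal slope are full.** -/
theorem jmpN_of_rowR {P : ℝ → ℝ → ℝ} (hP : Law P) (h0 : ∀ w, 0 < w → w ≤ 1 → 0 ≤ P w w)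
    {ρ : ℝ → ℝ} (hρ : LipschitzWith 1 ρ) {W : Set ℝ} (hW : Dense W) {C : ℝ} (hC : 0 ≤ C)
    (h : RowR P ρ C W) : JmpN P ρ := by
  intro h' hh'
  refine Eventually.of_forall fun Q hQ hQ1 hg0 hd hd0 hdr => ?_
  obtain ⟨g, hg⟩ : ∃ g : ℝ → ℝ, g = fun Q => Lv P (Q, 0) := ⟨_, rfl⟩
  have hgm : Monotone g := by
    rw [hg]
    exact fun x y hxy => Lv_mono hP ⟨hxy, le_rfl⟩
  have hgQ : g Q ≤ Q := by
    rw [hg]
    exact Lv_diag_le hP h0 hQ hQ1
  have hgp : 0 < g Q := by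
    rw [hg]
    exact hg0
  obtain ⟨e, he⟩ : ∃ e, e = h' / (4 * C + 1) := ⟨_, rfl⟩
  have he0 : 0 < e := by rw [he]; positivity
  have hCe : 2 * C * e + e ≤ h' := by
    have h1 : (4 * C + 1) * e = h' := by rw [he]; field_simp
    nlinarith
  have h1 : HasDerivAt g 0 Q := by
    have h1' := hd.hasDerivAt
    rw [hd0] at h1'
    rw [hg]
    exact h1'
  have h2 : ∃ d : ℝ, 0 < d ∧ ∀ x : ℝ, |x| < d → |g (Q + x) - g Q| ≤ e * |x| := by
    have h3 := h1.isLittleO.def he0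
    obtain ⟨d, hd, h4⟩ := Metric.eventually_nhds_iff.1 h3
    refine ⟨d, hd, fun x hx => ?_⟩
    have h5 := h4 (y := Q + x) (by rw [Real.dist_eq, add_sub_cancel_left]; exact hx)
    simpa using h5
  have h3 : ∃ d : ℝ, 0 < d ∧ ∀ x : ℝ, |x| < d →
      |ρ (Q + x) - ρ Q - x * deriv ρ Q| ≤ e * |x| := by
    have h3 := hdr.hasDerivAt.isLittleO.def he0
    obtain ⟨d, hd, h4⟩ := Metric.eventually_nhds_iff.1 h3
    refine ⟨d, hd, fun x hx => ?_⟩
    have h5 := h4 (y := Q + x) (by rw [Real.dist_eq, add_sub_cancel_left]; exact hx)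
    simpa using h5
  obtain ⟨d, hd1, h2⟩ := h2
  obtain ⟨d', hd', h3⟩ := h3
  obtain ⟨x, hx⟩ : ∃ x, x = min (d / 2) (min (d' / 2) (min (Q / 2) (min ((1 - Q) / (4 * (1 + e)))
    (g Q / (4 * (1 + e)))))) := ⟨_, rfl⟩
  have e1 : 0 < g Q / (4 * (1 + e)) := by positivity
  have e2 : 0 < (1 - Q) / (4 * (1 + e)) := div_pos (by linarith) (by positivity)
  have x0 : 0 < x := by
    rw [hx]
    exact lt_min (by linarith) (lt_min (by linarith) (lt_min (by linarith) (lt_min e2 e1)))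
  have k1 : x ≤ d / 2 := by rw [hx]; exact min_le_left _ _
  have k2 : x ≤ d' / 2 := by rw [hx]; exact (min_le_right _ _).trans (min_le_left _ _)
  have k3 : x ≤ Q / 2 := by
    rw [hx]
    exact (min_le_right _ _).trans ((min_le_right _ _).trans (min_le_left _ _))
  have k4 : x ≤ (1 - Q) / (4 * (1 + e)) := by
    rw [hx]
    exact (min_le_right _ _).trans ((min_le_right _ _).trans ((min_le_right _ _).trans
      (min_le_left _ _)))
  have k5 : x ≤ g Q / (4 * (1 + e)) := by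
    rw [hx]
    exact (min_le_right _ _).trans ((min_le_right _ _).trans ((min_le_right _ _).trans
      (min_le_right _ _)))
  rw [le_div_iff₀ (by positivity)] at k4 k5
  have ex : 0 < e * x := by positivity
  have a1 := (abs_le.1 (h2 x (by rw [abs_of_pos x0]; linarith))).2
  have a2 := (abs_le.1 (h2 (-x) (by rw [abs_neg, abs_of_pos x0]; linarith))).1
  have b1 := (abs_le.1 (h3 x (by rw [abs_of_pos x0]; linarith))).2
  have b2 := (abs_le.1 (h3 (-x) (by rw [abs_neg, abs_of_pos x0]; linarith))).1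
  rw [abs_of_pos x0] at a1 b1
  rw [abs_neg, abs_of_pos x0] at a2 b2
  obtain ⟨w₁, w₁W, u1, u2⟩ := hW.exists_between
    (show g (Q + x) < g (Q + x) + e * x by linarith)
  obtain ⟨w₀, w₀W, v1, v2⟩ := hW.exists_between
    (show g (Q + -x) - e * x < g (Q + -x) by linarith)
  have hw0 : 0 < w₀ := by nlinarith
  have hm : g (Q + -x) ≤ g (Q + x) := hgm (by linarith)
  have hw01 : w₀ < w₁ := by linarith
  have hw1 : w₁ ≤ 1 := by nlinarith
  have p1 : Q + x ≤ P w₁ w₁ := by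
    have c1 : lev P (Q + x) 0 < w₁ := by
      rw [← Lv_eq (P := P) le_rfl zero_le_one (by linarith) (by nlinarith)]
      rw [hg] at u1
      exact u1
    have c2 := le_of_lev_lt hP le_rfl zero_le_one c1 (by linarith)
    rwa [sub_zero] at c2
  have p0 : P w₀ w₀ < Q + -x := by
    have c1 : w₀ < lev P (Q + -x) 0 := by
      rw [← Lv_eq (P := P) le_rfl zero_le_one (by linarith) (by linarith)]
      rw [hg] at v2
      exact v2
    have c2 := lt_of_lt_lev (P := P) zero_le_one hw0.le c1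
    rwa [sub_zero] at c2
  have hR := h w₀ w₀W w₁ w₁W hw0 hw01 hw1
  have l1 : ρ (P w₁ w₁) - ρ (Q + x) ≤ P w₁ w₁ - (Q + x) := by
    have := hρ.dist_le_mul (P w₁ w₁) (Q + x)
    rw [Real.dist_eq, Real.dist_eq, NNReal.coe_one, one_mul,
      abs_of_nonneg (sub_nonneg.2 p1)] at this
    exact (le_abs_self _).trans this
  have l0 : ρ (Q + -x) - ρ (P w₀ w₀) ≤ (Q + -x) - P w₀ w₀ := by
    have := hρ.dist_le_mul (Q + -x) (P w₀ w₀)
    rw [Real.dist_eq, Real.dist_eq, NNReal.coe_one, one_mul,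
      abs_of_nonneg (sub_nonneg.2 p0.le)] at this
    exact (le_abs_self _).trans this
  have hw : w₁ - w₀ ≤ 4 * (e * x) := by linarith
  have hCw : C * (w₁ - w₀) ≤ C * (4 * (e * x)) := mul_le_mul_of_nonneg_left hw hC
  have hfin : (1 - h') * (2 * x) ≤ deriv ρ Q * (2 * x) := by nlinarith
  exact le_of_mul_le_mul_right hfin (by linarith)

/-- The rows between two diagonals, weak form. -/
def RowRe (P : ℝ → ℝ → ℝ) (ρ : ℝ → ℝ) (W : Set ℝ) : Prop :=
  ∀ ε : ℝ, 0 < ε → ∃ δ : ℝ, 0 < δ ∧ ∀ w₀ ∈ W, ∀ w₁ ∈ W, 0 < w₀ → w₀ < w₁ → w₁ ≤ 1 →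
    w₁ - w₀ ≤ δ * (P w₁ w₁ - P w₀ w₀) →
    (1 - ε) * (P w₁ w₁ - P w₀ w₀) ≤ ρ (P w₁ w₁) - ρ (P w₀ w₀)

theorem RowR.weak {P : ℝ → ℝ → ℝ} {ρ : ℝ → ℝ} {C : ℝ} (hC : 0 ≤ C) {W : Set ℝ}
    (h : RowR P ρ C W) : RowRe P ρ W := by
  intro ε hε
  refine ⟨ε / (C + 1), by positivity, fun w₀ hw₀ w₁ hw₁ h0 h1 h2 h3 => ?_⟩
  have h4 := h w₀ hw₀ w₁ hw₁ h0 h1 h2
  have h5 : C * (w₁ - w₀) ≤ ε * (P w₁ w₁ - P w₀ w₀) := by
    have h6 : (C + 1) * (w₁ - w₀) ≤ ε * (P w₁ w₁ - P w₀ w₀) := by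
      calc (C + 1) * (w₁ - w₀) ≤ (C + 1) * (ε / (C + 1) * (P w₁ w₁ - P w₀ w₀)) :=
            mul_le_mul_of_nonneg_left h3 (by linarith)
        _ = ε * (P w₁ w₁ - P w₀ w₀) := by field_simp
    linarith
  linarith

section weak

variable {P : ℝ → ℝ → ℝ} (hP : Law P) (h0 : ∀ w, 0 < w → w ≤ 1 → 0 ≤ P w w ∧ P w w ≤ 1)
  {ρ : ℝ → ℝ} (hρ : LipschitzWith 1 ρ) {W : Set ℝ} (hW : Dense W) (h : RowRe P ρ W)

include hρ in
theorem lip_le {x y : ℝ} (hxy : x ≤ y) : ρ y - ρ x ≤ y - x := by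
  have := hρ.dist_le_mul y x
  rw [Real.dist_eq, Real.dist_eq, NNReal.coe_one, one_mul, abs_of_nonneg (sub_nonneg.2 hxy)] at this
  exact (le_abs_self _).trans this

include hP in
/-- A window is the level of its diagonal threshold. -/
theorem lev_diag {w : ℝ} (hw : 0 ≤ w) (hw1 : w ≤ 1) (h1 : P w w < 1) :
    lev P (P w w) 0 = w := by
  refine le_antisymm (lev_le ⟨hw, hw1, Or.inl (by rw [sub_zero])⟩) ?_
  refine le_csInf ⟨1, one_mem zero_le_one⟩ ?_
  rintro a ⟨h2, h3, h4⟩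
  by_contra hc
  push Not at hc
  rcases h4 with h4 | h4
  · rw [sub_zero] at h4
    have h5 := hP.slope a a (w - a) h2 le_rfl (by linarith) (by linarith)
    rw [add_sub_cancel] at h5
    have h6 := hP.mono_w w a w h2 hc.le le_rfl hw1
    rcases min_le_iff.1 (h5.trans h6) with h7 | h7
    · linarith
    · linarith
  · linarith

include hP h0 hρ hW h in
/-- The rows on which the level is constant are full. -/
theorem full_of_const {a b : ℝ} (ha : 0 < a) (hab : a ≤ b) (hb : b < 1) (hg : 0 < Lv P (a, 0))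
    (hc : Lv P (b, 0) ≤ Lv P (a, 0)) : b - a ≤ ρ b - ρ a := by
  rcases hab.eq_or_lt with hab | hab
  · rw [hab]; linarith
  refine le_of_forall_pos_le_add fun ε hε => ?_
  obtain ⟨δ, hδ, h⟩ := h ε hε
  have hgb : Lv P (b, 0) ≤ b :=
    Lv_diag_le hP (fun w h1 h2 => (h0 w h1 h2).1) (by linarith) hb
  have hs : 0 < δ * (b - a) := mul_pos hδ (by linarith)
  obtain ⟨x, hx⟩ : ∃ x, x = min (δ * (b - a) / 2) (min (Lv P (a, 0)) (1 - b)) := ⟨_, rfl⟩
  have x0 : 0 < x := by rw [hx]; exact lt_min (by linarith) (lt_min hg (by linarith))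
  have x1 : x ≤ δ * (b - a) / 2 := by rw [hx]; exact min_le_left _ _
  have x2 : x ≤ Lv P (a, 0) := by rw [hx]; exact (min_le_right _ _).trans (min_le_left _ _)
  have x3 : x ≤ 1 - b := by rw [hx]; exact (min_le_right _ _).trans (min_le_right _ _)
  have hba : Lv P (a, 0) ≤ Lv P (b, 0) := Lv_mono hP ⟨hab.le, le_rfl⟩
  obtain ⟨w₁, w₁W, u1, u2⟩ := hW.exists_between
    (show Lv P (b, 0) < Lv P (b, 0) + x by linarith)
  obtain ⟨w₀, w₀W, v1, v2⟩ := hW.exists_between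
    (show Lv P (a, 0) - x < Lv P (a, 0) by linarith)
  have hw0 : 0 < w₀ := by linarith
  have hw1 : w₁ ≤ 1 := by linarith
  have p1 : b ≤ P w₁ w₁ := by
    have c1 : lev P b 0 < w₁ := by
      rw [← Lv_eq (P := P) le_rfl zero_le_one (by linarith) (by linarith)]
      exact u1
    have c2 := le_of_lev_lt hP le_rfl zero_le_one c1 (by linarith)
    rwa [sub_zero] at c2
  have p0 : P w₀ w₀ < a := by
    have c1 : w₀ < lev P a 0 := by
      rw [← Lv_eq (P := P) le_rfl zero_le_one (by linarith) (by linarith)]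
      exact v2
    have c2 := lt_of_lt_lev (P := P) zero_le_one hw0.le c1
    rwa [sub_zero] at c2
  have q1 := (h0 w₁ (by linarith) hw1).2
  have q0 := (h0 w₀ hw0 (by linarith)).1
  have hR := h w₀ w₀W w₁ w₁W hw0 (by linarith) hw1 (by
    have h7 : δ * (b - a) ≤ δ * (P w₁ w₁ - P w₀ w₀) :=
      mul_le_mul_of_nonneg_left (by linarith) hδ.le
    linarith)
  have l1 := lip_le hρ p1
  have l0 := lip_le hρ p0.le
  have hε1 : ε * (P w₁ w₁ - P w₀ w₀) ≤ ε * 1 := mul_le_mul_of_nonneg_left (by linarith) hε.le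
  linarith

include hP h0 hρ hW h in
/-- **Rows with a vanishing diagonal slope are full**, from the weak form. -/
theorem jmpN_of_rowRe : JmpN P ρ := by
  intro h' hh'
  refine Eventually.of_forall fun Q hQ hQ1 hg0 hd hd0 hdr => ?_
  obtain ⟨g, hg⟩ : ∃ g : ℝ → ℝ, g = fun Q => Lv P (Q, 0) := ⟨_, rfl⟩
  have hgm : Monotone g := by
    rw [hg]
    exact fun x y hxy => Lv_mono hP ⟨hxy, le_rfl⟩
  have hgp : 0 < g Q := by
    rw [hg]
    exact hg0
  have h1 : HasDerivAt g 0 Q := by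
    have h1' := hd.hasDerivAt
    rw [hd0] at h1'
    rw [hg]
    exact h1'
  suffices hsuf : ∀ ε : ℝ, 0 < ε → 1 - ε ≤ deriv ρ Q from hsuf h' hh'
  intro ε hε
  have h3 : ∀ e : ℝ, 0 < e → ∃ d : ℝ, 0 < d ∧ ∀ x : ℝ, |x| < d →
      |ρ (Q + x) - ρ Q - x * deriv ρ Q| ≤ e * |x| := by
    intro e he0
    have h3 := hdr.hasDerivAt.isLittleO.def he0
    obtain ⟨d, hd, h4⟩ := Metric.eventually_nhds_iff.1 h3
    refine ⟨d, hd, fun x hx => ?_⟩
    have h5 := h4 (y := Q + x) (by rw [Real.dist_eq, add_sub_cancel_left]; exact hx)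
    simpa using h5
  by_cases hl : ∃ η : ℝ, 0 < η ∧ g Q ≤ g (Q - η)
  · -- the level is constant to the left of the row
    obtain ⟨η, hη, hle⟩ := hl
    obtain ⟨d, hd1, h3⟩ := h3 ε hε
    obtain ⟨x, hx⟩ : ∃ x, x = min (η / 2) (min (d / 2) (Q / 2)) := ⟨_, rfl⟩
    have x0 : 0 < x := by
      rw [hx]; exact lt_min (by linarith) (lt_min (by linarith) (by linarith))
    have x1 : x ≤ η / 2 := by rw [hx]; exact min_le_left _ _
    have x2 : x ≤ d / 2 := by rw [hx]; exact (min_le_right _ _).trans (min_le_left _ _)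
    have x3 : x ≤ Q / 2 := by rw [hx]; exact (min_le_right _ _).trans (min_le_right _ _)
    have y1 : g Q ≤ g (Q - x) := hle.trans (hgm (by linarith))
    have y2 := full_of_const hP h0 hρ hW h (a := Q - x) (b := Q) (by linarith) (by linarith) hQ1
      (by rw [hg] at y1 hgp; exact hgp.trans_le y1) (by rw [hg] at y1; exact y1)
    have y3 := (abs_le.1 (h3 (-x) (by rw [abs_neg, abs_of_pos x0]; linarith))).1
    rw [abs_neg, abs_of_pos x0] at y3
    have y4 : Q + -x = Q - x := by ring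
    rw [y4] at y3
    have : (1 - ε) * x ≤ deriv ρ Q * x := by nlinarith
    exact le_of_mul_le_mul_right this x0
  by_cases hr : ∃ η : ℝ, 0 < η ∧ g (Q + η) ≤ g Q
  · obtain ⟨η, hη, hle⟩ := hr
    obtain ⟨d, hd1, h3⟩ := h3 ε hε
    obtain ⟨x, hx⟩ : ∃ x, x = min (η / 2) (min (d / 2) ((1 - Q) / 2)) := ⟨_, rfl⟩
    have x0 : 0 < x := by
      rw [hx]; exact lt_min (by linarith) (lt_min (by linarith) (by linarith))
    have x1 : x ≤ η / 2 := by rw [hx]; exact min_le_left _ _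
    have x2 : x ≤ d / 2 := by rw [hx]; exact (min_le_right _ _).trans (min_le_left _ _)
    have x3 : x ≤ (1 - Q) / 2 := by rw [hx]; exact (min_le_right _ _).trans (min_le_right _ _)
    have y1 : g (Q + x) ≤ g Q := (hgm (by linarith)).trans hle
    have y2 := full_of_const hP h0 hρ hW h (a := Q) (b := Q + x) (by linarith) (by linarith)
      (by linarith) hg0 (by rw [hg] at y1; exact y1)
    have y3 := (abs_le.1 (h3 x (by rw [abs_of_pos x0]; linarith))).2
    rw [abs_of_pos x0] at y3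
    have : (1 - ε) * x ≤ deriv ρ Q * x := by nlinarith
    exact le_of_mul_le_mul_right this x0
  push Not at hl hr
  -- the level is strictly increasing at the row
  obtain ⟨δ, hδ, hR⟩ := h (ε / 2) (by linarith)
  obtain ⟨d, hd1, h3⟩ := h3 (ε / 2) (by linarith)
  have h2 : ∃ d : ℝ, 0 < d ∧ ∀ x : ℝ, |x| < d → |g (Q + x) - g Q| ≤ δ * |x| := by
    have h3 := h1.isLittleO.def hδ
    obtain ⟨d, hd, h4⟩ := Metric.eventually_nhds_iff.1 h3
    refine ⟨d, hd, fun x hx => ?_⟩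
    have h5 := h4 (y := Q + x) (by rw [Real.dist_eq, add_sub_cancel_left]; exact hx)
    simpa using h5
  obtain ⟨d', hd1', h2⟩ := h2
  obtain ⟨η, hη⟩ : ∃ η, η = min (d / 2) (min (d' / 2) (min (Q / 2) ((1 - Q) / 2))) := ⟨_, rfl⟩
  have η0 : 0 < η := by
    rw [hη]
    exact lt_min (by linarith) (lt_min (by linarith) (lt_min (by linarith) (by linarith)))
  have k1 : η ≤ d / 2 := by rw [hη]; exact min_le_left _ _
  have k2 : η ≤ d' / 2 := by rw [hη]; exact (min_le_right _ _).trans (min_le_left _ _)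
  have k3 : η ≤ Q / 2 := by
    rw [hη]
    exact (min_le_right _ _).trans ((min_le_right _ _).trans (min_le_left _ _))
  have k4 : η ≤ (1 - Q) / 2 := by
    rw [hη]
    exact (min_le_right _ _).trans ((min_le_right _ _).trans (min_le_right _ _))
  obtain ⟨w₀, w₀W, v1, v2⟩ := hW.exists_between
    (show max (g (Q - η)) 0 < g Q from max_lt (hl η η0) hgp)
  obtain ⟨w₁, w₁W, u1, u2⟩ := hW.exists_between (hr η η0)
  have v1' := (max_lt_iff.1 v1).1
  have hw0 : 0 < w₀ := (max_lt_iff.1 v1).2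
  have hgQ : g (Q + η) ≤ Q + η := by
    rw [hg]
    exact Lv_diag_le hP (fun w h1 h2 => (h0 w h1 h2).1) (by linarith) (by linarith)
  have hw1 : w₁ ≤ 1 := by linarith
  have p0 : P w₀ w₀ < Q := by
    have c1 : w₀ < lev P Q 0 := by
      rw [← Lv_eq (P := P) le_rfl zero_le_one (by linarith) (by linarith)]
      rw [hg] at v2
      exact v2
    have c2 := lt_of_lt_lev (P := P) zero_le_one hw0.le c1
    rwa [sub_zero] at c2
  have p0' : Q - η ≤ P w₀ w₀ := by
    have c1 : lev P (Q - η) 0 < w₀ := by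
      rw [← Lv_eq (P := P) le_rfl zero_le_one (by linarith) (by linarith)]
      rw [hg] at v1'
      exact v1'
    have c2 := le_of_lev_lt hP le_rfl zero_le_one c1 (by linarith)
    rwa [sub_zero] at c2
  have p1 : Q ≤ P w₁ w₁ := by
    have c1 : lev P Q 0 < w₁ := by
      rw [← Lv_eq (P := P) le_rfl zero_le_one (by linarith) (by linarith)]
      rw [hg] at u1
      exact u1
    have c2 := le_of_lev_lt hP le_rfl zero_le_one c1 (by linarith)
    rwa [sub_zero] at c2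
  have p1' : P w₁ w₁ < Q + η := by
    have c1 : w₁ < lev P (Q + η) 0 := by
      rw [← Lv_eq (P := P) le_rfl zero_le_one (by linarith) (by linarith)]
      rw [hg] at u2
      exact u2
    have c2 := lt_of_lt_lev (P := P) zero_le_one (by linarith) c1
    rwa [sub_zero] at c2
  obtain ⟨y₀, hy₀⟩ : ∃ y, y = Q - P w₀ w₀ := ⟨_, rfl⟩
  obtain ⟨y₁, hy₁⟩ : ∃ y, y = P w₁ w₁ - Q := ⟨_, rfl⟩
  have y₀0 : 0 < y₀ := by linarith
  have y₁0 : 0 ≤ y₁ := by linarith
  have e0 : P w₀ w₀ = Q + -y₀ := by rw [hy₀]; ring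
  have e1 : P w₁ w₁ = Q + y₁ := by rw [hy₁]; ring
  have g0 : g (Q + -y₀) = w₀ := by
    rw [← e0, hg]
    show Lv P (P w₀ w₀, 0) = w₀
    rw [Lv_eq (P := P) le_rfl zero_le_one (by linarith) (by linarith)]
    exact lev_diag hP hw0.le (by linarith) (by linarith)
  have g1 : g (Q + y₁) = w₁ := by
    rw [← e1, hg]
    show Lv P (P w₁ w₁, 0) = w₁
    rw [Lv_eq (P := P) le_rfl zero_le_one (by linarith) (by linarith)]
    exact lev_diag hP (by linarith) hw1 (by linarith)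
  have a1 := (abs_le.1 (h2 y₁ (by rw [abs_of_nonneg y₁0]; linarith))).2
  have a0 := (abs_le.1 (h2 (-y₀) (by rw [abs_neg, abs_of_pos y₀0]; linarith))).1
  rw [abs_of_nonneg y₁0, g1] at a1
  rw [abs_neg, abs_of_pos y₀0, g0] at a0
  have hR := hR w₀ w₀W w₁ w₁W hw0 (by linarith) hw1 (by rw [e0, e1]; linarith)
  rw [e0, e1] at hR
  have b1 := (abs_le.1 (h3 y₁ (by rw [abs_of_nonneg y₁0]; linarith))).2
  have b0 := (abs_le.1 (h3 (-y₀) (by rw [abs_neg, abs_of_pos y₀0]; linarith))).1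
  rw [abs_of_nonneg y₁0] at b1
  rw [abs_neg, abs_of_pos y₀0] at b0
  have : (1 - ε) * (y₁ + y₀) ≤ deriv ρ Q * (y₁ + y₀) := by nlinarith
  exact le_of_mul_le_mul_right this (by linarith)

end weak

end Pool.STR
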