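import Pool.Agent.H1.GEN.One
import Pool.Agent.H93.GEN.RowR

/-!
# The statement on the jumps from the rows between two diagonals

`jmp_of_rowRe`: `Jmp n` follows from the weak form `RowRe` over any dense set of windows (which may
depend on the class).
-/

set_option autoImplicit false

namespace Pool.ONE

open Pool.STR

/-- **The statement on the jumps** from the rows between two diagonals. -/
theorem jmp_of_rowRe {n : ℕ} (h : LocN n fun P r => ∃ W : Set ℝ, Dense W ∧ RowRe P r W) :
    Jmp n := by
  refine LocN.mono h ?_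
  rintro P r h1 h2 h3 - - ⟨W, hW, hR⟩
  refine jmpN_of_rowRe h1 (fun w hw hw1 => ?_) h3 hW hR
  have h4 := h2 w w hw.le le_rfl hw1
  exact ⟨hw.le.trans h4.1, h4.2⟩

/-- The same from the strong form, the constant may depend on the class. -/
theorem jmp_of_rowR {n : ℕ} (h : LocN n fun P r => ∃ (C : ℝ) (W : Set ℝ), 0 ≤ C ∧ Dense W ∧
    RowR P r C W) : Jmp n := by
  refine jmp_of_rowRe (LocN.mono h ?_)
  rintro P r - - - - - ⟨C, W, hC, hW, hR⟩
  exact ⟨W, hW, hR.weak hC⟩

end Pool.ONE
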