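import Pool.Agent.H39.GEN.Blow

/-!
# Rows with a vanishing diagonal slope

`exc`: a sequence of decreasing functions with values in `[0, M r k]`, `r k → 0`, decreases by more
than `ε r k` on the ball of radius `C r k` around `w` for all large `k` for at most `M / ε` points
`w`. So outside a countable set of windows every window has arbitrarily small good scales.

`jmp_of`: the rows with a vanishing diagonal slope are full, if this is known for the rows of every
single window, if the thresholds are Lipschitz in the radius, and if the local statement (no cell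
with a positive slope in the direction `q`, the slope in the direction `Q` being arbitrary) holds,
outside a countable set of windows, at arbitrarily small scales.
-/

set_option autoImplicit false

namespace Pool.STR

open MeasureTheory Set Filter Topology Pool.LEV

/-! ### The finite exceptional set -/

/-- The decreases of a decreasing function on separated intervals. -/
theorem drops {f : ℝ → ℝ} (hf : Antitone f) {B c : ℝ} (hB : ∀ w, f w ≤ B)
    (s : Finset ℝ) (hs : ∀ w ∈ s, ∀ w' ∈ s, w < w' → w + c ≤ w' - c) (x : ℝ)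
    (hx : ∀ w ∈ s, w + c ≤ x) : ∑ w ∈ s, (f (w - c) - f (w + c)) ≤ B - f x := by
  induction s using Finset.induction_on_max generalizing x with
  | empty =>
    rw [Finset.sum_empty]
    linarith [hB x]
  | insert a s ha ih =>
    have hna : a ∉ s := fun h => lt_irrefl _ (ha a h)
    rw [Finset.sum_insert hna]
    have h1 := ih (fun w hw w' hw' => hs w (Finset.mem_insert_of_mem hw) w'
      (Finset.mem_insert_of_mem hw')) (a - c) (fun w hw => hs w (Finset.mem_insert_of_mem hw) a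
        (Finset.mem_insert_self _ _) (ha w hw))
    have h2 : f x ≤ f (a + c) := hf (hx a (Finset.mem_insert_self _ _))
    linarith

/-- **The finite exceptional set.** -/
theorem exc {θ : ℕ → ℝ → ℝ} {r : ℕ → ℝ} {M C ε : ℝ} (hr : ∀ k, 0 < r k)
    (hr0 : Tendsto r atTop (𝓝 0)) (hθ : ∀ k, Antitone (θ k))
    (h0 : ∀ k w, 0 ≤ θ k w) (h1 : ∀ k w, θ k w ≤ M * r k) (s : Finset ℝ)
    (hs : ∀ w ∈ s, ∀ᶠ k in atTop, ε * r k < θ k (w - C * r k) - θ k (w + C * r k)) :
    ε * s.card ≤ M := by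
  classical
  have hsep : ∀ᶠ k in atTop, ∀ w ∈ s, ∀ w' ∈ s, w < w' → w + C * r k ≤ w' - C * r k := by
    rw [Filter.eventually_all_finset]
    intro w _
    rw [Filter.eventually_all_finset]
    intro w' _
    by_cases hw : w < w'
    · have h2 : Tendsto (fun k => 2 * (C * r k)) atTop (𝓝 (2 * (C * 0))) :=
        (hr0.const_mul C).const_mul 2
      rw [mul_zero, mul_zero] at h2
      filter_upwards [h2.eventually (eventually_lt_nhds (sub_pos.2 hw))] with k hk _
      linarith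
    · exact Eventually.of_forall fun k h => absurd h hw
  have hall : ∀ᶠ k in atTop, ∀ w ∈ s, ε * r k < θ k (w - C * r k) - θ k (w + C * r k) := by
    rw [Filter.eventually_all_finset]
    exact hs
  obtain ⟨k, hk1, hk2⟩ := (hsep.and hall).exists
  have hbd : ∃ x : ℝ, ∀ w ∈ s, w + C * r k ≤ x := by
    obtain ⟨y, hy⟩ := s.bddAbove
    exact ⟨y + C * r k, fun w hw => by linarith [hy (Finset.mem_coe.2 hw)]⟩
  obtain ⟨x, hx⟩ := hbd
  have h2 := drops (hθ k) (h1 k) s hk1 x hx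
  have h3 : (s.card : ℝ) * (ε * r k) ≤ ∑ w ∈ s, (θ k (w - C * r k) - θ k (w + C * r k)) := by
    rw [← nsmul_eq_mul]
    exact Finset.card_nsmul_le_sum _ _ _ fun w hw => (hk2 w hw).le
  have h4 : (ε * s.card) * r k ≤ M * r k := by
    have := h0 k x
    nlinarith
  exact le_of_mul_le_mul_right h4 (hr k)

/-- The exceptional set is finite. -/
theorem exc_finite {θ : ℕ → ℝ → ℝ} {r : ℕ → ℝ} {M C ε : ℝ} (hr : ∀ k, 0 < r k)
    (hr0 : Tendsto r atTop (𝓝 0)) (hε : 0 < ε) (hθ : ∀ k, Antitone (θ k))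
    (h0 : ∀ k w, 0 ≤ θ k w) (h1 : ∀ k w, θ k w ≤ M * r k) :
    {w : ℝ | ∀ᶠ k in atTop, ε * r k < θ k (w - C * r k) - θ k (w + C * r k)}.Finite := by
  by_contra hinf
  have hinf' : {w : ℝ | ∀ᶠ k in atTop,
      ε * r k < θ k (w - C * r k) - θ k (w + C * r k)}.Infinite := hinf
  obtain ⟨n, hn⟩ := exists_nat_gt (M / ε)
  obtain ⟨s, hs1, hs2⟩ := hinf'.exists_subset_card_eq n
  have h2 := exc hr hr0 hθ h0 h1 s fun w hw => hs1 (Finset.mem_coe.2 hw)
  rw [hs2] at h2
  rw [div_lt_iff₀ hε] at hn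
  linarith

/-- **Good scales outside a countable set**: for every point outside a countable set, every `C`
and every `ε` there are arbitrarily small good scales. -/
theorem good_scales {θ : ℕ → ℝ → ℝ} {r : ℕ → ℝ} {M : ℝ} (hr : ∀ k, 0 < r k)
    (hr0 : Tendsto r atTop (𝓝 0)) (hθ : ∀ k, Antitone (θ k))
    (h0 : ∀ k w, 0 ≤ θ k w) (h1 : ∀ k w, θ k w ≤ M * r k) : ∃ Z : Set ℝ, Z.Countable ∧
      ∀ w, w ∉ Z → ∀ C ε : ℝ, 0 < ε →
        ∃ᶠ k in atTop, θ k (w - C * r k) - θ k (w + C * r k) ≤ ε * r k := by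
  refine ⟨⋃ n : ℕ, ⋃ m : ℕ, {w : ℝ | ∀ᶠ k in atTop, 1 / ((m : ℝ) + 1) * r k <
    θ k (w - n * r k) - θ k (w + n * r k)}, ?_, ?_⟩
  · refine countable_iUnion fun n => countable_iUnion fun m => ?_
    exact (exc_finite hr hr0 (by positivity) hθ h0 h1).countable
  intro w hw C ε hε
  obtain ⟨n, hn⟩ := exists_nat_gt C
  obtain ⟨m, hm⟩ := exists_nat_one_div_lt hε
  rw [Filter.frequently_iff]
  intro U hU
  by_contra hcon
  push Not at hcon
  refine hw (mem_iUnion.2 ⟨n, mem_iUnion.2 ⟨m, ?_⟩⟩)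
  show ∀ᶠ k in atTop, _
  filter_upwards [hU] with k hk
  have h2 := hcon k hk
  have h3 : θ k (w - C * r k) ≤ θ k (w - n * r k) :=
    hθ k (by nlinarith [hr k])
  have h4 : θ k (w + n * r k) ≤ θ k (w + C * r k) :=
    hθ k (by nlinarith [hr k])
  have h5 : 1 / ((m : ℝ) + 1) * r k ≤ ε * r k := mul_le_mul_of_nonneg_right hm.le (hr k).le
  linarith

/-! ### The rows with a vanishing diagonal slope -/

/-- **(MZ)** The local statement at the rows with a vanishing diagonal slope: outside a countable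
set of windows, at almost every such row which is not full there are arbitrarily small boxes of size
`r` without a cell of size at least `δ r` on which the level is affine with a positive slope in the
direction `q`. The slope in the direction `Q` may vanish. -/
def MicZ (P : ℝ → ℝ → ℝ) (ρ : ℝ → ℝ) : Prop :=
  ∀ h β : ℝ, 0 < h → 0 < β → ∃ ε : ℝ, 0 < ε ∧ ∀ δ : ℝ, 0 < δ → ∃ Z : Set ℝ, Z.Countable ∧
    ∀ᵐ Q : ℝ, 0 < Q → Q < 1 → 0 < Lv P (Q, 0) → Lv P (Q, 0) ∉ Z →
    DifferentiableAt ℝ (fun Q => Lv P (Q, 0)) Q → deriv (fun Q => Lv P (Q, 0)) Q = 0 →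
    DifferentiableAt ℝ ρ Q → deriv ρ Q < 1 - h →
    ∀ r₁ : ℝ, 0 < r₁ → ∃ r : ℝ, 0 < r ∧ r < r₁ ∧ ∀ (p : ℝ × ℝ) (X al be : ℝ),
      |p.1 - Q| ≤ r → δ * r ≤ X → X ≤ p.2 → p.2 + X ≤ r → 0 ≤ al → β ≤ be → al + be ≤ 1 →
      ¬ Affn (Lv P) ε p X al be

/-- **(JM)** The rows of a macroscopic jump are full: for every single window. -/
def JmpM (P : ℝ → ℝ → ℝ) (ρ : ℝ → ℝ) : Prop :=
  ∀ h w : ℝ, 0 < h → 0 < w → ∀ᵐ Q : ℝ, 0 < Q → Q < 1 → Lv P (Q, 0) = w →
    DifferentiableAt ℝ ρ Q → 1 - h ≤ deriv ρ Q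

/-- **(LA)** The thresholds are Lipschitz in the radius. -/
def LipA (P : ℝ → ℝ → ℝ) : Prop :=
  ∃ K : ℝ, 0 ≤ K ∧ ∀ a a' w : ℝ, 0 ≤ w → w ≤ a → a ≤ a' → a' ≤ 1 →
    P a' w ≤ P a w + K * (a' - a)

/-- A row with a small diagonal slope and a small excess is impossible when the thresholds are
Lipschitz in the radius. -/
theorem front {P : ℝ → ℝ → ℝ} (hP : Law P) (hP0 : 0 ≤ P 0 0) {K : ℝ} (hK : 0 ≤ K)
    (hA : ∀ a a' w : ℝ, 0 ≤ w → w ≤ a → a ≤ a' → a' ≤ 1 → P a' w ≤ P a w + K * (a' - a))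
    {Q r : ℝ} (hQ : 0 < Q - r) (hr : 0 < r) (hQr : Q + 4 * r < 1)
    (h1 : Lv P (Q + r, 0) - Lv P (Q - r, 0) ≤ 1 / (4 * (K + 1)) * r)
    (h2 : Lv P (Q + r, r) - Lv P (Q + r, 0) < 1 / (4 * (K + 1)) * r) : False := by
  have hK1 : 0 < K + 1 := by linarith
  obtain ⟨e, he⟩ : ∃ e : ℝ, e = 1 / (4 * (K + 1)) := ⟨_, rfl⟩
  rw [← he] at h1 h2
  have he0 : 0 < e := by rw [he]; positivity
  have heK : K * e ≤ 1 / 4 := by
    rw [he, mul_one_div, div_le_div_iff₀ (by positivity) (by norm_num)]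
    linarith
  have he4 : e ≤ 1 / 4 := by
    rw [he]
    exact one_div_le_one_div_of_le (by norm_num) (by linarith)
  have eL1 : Lv P (Q + r, r) = lev P (Q + r) r :=
    Lv_eq hr.le (by linarith) (by linarith) (by linarith)
  have eL2 : Lv P (Q + r, 0) = lev P (Q + r) 0 :=
    Lv_eq le_rfl zero_le_one (by linarith) (by linarith)
  have eL3 : Lv P (Q - r, 0) = lev P (Q - r) 0 :=
    Lv_eq le_rfl zero_le_one hQ.le (by linarith)
  rw [eL1, eL2] at h2
  rw [eL2, eL3] at h1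
  -- the level of `Q + r` is less than one
  have h3 : lev P (Q + r) 0 ≤ Q + r := by
    refine lev_le ⟨by linarith, by linarith, Or.inl ?_⟩
    rw [sub_zero]
    have h4 := hP.slope 0 0 (Q + r) le_rfl le_rfl (by linarith) (by linarith)
    rw [zero_add] at h4
    have h5 := hP.mono_w (Q + r) 0 (Q + r) le_rfl (by linarith) le_rfl (by linarith)
    have h6 : Q + r ≤ min 1 (P 0 0 + (Q + r)) := le_min (by linarith) (by linarith)
    linarith
  have her : e * r ≤ 1 / 4 * r := mul_le_mul_of_nonneg_right he4 hr.le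
  have her0 : 0 < e * r := mul_pos he0 hr
  have hKer : K * (e * r) ≤ 1 / 4 * r := by
    rw [← mul_assoc]
    exact mul_le_mul_of_nonneg_right heK hr.le
  have h4 : r ≤ lev P (Q + r) r := le_lev (by linarith)
  obtain ⟨a₂, ha₂⟩ : ∃ a₂ : ℝ, a₂ = lev P (Q + r) r + e * r / 2 := ⟨_, rfl⟩
  obtain ⟨a₁, ha₁⟩ : ∃ a₁ : ℝ, a₁ = lev P (Q - r) 0 - e * r / 2 := ⟨_, rfl⟩
  have h5 : Q + r ≤ P a₂ (a₂ - r) :=
    le_of_lev_lt hP hr.le (by linarith) (by rw [ha₂]; linarith) (by rw [ha₂]; linarith)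
  have h6 : a₂ - r ≤ a₁ := by rw [ha₂, ha₁]; linarith
  have h7 : 0 < a₂ - r := by rw [ha₂]; linarith
  have h8 : P a₁ (a₁ - 0) < Q - r :=
    lt_of_lt_lev zero_le_one (by linarith) (by rw [ha₁]; linarith)
  rw [sub_zero] at h8
  have h9 : a₁ ≤ a₂ := by
    have : lev P (Q - r) 0 ≤ lev P (Q + r) r :=
      lev_mono hP le_rfl hr.le (by linarith) (by linarith)
    rw [ha₁, ha₂]
    linarith
  have h10 : a₂ ≤ 1 := by rw [ha₂]; linarith
  have h11 := hA a₁ a₂ (a₂ - r) h7.le h6 h9 h10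
  have h12 := hP.mono_w a₁ (a₂ - r) a₁ h7.le h6 le_rfl (h9.trans h10)
  have h13 : a₂ - a₁ ≤ 3 * (e * r) := by rw [ha₁, ha₂]; linarith
  have h14 : K * (a₂ - a₁) ≤ K * (3 * (e * r)) := mul_le_mul_of_nonneg_left h13 hK
  linarith

/-- **The rows with a vanishing diagonal slope are full.** -/
theorem jmp_of {P : ℝ → ℝ → ℝ} (hP : Law P) (hP0 : 0 ≤ P 0 0) {ρ : ℝ → ℝ} (hM : MicZ P ρ)
    (hA : LipA P) (hJ : JmpM P ρ) : JmpN P ρ := by
  intro h hh
  obtain ⟨K, hK, hA⟩ := hA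
  have hK1 : 0 < K + 1 := by linarith
  obtain ⟨e, he⟩ : ∃ e : ℝ, e = 1 / (4 * (K + 1)) := ⟨_, rfl⟩
  have he0 : 0 < e := by rw [he]; positivity
  obtain ⟨ε, hε, h1⟩ := hM h (e / 2) hh (half_pos he0)
  obtain ⟨δ, hδ, h2⟩ := blow he0 hε
  obtain ⟨Z, hZ, h3⟩ := h1 (δ / 2) (half_pos hδ)
  have h4 : ∀ᵐ Q : ℝ, ∀ w ∈ Z, 0 < w → 0 < Q → Q < 1 → Lv P (Q, 0) = w →
      DifferentiableAt ℝ ρ Q → 1 - h ≤ deriv ρ Q := by
    rw [ae_ball_iff hZ]
    intro w _
    by_cases hw : 0 < w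
    · filter_upwards [hJ h w hh hw] with Q hQ _ using hQ
    · exact Eventually.of_forall fun Q hw' => absurd hw' hw
  filter_upwards [h3, h4] with Q k1 k2 q0 q1 q2 q3 q4 q5
  by_contra hcon
  push Not at hcon
  by_cases hz : Lv P (Q, 0) ∈ Z
  · exact absurd (k2 _ hz q2 q0 q1 rfl q5) (not_le.2 hcon)
  -- the derivative at `Q`
  have hd : HasDerivAt (fun Q => Lv P (Q, 0)) 0 Q := by
    have := q3.hasDerivAt
    rwa [q4] at this
  obtain ⟨d, hd0, hd1⟩ : ∃ d : ℝ, 0 < d ∧ ∀ x : ℝ, |x - Q| < d →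
      |Lv P (x, 0) - Lv P (Q, 0)| ≤ e / 2 * |x - Q| := by
    have h5 := (hasDerivAt_iff_isLittleO.1 hd).def (half_pos he0)
    obtain ⟨d, hd0, hd1⟩ := Metric.eventually_nhds_iff.1 h5
    refine ⟨d, hd0, fun x hx => ?_⟩
    have h6 := hd1 (by rw [Real.dist_eq]; exact hx)
    simp only [smul_zero, sub_zero, Real.norm_eq_abs] at h6
    exact h6
  obtain ⟨r, hr0, hr1, hr2⟩ := k1 q0 q1 q2 hz q3 q4 q5 hcon
    (min (min Q ((1 - Q) / 2)) d) (lt_min (lt_min q0 (by linarith)) hd0)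
  have r1 : r < Q := hr1.trans_le ((min_le_left _ _).trans (min_le_left _ _))
  have r2 : r < (1 - Q) / 2 := hr1.trans_le ((min_le_left _ _).trans (min_le_right _ _))
  have r3 : r < d := hr1.trans_le (min_le_right _ _)
  -- the row `Q + r / 2`, the scale `r / 2`
  have g1 : |Lv P (Q + r / 2, 0) - Lv P (Q, 0)| ≤ e / 2 * (r / 2) := by
    have := hd1 (Q + r / 2) (by rw [add_sub_cancel_left, abs_of_pos (half_pos hr0)]; linarith)
    rwa [add_sub_cancel_left, abs_of_pos (half_pos hr0)] at this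
  have g2 : |Lv P (Q - r / 2, 0) - Lv P (Q, 0)| ≤ e / 2 * (r / 2) := by
    have e1 : |Q - r / 2 - Q| = r / 2 := by
      rw [show Q - r / 2 - Q = -(r / 2) by ring, abs_neg, abs_of_pos (half_pos hr0)]
    have := hd1 (Q - r / 2) (by rw [e1]; linarith)
    rwa [e1] at this
  refine front hP hP0 hK hA (Q := Q) (r := r / 2) (by linarith) (half_pos hr0) (by linarith) ?_ ?_
  · rw [← he]
    linarith [(abs_le.1 g1).2, (abs_le.1 g2).1]
  · rw [← he]
    by_contra hc
    push Not at hc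
    obtain ⟨p, X, al, be, e1, e2, e3, e4, e5, e6, e7, e8⟩ :=
      h2 (Lv P) (Lv_lip hP) (Lv_mono hP) (Q + r / 2) (r / 2) (half_pos hr0) (by linarith)
    refine hr2 p X al be ?_ (by linarith) e3 (by linarith) e5 e6 e7 e8
    rw [abs_le] at e1 ⊢
    constructor <;> linarith [e1.1, e1.2]

end Pool.STR
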