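import Pool.Agent.H93.GEN.RowR

/-!
# Rows of one window

`RowF P ρ W w`: there are windows `w₀ < w < w₁` in `W`, arbitrarily near to `w`, such that almost
all rows between the diagonal thresholds of `w₀` and `w₁` are full. `one_le_of_rowF`: then every
row `Q` of the window `w` at which `ρ` has a derivative is full. `steep`: at a row with a vanishing
diagonal slope there are such windows with `w₁ - w₀` small compared with the number of rows.
`jmpN_of_rowF`: it is enough to have `RowF` at almost all rows with a vanishing diagonal slope.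
`R1C P ρ v W`: the statement for one falling level, `v` is the volume of the other levels.
`R1C.rowF`, `R1C.rowF_atom`: it gives `RowF` at windows at which `v` has a finite upper derivative,
and at jumps of the diagonal threshold at which `v` is continuous.
`jmpN_of_r1c`: what is left.
-/

set_option autoImplicit false

namespace Pool.STR

open MeasureTheory Set Filter Topology Pool.LEV

/-- Almost all rows between suitable windows near `w` are full. -/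
def RowF (P : ℝ → ℝ → ℝ) (ρ : ℝ → ℝ) (W : Set ℝ) (w : ℝ) : Prop :=
  ∀ ε : ℝ, 0 < ε → ∀ η : ℝ, 0 < η → ∃ w₀ ∈ W, ∃ w₁ ∈ W, w - η < w₀ ∧ w₀ < w ∧ w < w₁ ∧
    w₁ < w + η ∧ (1 - ε) * (P w₁ w₁ - P w₀ w₀) ≤ ρ (P w₁ w₁) - ρ (P w₀ w₀)

section basic

variable {P : ℝ → ℝ → ℝ}

/-- Windows above the level of a row. -/
theorem le_diag_of_lt (hP : Law P) {Q w₁ : ℝ} (hQ : 0 < Q) (hQ1 : Q < 1) (h1 : w₁ ≤ 1)
    (h : Lv P (Q, 0) < w₁) : Q ≤ P w₁ w₁ := by
  have c1 : lev P Q 0 < w₁ := by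
    rw [← Lv_eq (P := P) le_rfl zero_le_one hQ.le hQ1.le]
    exact h
  have c2 := le_of_lev_lt hP le_rfl zero_le_one c1 h1
  rwa [sub_zero] at c2

/-- Windows below the level of a row. -/
theorem diag_lt_of_lt {Q w₀ : ℝ} (hQ : 0 < Q) (hQ1 : Q < 1) (h0 : 0 ≤ w₀)
    (h : w₀ < Lv P (Q, 0)) : P w₀ w₀ < Q := by
  have c1 : w₀ < lev P Q 0 := by
    rw [← Lv_eq (P := P) le_rfl zero_le_one hQ.le hQ1.le]
    exact h
  have c2 := lt_of_lt_lev (P := P) zero_le_one h0 c1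
  rwa [sub_zero] at c2

/-- **The rows of a window.** -/
theorem one_le_of_rowF (hP : Law P) (h0 : ∀ w, 0 < w → w ≤ 1 → 0 ≤ P w w ∧ P w w ≤ 1)
    {ρ : ℝ → ℝ} (hρ : LipschitzWith 1 ρ) {W : Set ℝ} {Q : ℝ} (hQ : 0 < Q) (hQ1 : Q < 1)
    (hg : 0 < Lv P (Q, 0)) (h : RowF P ρ W (Lv P (Q, 0))) (hd : DifferentiableAt ℝ ρ Q) :
    1 ≤ deriv ρ Q := by
  by_contra hc
  push Not at hc
  obtain ⟨D, hD⟩ : ∃ D, D = deriv ρ Q := ⟨_, rfl⟩
  rw [← hD] at hc
  obtain ⟨ε, hε⟩ : ∃ ε, ε = (1 - D) / 3 := ⟨_, rfl⟩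
  have ε0 : 0 < ε := by rw [hε]; linarith
  have eD : D = 1 - 3 * ε := by rw [hε]; ring
  have h3 := hd.hasDerivAt.isLittleO.def ε0
  obtain ⟨d₀, hd0, h4⟩ := Metric.eventually_nhds_iff.1 h3
  have h5 : ∀ x, |x - Q| < d₀ → |ρ x - ρ Q - (x - Q) * D| ≤ ε * |x - Q| := by
    intro x hx
    have h6 := h4 (y := x) (by rw [Real.dist_eq]; exact hx)
    rw [hD]
    simpa using h6
  obtain ⟨d, hd'⟩ : ∃ d, d = min (d₀ / 2) 1 := ⟨_, rfl⟩
  have d0 : 0 < d := by rw [hd']; exact lt_min (by linarith) one_pos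
  have d1 : d ≤ 1 := by rw [hd']; exact min_le_right _ _
  have d2 : d < d₀ := by
    rw [hd']
    exact (min_le_left _ _).trans_lt (by linarith)
  -- to the right of the row
  have hR : ∀ x, Q ≤ x → ρ x - ρ Q ≤ (x - Q) - 2 * ε * min d (x - Q) := by
    intro x hx
    rcases le_total (x - Q) d with h6 | h6
    · rw [min_eq_right h6]
      have h7 := (abs_le.1 (h5 x (by rw [abs_of_nonneg (by linarith)]; linarith))).2
      rw [abs_of_nonneg (by linarith : (0 : ℝ) ≤ x - Q)] at h7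
      rw [eD] at h7
      linarith
    · rw [min_eq_left h6]
      have h7 := (abs_le.1 (h5 (Q + d) (by
        rw [add_sub_cancel_left, abs_of_nonneg d0.le]; linarith))).2
      rw [add_sub_cancel_left, abs_of_nonneg d0.le, eD] at h7
      have h8 := lip_le hρ (show Q + d ≤ x by linarith)
      linarith
  -- to the left of the row
  have hL : ∀ x, x ≤ Q → ρ Q - ρ x ≤ (Q - x) - 2 * ε * min d (Q - x) := by
    intro x hx
    rcases le_total (Q - x) d with h6 | h6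
    · rw [min_eq_right h6]
      have h7 := (abs_le.1 (h5 x (by rw [abs_of_nonpos (by linarith)]; linarith))).1
      rw [abs_of_nonpos (by linarith : x - Q ≤ 0)] at h7
      rw [eD] at h7
      linarith
    · rw [min_eq_left h6]
      have h7 := (abs_le.1 (h5 (Q - d) (by
        rw [show Q - d - Q = -d by ring, abs_neg, abs_of_nonneg d0.le]; linarith))).1
      rw [show Q - d - Q = -d by ring, abs_neg, abs_of_nonneg d0.le, eD] at h7
      have h8 := lip_le hρ (show x ≤ Q - d by linarith)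
      linarith
  have hgQ : Lv P (Q, 0) ≤ Q :=
    Lv_diag_le hP (fun w h1 h2 => (h0 w h1 h2).1) hQ hQ1
  obtain ⟨w₀, -, w₁, -, a1, a2, a3, a4, a5⟩ := h (ε * d) (by positivity)
    (min (Lv P (Q, 0)) (1 - Lv P (Q, 0))) (lt_min hg (by linarith))
  have b1 := min_le_left (Lv P (Q, 0)) (1 - Lv P (Q, 0))
  have b2 := min_le_right (Lv P (Q, 0)) (1 - Lv P (Q, 0))
  have hw0 : 0 < w₀ := by linarith
  have hw1 : w₁ ≤ 1 := by linarith
  have p1 := le_diag_of_lt hP hQ hQ1 hw1 a3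
  have p0 := diag_lt_of_lt hQ hQ1 hw0.le a2
  have q1 := (h0 w₁ (by linarith) hw1).2
  have q0 := (h0 w₀ hw0 (by linarith)).1
  have c1 := hR _ p1
  have c0 := hL _ p0.le
  have hm : d * (P w₁ w₁ - P w₀ w₀) ≤ min d (P w₁ w₁ - Q) + min d (Q - P w₀ w₀) := by
    have e1 : d * (P w₁ w₁ - P w₀ w₀) ≤ d := by nlinarith
    have e2 : d * (P w₁ w₁ - P w₀ w₀) ≤ P w₁ w₁ - P w₀ w₀ := by nlinarith
    have e3 : 0 ≤ min d (P w₁ w₁ - Q) := le_min d0.le (by linarith)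
    have e4 : 0 ≤ min d (Q - P w₀ w₀) := le_min d0.le (by linarith)
    rcases le_total d (P w₁ w₁ - Q) with f1 | f1
    · rw [min_eq_left f1]
      linarith
    · rcases le_total d (Q - P w₀ w₀) with f2 | f2
      · rw [min_eq_left f2]
        linarith
      · rw [min_eq_right f1, min_eq_right f2]
        linarith
  have hm' : 2 * ε * (d * (P w₁ w₁ - P w₀ w₀)) ≤
      2 * ε * (min d (P w₁ w₁ - Q) + min d (Q - P w₀ w₀)) :=
    mul_le_mul_of_nonneg_left hm (by positivity)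
  have hpos : 0 < ε * d * (P w₁ w₁ - P w₀ w₀) := by
    have : 0 < P w₁ w₁ - P w₀ w₀ := by linarith
    positivity
  nlinarith

/-- **Windows near a row with a vanishing diagonal slope.** -/
theorem steep (hP : Law P) (h0 : ∀ w, 0 < w → w ≤ 1 → 0 ≤ P w w) {W : Set ℝ} (hW : Dense W)
    {Q : ℝ} (hQ : 0 < Q) (hQ1 : Q < 1) (hg : 0 < Lv P (Q, 0))
    (hd : HasDerivAt (fun Q => Lv P (Q, 0)) 0 Q) {δ η : ℝ} (hδ : 0 < δ) (hη : 0 < η) :
    ∃ w₀ ∈ W, ∃ w₁ ∈ W, Lv P (Q, 0) - η < w₀ ∧ w₀ < Lv P (Q, 0) ∧ Lv P (Q, 0) < w₁ ∧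
      w₁ < Lv P (Q, 0) + η ∧ 0 < w₀ ∧ w₁ ≤ 1 ∧ w₁ - w₀ ≤ δ * (P w₁ w₁ - P w₀ w₀) := by
  obtain ⟨g, hgd⟩ : ∃ g : ℝ → ℝ, g = fun Q => Lv P (Q, 0) := ⟨_, rfl⟩
  have hgm : Monotone g := by
    rw [hgd]
    exact fun x y hxy => Lv_mono hP ⟨hxy, le_rfl⟩
  have hgQ : g Q ≤ Q := by
    rw [hgd]
    exact Lv_diag_le hP h0 hQ hQ1
  have hgp : 0 < g Q := by
    rw [hgd]
    exact hg
  have eg : Lv P (Q, 0) = g Q := by rw [hgd]
  rw [eg]
  obtain ⟨e, he⟩ : ∃ e, e = min (δ / 2) 1 := ⟨_, rfl⟩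
  have e0 : 0 < e := by rw [he]; exact lt_min (by linarith) one_pos
  have e1 : e ≤ δ / 2 := by rw [he]; exact min_le_left _ _
  have e2 : e ≤ 1 := by rw [he]; exact min_le_right _ _
  have h2 : ∃ d : ℝ, 0 < d ∧ ∀ x : ℝ, |x| < d → |g (Q + x) - g Q| ≤ e * |x| := by
    have h1 : HasDerivAt g 0 Q := by rw [hgd]; exact hd
    have h3 := h1.isLittleO.def e0
    obtain ⟨d, hd, h4⟩ := Metric.eventually_nhds_iff.1 h3
    refine ⟨d, hd, fun x hx => ?_⟩
    have h5 := h4 (y := Q + x) (by rw [Real.dist_eq, add_sub_cancel_left]; exact hx)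
    simpa using h5
  obtain ⟨d, hd1, h2⟩ := h2
  obtain ⟨x, hx⟩ : ∃ x, x = min (d / 2) (min (Q / 2) (min ((1 - Q) / 4)
    (min (g Q / 4) (η / 4)))) := ⟨_, rfl⟩
  have x0 : 0 < x := by
    rw [hx]
    exact lt_min (by linarith) (lt_min (by linarith) (lt_min (by linarith)
      (lt_min (by linarith) (by linarith))))
  have k1 : x ≤ d / 2 := by rw [hx]; exact min_le_left _ _
  have k2 : x ≤ Q / 2 := by rw [hx]; exact (min_le_right _ _).trans (min_le_left _ _)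
  have k3 : x ≤ (1 - Q) / 4 := by
    rw [hx]
    exact (min_le_right _ _).trans ((min_le_right _ _).trans (min_le_left _ _))
  have k4 : x ≤ g Q / 4 := by
    rw [hx]
    exact (min_le_right _ _).trans ((min_le_right _ _).trans ((min_le_right _ _).trans
      (min_le_left _ _)))
  have k5 : x ≤ η / 4 := by
    rw [hx]
    exact (min_le_right _ _).trans ((min_le_right _ _).trans ((min_le_right _ _).trans
      (min_le_right _ _)))
  have ex : 0 < e * x := by positivity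
  have ex1 : e * x ≤ x := by nlinarith
  have a1 := (abs_le.1 (h2 x (by rw [abs_of_pos x0]; linarith))).2
  have a2 := (abs_le.1 (h2 (-x) (by rw [abs_neg, abs_of_pos x0]; linarith))).1
  rw [abs_of_pos x0] at a1
  rw [abs_neg, abs_of_pos x0] at a2
  obtain ⟨w₁, w₁W, u1, u2⟩ := hW.exists_between
    (show g (Q + x) < g (Q + x) + e * x by linarith)
  obtain ⟨w₀, w₀W, v1, v2⟩ := hW.exists_between
    (show g (Q + -x) - e * x < g (Q + -x) by linarith)
  have m1 : g Q ≤ g (Q + x) := hgm (by linarith)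
  have m0 : g (Q + -x) ≤ g Q := hgm (by linarith)
  have hw0 : 0 < w₀ := by linarith
  have hw1 : w₁ ≤ 1 := by linarith
  have p1 : Q + x ≤ P w₁ w₁ := le_diag_of_lt hP (by linarith) (by linarith) hw1 (by
    rw [hgd] at u1
    exact u1)
  have p0 : P w₀ w₀ < Q + -x := diag_lt_of_lt (by linarith) (by linarith) hw0.le (by
    rw [hgd] at v2
    exact v2)
  refine ⟨w₀, w₀W, w₁, w₁W, by linarith, by linarith, by linarith, by linarith, hw0, hw1, ?_⟩
  have h6 : 4 * (e * x) ≤ δ * (2 * x) := by nlinarith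
  have h7 : δ * (2 * x) ≤ δ * (P w₁ w₁ - P w₀ w₀) :=
    mul_le_mul_of_nonneg_left (by linarith) hδ.le
  linarith

/-- **The rows with a vanishing diagonal slope** from `RowF` at almost all of them. -/
theorem jmpN_of_rowF (hP : Law P) (h0 : ∀ w, 0 < w → w ≤ 1 → 0 ≤ P w w ∧ P w w ≤ 1)
    {ρ : ℝ → ℝ} (hρ : LipschitzWith 1 ρ) {W : Set ℝ}
    (h : ∀ᵐ Q : ℝ, 0 < Q → Q < 1 → 0 < Lv P (Q, 0) →
      HasDerivAt (fun Q => Lv P (Q, 0)) 0 Q → RowF P ρ W (Lv P (Q, 0))) : JmpN P ρ := by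
  intro h' hh'
  filter_upwards [h] with Q hQ a1 a2 a3 a4 a5 a6
  have h1 := one_le_of_rowF hP h0 hρ a1 a2 a3
    (hQ a1 a2 a3 (by have := a4.hasDerivAt; rwa [a5] at this)) a6
  linarith

/-- `RowRe` gives `RowF` at all rows with a vanishing diagonal slope. -/
theorem RowRe.rowF (hP : Law P) (h0 : ∀ w, 0 < w → w ≤ 1 → 0 ≤ P w w) {ρ : ℝ → ℝ}
    {W : Set ℝ} (hW : Dense W) (h : RowRe P ρ W) {Q : ℝ} (hQ : 0 < Q) (hQ1 : Q < 1)
    (hg : 0 < Lv P (Q, 0)) (hd : HasDerivAt (fun Q => Lv P (Q, 0)) 0 Q) :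
    RowF P ρ W (Lv P (Q, 0)) := by
  intro ε hε η hη
  obtain ⟨δ, hδ, h⟩ := h ε hε
  obtain ⟨w₀, b0, w₁, b1, c1, c2, c3, c4, c5, c6, c7⟩ :=
    steep hP h0 hW hQ hQ1 hg hd hδ hη
  exact ⟨w₀, b0, w₁, b1, c1, c2, c3, c4, h w₀ b0 w₁ b1 c5 (by linarith) c6 c7⟩

end basic

/-! ### One falling level -/

/-- **The statement for one falling level.** `v`: the volume of the other levels. -/
def R1C (P : ℝ → ℝ → ℝ) (ρ v : ℝ → ℝ) (W : Set ℝ) : Prop :=
  ∀ ε : ℝ, 0 < ε → ∃ δ : ℝ, 0 < δ ∧ ∀ w₀ ∈ W, ∀ w₁ ∈ W, ∀ w₂ ∈ W, 0 < w₀ → w₀ < w₁ → w₁ ≤ w₂ →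
    w₂ ≤ 1 → (w₁ - w₀) + (v w₁ - v w₀) ≤ δ * (w₂ - w₀) →
    (w₂ - w₀) + (v w₂ - v w₀) ≤ δ * (P w₁ w₁ - P w₀ w₀) →
    (1 - ε) * (P w₁ w₁ - P w₀ w₀) ≤ ρ (P w₁ w₁) - ρ (P w₀ w₀)

section r1c

variable {P : ℝ → ℝ → ℝ} {ρ v : ℝ → ℝ} {W : Set ℝ}

/-- A finite upper derivative (over intervals around `w`). -/
def FinD (v : ℝ → ℝ) (w : ℝ) : Prop :=
  ∃ M η : ℝ, 0 < η ∧ ∀ w₀ w₁, w - η < w₀ → w₀ < w → w < w₁ → w₁ < w + η →
    v w₁ - v w₀ ≤ M * (w₁ - w₀)

/-- One falling level: windows at which the volume of the others has a finite upper derivative. -/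
theorem R1C.rowF (hP : Law P) (h0 : ∀ w, 0 < w → w ≤ 1 → 0 ≤ P w w) (hW : Dense W)
    (h : R1C P ρ v W) {Q : ℝ} (hQ : 0 < Q) (hQ1 : Q < 1) (hg : 0 < Lv P (Q, 0))
    (hd : HasDerivAt (fun Q => Lv P (Q, 0)) 0 Q) (hv : FinD v (Lv P (Q, 0))) :
    RowF P ρ W (Lv P (Q, 0)) := by
  intro ε hε η hη
  obtain ⟨δ₀, hδ₀, h⟩ := h ε hε
  obtain ⟨M₀, η₀, hη₀, hv⟩ := hv
  obtain ⟨δ, hδd⟩ : ∃ δ, δ = min δ₀ 1 := ⟨_, rfl⟩
  have hδ : 0 < δ := by rw [hδd]; exact lt_min hδ₀ one_pos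
  have hδ1 : δ ≤ 1 := by rw [hδd]; exact min_le_right _ _
  have hδ2 : δ ≤ δ₀ := by rw [hδd]; exact min_le_left _ _
  obtain ⟨M, hMd⟩ : ∃ M, M = max M₀ 0 := ⟨_, rfl⟩
  have hM0 : 0 ≤ M := by rw [hMd]; exact le_max_right _ _
  have hM1 : M₀ ≤ M := by rw [hMd]; exact le_max_left _ _
  have hgQ : Lv P (Q, 0) ≤ Q := Lv_diag_le hP h0 hQ hQ1
  obtain ⟨w, hw⟩ : ∃ w, w = Lv P (Q, 0) := ⟨_, rfl⟩
  -- the constants
  obtain ⟨A, hA⟩ : ∃ A, A = 2 * (1 + M) / δ := ⟨_, rfl⟩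
  have hA1 : 2 ≤ A := by
    rw [hA, le_div_iff₀ hδ]
    nlinarith
  obtain ⟨e, he⟩ : ∃ e, e = δ / (A * (1 + M)) := ⟨_, rfl⟩
  have e0 : 0 < e := by rw [he]; positivity
  obtain ⟨t, ht⟩ : ∃ t, t = min η (min η₀ (1 - w)) / (2 * A) := ⟨_, rfl⟩
  have hm0 : 0 < min η (min η₀ (1 - w)) :=
    lt_min hη (lt_min hη₀ (by rw [hw]; linarith))
  have t0 : 0 < t := by rw [ht]; positivity
  have tA : A * (2 * t) = min η (min η₀ (1 - w)) := by
    rw [ht]
    field_simp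
  have t1 : A * (2 * t) ≤ η := by rw [tA]; exact min_le_left _ _
  have t2 : A * (2 * t) ≤ η₀ := by
    rw [tA]; exact (min_le_right _ _).trans (min_le_left _ _)
  have t3 : A * (2 * t) ≤ 1 - w := by
    rw [tA]; exact (min_le_right _ _).trans (min_le_right _ _)
  have t4 : 4 * t ≤ A * (2 * t) := by nlinarith
  obtain ⟨w₀, b0, w₁, b1, c1, c2, c3, c4, c5, c6, c7⟩ :=
    steep hP h0 hW hQ hQ1 hg hd e0 t0
  rw [← hw] at c1 c2 c3 c4 hv ⊢
  obtain ⟨y, hy⟩ : ∃ y, y = w₁ - w₀ := ⟨_, rfl⟩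
  have y0 : 0 < y := by linarith
  have y1 : y < 2 * t := by linarith
  rw [← hy] at c7
  obtain ⟨w₂, b2, d1, d2⟩ := hW.exists_between
    (show w₀ + A / 2 * y < w₀ + A * y by nlinarith)
  have yA : y ≤ A / 2 * y := by nlinarith
  have yA' : A * y ≤ A * (2 * t) := mul_le_mul_of_nonneg_left y1.le (by linarith)
  have g1 : v w₁ - v w₀ ≤ M * y := by
    have := hv w₀ w₁ (by linarith) c2 c3 (by linarith)
    rw [← hy] at this
    exact this.trans (mul_le_mul_of_nonneg_right hM1 y0.le)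
  have g2 : v w₂ - v w₀ ≤ M * (w₂ - w₀) := by
    have := hv w₀ w₂ (by linarith) c2 (by linarith) (by linarith)
    exact this.trans (mul_le_mul_of_nonneg_right hM1 (by linarith))
  refine ⟨w₀, b0, w₁, b1, by linarith, c2, c3, by linarith, ?_⟩
  refine h w₀ b0 w₁ b1 w₂ b2 c5 (by linarith) (by linarith) (by linarith) ?_ ?_
  · calc (w₁ - w₀) + (v w₁ - v w₀) ≤ (1 + M) * y := by rw [← hy]; linarith
      _ = δ * (A / 2 * y) := by rw [hA]; field_simp
      _ ≤ δ * (w₂ - w₀) := mul_le_mul_of_nonneg_left (by linarith) hδ.le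
      _ ≤ δ₀ * (w₂ - w₀) := mul_le_mul_of_nonneg_right hδ2 (by linarith)
  · have h9 : 0 ≤ P w₁ w₁ - P w₀ w₀ := by
      by_contra hc
      push Not at hc
      have : e * (P w₁ w₁ - P w₀ w₀) < 0 := mul_neg_of_pos_of_neg e0 hc
      linarith
    calc (w₂ - w₀) + (v w₂ - v w₀) ≤ (1 + M) * (w₂ - w₀) := by linarith
      _ ≤ (1 + M) * (A * y) := mul_le_mul_of_nonneg_left (by linarith) (by linarith)
      _ ≤ (1 + M) * (A * (e * (P w₁ w₁ - P w₀ w₀))) := by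
          refine mul_le_mul_of_nonneg_left (mul_le_mul_of_nonneg_left c7 (by linarith))
            (by linarith)
      _ = δ * (P w₁ w₁ - P w₀ w₀) := by
          rw [he]
          have : A * (1 + M) ≠ 0 := by positivity
          field_simp
      _ ≤ δ₀ * (P w₁ w₁ - P w₀ w₀) := mul_le_mul_of_nonneg_right hδ2 h9

/-- One falling level: jumps at which the volume of the others is continuous. -/
theorem R1C.rowF_atom (hW : Dense W)
    (h : R1C P ρ v W) {w m : ℝ} (hw : 0 < w) (hw1 : w < 1) (hm : 0 < m)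
    (hj : ∀ w₀ w₁, 0 < w₀ → w₀ < w → w < w₁ → w₁ ≤ 1 → m ≤ P w₁ w₁ - P w₀ w₀)
    (hv : ContinuousAt v w) : RowF P ρ W w := by
  intro ε hε η hη
  obtain ⟨δ, hδ, h⟩ := h ε hε
  have key : ∀ κ : ℝ, 0 < κ → ∃ τ : ℝ, 0 < τ ∧ ∀ x, |x - w| < τ → |v x - v w| < κ := by
    intro κ hκ
    obtain ⟨τ, hτ, h1⟩ := Metric.continuousAt_iff.1 hv κ hκ
    refine ⟨τ, hτ, fun x hx => ?_⟩
    have := h1 (x := x) (by rw [Real.dist_eq]; exact hx)
    rwa [Real.dist_eq] at this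
  obtain ⟨τ, hτ, k1⟩ := key (δ * m / 8) (by positivity)
  obtain ⟨s, hs⟩ : ∃ s, s = min (min (η / 2) (τ / 2)) (min (1 - w) (δ * m / 8)) := ⟨_, rfl⟩
  have s0 : 0 < s := by
    rw [hs]
    exact lt_min (lt_min (by linarith) (by linarith)) (lt_min (by linarith) (by positivity))
  have s1 : s ≤ η / 2 := by rw [hs]; exact (min_le_left _ _).trans (min_le_left _ _)
  have s2 : s ≤ τ / 2 := by rw [hs]; exact (min_le_left _ _).trans (min_le_right _ _)
  have s3 : s ≤ 1 - w := by rw [hs]; exact (min_le_right _ _).trans (min_le_left _ _)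
  have s4 : s ≤ δ * m / 8 := by rw [hs]; exact (min_le_right _ _).trans (min_le_right _ _)
  obtain ⟨w₂, b2, u1, u2⟩ := hW.exists_between (show w < w + s by linarith)
  obtain ⟨κ, hκ⟩ : ∃ κ, κ = δ * (w₂ - w) / 8 := ⟨_, rfl⟩
  have κ0 : 0 < κ := by
    rw [hκ]
    have : 0 < w₂ - w := by linarith
    positivity
  obtain ⟨τ', hτ', k2⟩ := key κ κ0
  obtain ⟨s', hs'⟩ : ∃ s', s' = min (min (min τ' (w₂ - w)) (min s κ)) w := ⟨_, rfl⟩
  have s'0 : 0 < s' := by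
    rw [hs']
    exact lt_min (lt_min (lt_min hτ' (by linarith)) (lt_min s0 κ0)) hw
  have r1 : s' ≤ τ' := by
    rw [hs']; exact (min_le_left _ _).trans ((min_le_left _ _).trans (min_le_left _ _))
  have r2 : s' ≤ w₂ - w := by
    rw [hs']; exact (min_le_left _ _).trans ((min_le_left _ _).trans (min_le_right _ _))
  have r3 : s' ≤ s := by
    rw [hs']; exact (min_le_left _ _).trans ((min_le_right _ _).trans (min_le_left _ _))
  have r4 : s' ≤ κ := by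
    rw [hs']; exact (min_le_left _ _).trans ((min_le_right _ _).trans (min_le_right _ _))
  have r5 : s' ≤ w := by rw [hs']; exact min_le_right _ _
  obtain ⟨w₁, b1, v1, v2⟩ := hW.exists_between (show w < w + s' by linarith)
  obtain ⟨w₀, b0, x1, x2⟩ := hW.exists_between (show w - s' < w by linarith)
  have f1 := abs_lt.1 (k2 w₁ (by rw [abs_lt]; constructor <;> linarith))
  have f0 := abs_lt.1 (k2 w₀ (by rw [abs_lt]; constructor <;> linarith))
  have f2 := abs_lt.1 (k1 w₂ (by rw [abs_lt]; constructor <;> linarith))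
  have f3 := abs_lt.1 (k1 w₀ (by rw [abs_lt]; constructor <;> linarith))
  have hj' := hj w₀ w₁ (by linarith) x2 v1 (by linarith)
  refine ⟨w₀, b0, w₁, b1, by linarith, x2, v1, by linarith, ?_⟩
  refine h w₀ b0 w₁ b1 w₂ b2 (by linarith) (by linarith) (by linarith) (by linarith) ?_ ?_
  · have : δ * (w₂ - w) ≤ δ * (w₂ - w₀) := mul_le_mul_of_nonneg_left (by linarith) hδ.le
    linarith
  · have : δ * m ≤ δ * (P w₁ w₁ - P w₀ w₀) := mul_le_mul_of_nonneg_left hj' hδ.le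
    linarith

/-- **What is left after the statement for one falling level**: the rows with a vanishing diagonal
slope whose window is one at which `v` has no finite upper derivative. -/
theorem jmpN_of_r1c (hP : Law P) (h0 : ∀ w, 0 < w → w ≤ 1 → 0 ≤ P w w ∧ P w w ≤ 1)
    (hρ : LipschitzWith 1 ρ) (hW : Dense W) (h : R1C P ρ v W)
    (h' : ∀ᵐ Q : ℝ, 0 < Q → Q < 1 → 0 < Lv P (Q, 0) →
      HasDerivAt (fun Q => Lv P (Q, 0)) 0 Q → ¬ FinD v (Lv P (Q, 0)) →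
      RowF P ρ W (Lv P (Q, 0))) : JmpN P ρ := by
  refine jmpN_of_rowF hP h0 hρ (W := W) ?_
  filter_upwards [h'] with Q hQ a1 a2 a3 a4
  by_cases hv : FinD v (Lv P (Q, 0))
  · exact R1C.rowF hP (fun w b1 b2 => (h0 w b1 b2).1) hW h a1 a2 a3 a4 hv
  · exact hQ a1 a2 a3 a4 hv

end r1c

end Pool.STR
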