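import Pool.Agent.H93.GEN.RowG

/-!
# Two falling levels

`R2C P ρ c v W`: the statement for two falling levels, the last coordinate and the level `v`; `c`
is the volume of the other levels. `R2D`: the form with two windows. `R2C.rowF`, `R2D.rowF`: the
rows of one window. `jmpN_of_r2c`, `jmpN_of_r2d`: if at almost every row with a vanishing diagonal
slope at most one of the levels falls, then these rows are full.
-/

set_option autoImplicit false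

namespace Pool.STR

open MeasureTheory Set Filter Topology Pool.LEV

/-- **The statement for two falling levels**, three windows. -/
def R2C (P : ℝ → ℝ → ℝ) (ρ c v : ℝ → ℝ) (W : Set ℝ) : Prop :=
  ∀ ε C₀ : ℝ, 0 < ε → ∃ δ : ℝ, 0 < δ ∧ ∀ w₀ ∈ W, ∀ w₁ ∈ W, ∀ w₂ ∈ W, 0 < w₀ → w₀ < w₁ →
    w₁ ≤ w₂ → w₂ ≤ 1 → (w₁ - w₀) + (c w₁ - c w₀) ≤ δ * (w₂ - w₀) →
    (w₂ - w₀) + (c w₂ - c w₀) ≤ δ * (P w₁ w₁ - P w₀ w₀) →
    v w₁ - v w₀ ≤ C₀ * (P w₁ w₁ - P w₀ w₀) →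
    (1 - ε) * (P w₁ w₁ - P w₀ w₀) ≤ ρ (P w₁ w₁) - ρ (P w₀ w₀)

/-- **The statement for two falling levels**, two windows. -/
def R2D (P : ℝ → ℝ → ℝ) (ρ c v : ℝ → ℝ) (W : Set ℝ) : Prop :=
  ∀ ε C₀ : ℝ, 0 < ε → ∃ δ : ℝ, 0 < δ ∧ ∀ w₀ ∈ W, ∀ w₁ ∈ W, 0 < w₀ → w₀ < w₁ → w₁ ≤ 1 →
    (w₁ - w₀) + (c w₁ - c w₀) ≤ δ * (P w₁ w₁ - P w₀ w₀) →
    v w₁ - v w₀ ≤ C₀ * (P w₁ w₁ - P w₀ w₀) →
    (1 - ε) * (P w₁ w₁ - P w₀ w₀) ≤ ρ (P w₁ w₁) - ρ (P w₀ w₀)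

section pairs

variable {P : ℝ → ℝ → ℝ} {ρ c v : ℝ → ℝ} {W : Set ℝ}

/-- **Three windows** near a row with a vanishing diagonal slope. -/
theorem triple (hP : Law P) (h0 : ∀ w, 0 < w → w ≤ 1 → 0 ≤ P w w) (hW : Dense W)
    {Q : ℝ} (hQ : 0 < Q) (hQ1 : Q < 1) (hg : 0 < Lv P (Q, 0))
    (hd : HasDerivAt (fun Q => Lv P (Q, 0)) 0 Q) (hv : FinD c (Lv P (Q, 0)))
    {δ₀ η : ℝ} (hδ₀ : 0 < δ₀) (hη : 0 < η) :
    ∃ w₀ ∈ W, ∃ w₁ ∈ W, ∃ w₂ ∈ W, Lv P (Q, 0) - η < w₀ ∧ w₀ < Lv P (Q, 0) ∧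
      Lv P (Q, 0) < w₁ ∧ w₁ < w₂ ∧ w₂ < Lv P (Q, 0) + η ∧ 0 < w₀ ∧ w₂ ≤ 1 ∧
      (w₁ - w₀) + (c w₁ - c w₀) ≤ δ₀ * (w₂ - w₀) ∧
      (w₂ - w₀) + (c w₂ - c w₀) ≤ δ₀ * (P w₁ w₁ - P w₀ w₀) := by
  obtain ⟨M₀, η₀, hη₀, hv⟩ := hv
  obtain ⟨δ, hδd⟩ : ∃ δ, δ = min δ₀ 1 := ⟨_, rfl⟩
  have hδ : 0 < δ := by rw [hδd]; exact lt_min hδ₀ one_pos
  have hδ1 : δ ≤ 1 := by rw [hδd]; exact min_le_right _ _
  have hδ2 : δ ≤ δ₀ := by rw [hδd]; exact min_le_left _ _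
  obtain ⟨M, hMd⟩ : ∃ M, M = max M₀ 0 := ⟨_, rfl⟩
  have hM0 : 0 ≤ M := by rw [hMd]; exact le_max_right _ _
  have hM1 : M₀ ≤ M := by rw [hMd]; exact le_max_left _ _
  have hgQ : Lv P (Q, 0) ≤ Q := Lv_diag_le hP h0 hQ hQ1
  obtain ⟨w, hw⟩ : ∃ w, w = Lv P (Q, 0) := ⟨_, rfl⟩
  obtain ⟨A, hA⟩ : ∃ A, A = 2 * (1 + M) / δ := ⟨_, rfl⟩
  have hA1 : 2 ≤ A := by
    rw [hA, le_div_iff₀ hδ]
    nlinarith
  obtain ⟨e, he⟩ : ∃ e, e = δ / (A * (1 + M)) := ⟨_, rfl⟩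
  have e0 : 0 < e := by rw [he]; positivity
  obtain ⟨t, ht⟩ : ∃ t, t = min η (min η₀ (1 - w)) / (2 * A) := ⟨_, rfl⟩
  have hm0 : 0 < min η (min η₀ (1 - w)) :=
    lt_min hη (lt_min hη₀ (by rw [hw]; linarith))
  have t0 : 0 < t := by rw [ht]; positivity
  have tA : A * (2 * t) = min η (min η₀ (1 - w)) := by
    rw [ht]
    field_simp
  have t1 : A * (2 * t) ≤ η := by rw [tA]; exact min_le_left _ _
  have t2 : A * (2 * t) ≤ η₀ := by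
    rw [tA]; exact (min_le_right _ _).trans (min_le_left _ _)
  have t3 : A * (2 * t) ≤ 1 - w := by
    rw [tA]; exact (min_le_right _ _).trans (min_le_right _ _)
  have t4 : 4 * t ≤ A * (2 * t) := by nlinarith
  obtain ⟨w₀, b0, w₁, b1, c1, c2, c3, c4, c5, c6, c7⟩ :=
    steep hP h0 hW hQ hQ1 hg hd e0 t0
  rw [← hw] at c1 c2 c3 c4 hv ⊢
  obtain ⟨y, hy⟩ : ∃ y, y = w₁ - w₀ := ⟨_, rfl⟩
  have y0 : 0 < y := by linarith
  have y1 : y < 2 * t := by linarith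
  rw [← hy] at c7
  obtain ⟨w₂, b2, d1, d2⟩ := hW.exists_between
    (show w₀ + A / 2 * y < w₀ + A * y by nlinarith)
  have yA : y ≤ A / 2 * y := by nlinarith
  have yA' : A * y ≤ A * (2 * t) := mul_le_mul_of_nonneg_left y1.le (by linarith)
  have yA2 : A * y < A * (2 * t) := mul_lt_mul_of_pos_left y1 (by linarith)
  have g1 : c w₁ - c w₀ ≤ M * y := by
    have := hv w₀ w₁ (by linarith) c2 c3 (by linarith)
    rw [← hy] at this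
    exact this.trans (mul_le_mul_of_nonneg_right hM1 y0.le)
  have g2 : c w₂ - c w₀ ≤ M * (w₂ - w₀) := by
    have := hv w₀ w₂ (by linarith) c2 (by linarith) (by linarith)
    exact this.trans (mul_le_mul_of_nonneg_right hM1 (by linarith))
  refine ⟨w₀, b0, w₁, b1, w₂, b2, by linarith, c2, c3, by linarith, by linarith, c5,
    by linarith, ?_, ?_⟩
  · calc (w₁ - w₀) + (c w₁ - c w₀) ≤ (1 + M) * y := by rw [← hy]; linarith
      _ = δ * (A / 2 * y) := by rw [hA]; field_simp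
      _ ≤ δ * (w₂ - w₀) := mul_le_mul_of_nonneg_left (by linarith) hδ.le
      _ ≤ δ₀ * (w₂ - w₀) := mul_le_mul_of_nonneg_right hδ2 (by linarith)
  · have h9 : 0 ≤ P w₁ w₁ - P w₀ w₀ := by
      by_contra hc
      push Not at hc
      have : e * (P w₁ w₁ - P w₀ w₀) < 0 := mul_neg_of_pos_of_neg e0 hc
      linarith
    calc (w₂ - w₀) + (c w₂ - c w₀) ≤ (1 + M) * (w₂ - w₀) := by linarith
      _ ≤ (1 + M) * (A * y) := mul_le_mul_of_nonneg_left (by linarith) (by linarith)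
      _ ≤ (1 + M) * (A * (e * (P w₁ w₁ - P w₀ w₀))) := by
          refine mul_le_mul_of_nonneg_left (mul_le_mul_of_nonneg_left c7 (by linarith))
            (by linarith)
      _ = δ * (P w₁ w₁ - P w₀ w₀) := by
          rw [he]
          have : A * (1 + M) ≠ 0 := by positivity
          field_simp
      _ ≤ δ₀ * (P w₁ w₁ - P w₀ w₀) := mul_le_mul_of_nonneg_right hδ2 h9

/-- Two falling levels, the rows of one window. -/
theorem R2C.rowF (hP : Law P) (h0 : ∀ w, 0 < w → w ≤ 1 → 0 ≤ P w w) (hW : Dense W)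
    (h : R2C P ρ c v W) {Q : ℝ} (hQ : 0 < Q) (hQ1 : Q < 1) (hg : 0 < Lv P (Q, 0))
    (hd : HasDerivAt (fun Q => Lv P (Q, 0)) 0 Q) (hc : FinD c (Lv P (Q, 0))) {p : ℝ}
    (hv : Ratio P v (Lv P (Q, 0)) p) : RowF P ρ W (Lv P (Q, 0)) := by
  intro ε hε η hη
  obtain ⟨δ, hδ, h⟩ := h ε (p + 1) hε
  obtain ⟨η', hη', hv⟩ := hv 1 one_pos
  obtain ⟨w₀, b0, w₁, b1, w₂, b2, c1, c2, c3, c4, c5, c6, c7, c8, c9⟩ :=
    triple hP h0 hW hQ hQ1 hg hd hc hδ (lt_min hη hη')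
  have e1 := min_le_left η η'
  have e2 := min_le_right η η'
  have f1 := (abs_le.1 (hv w₀ w₁ c6 (by linarith) c2 c3 (by linarith) (by linarith))).2
  exact ⟨w₀, b0, w₁, b1, by linarith, c2, c3, by linarith,
    h w₀ b0 w₁ b1 w₂ b2 c6 (by linarith) c4.le c7 c8 c9 (by linarith)⟩

/-- Two falling levels, the rows of one window, two windows. -/
theorem R2D.rowF (hP : Law P) (h0 : ∀ w, 0 < w → w ≤ 1 → 0 ≤ P w w) (hW : Dense W)
    (h : R2D P ρ c v W) {Q : ℝ} (hQ : 0 < Q) (hQ1 : Q < 1) (hg : 0 < Lv P (Q, 0))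
    (hd : HasDerivAt (fun Q => Lv P (Q, 0)) 0 Q) (hc : Ratio P c (Lv P (Q, 0)) 0) {p : ℝ}
    (hv : Ratio P v (Lv P (Q, 0)) p) : RowF P ρ W (Lv P (Q, 0)) := by
  intro ε hε η hη
  obtain ⟨δ, hδ, h⟩ := h ε (p + 1) hε
  obtain ⟨η₁, hη₁, hv⟩ := hv 1 one_pos
  obtain ⟨η₂, hη₂, hc⟩ := hc (δ / 2) (by linarith)
  obtain ⟨w₀, b0, w₁, b1, c1, c2, c3, c4, c5, c6, c7⟩ :=
    steep hP h0 hW hQ hQ1 hg hd (half_pos hδ) (lt_min hη (lt_min hη₁ hη₂))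
  have e1 := min_le_left η (min η₁ η₂)
  have e2 : min η (min η₁ η₂) ≤ η₁ := (min_le_right _ _).trans (min_le_left _ _)
  have e3 : min η (min η₁ η₂) ≤ η₂ := (min_le_right _ _).trans (min_le_right _ _)
  have f1 := (abs_le.1 (hv w₀ w₁ c5 (by linarith) c2 c3 (by linarith) c6)).2
  have f2 := hc w₀ w₁ c5 (by linarith) c2 c3 (by linarith) c6
  rw [zero_mul, sub_zero] at f2
  have f3 := (abs_le.1 f2).2
  exact ⟨w₀, b0, w₁, b1, by linarith, c2, c3, by linarith,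
    h w₀ b0 w₁ b1 c5 (by linarith) c6 (by linarith) (by linarith)⟩

end pairs

/-- Ratios of finite sums. -/
theorem Ratio.sum {P : ℝ → ℝ → ℝ} (hP : Law P) (h0 : ∀ w, 0 < w → w ≤ 1 → P w w ≤ 1)
    {ι : Type} (s : Finset ι) {v : ι → ℝ → ℝ} {w : ℝ}
    {p : ι → ℝ} (h : ∀ i ∈ s, Ratio P (v i) w (p i)) :
    Ratio P (fun x => ∑ i ∈ s, v i x) w (∑ i ∈ s, p i) := by
  classical
  induction s using Finset.induction_on with
  | empty =>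
    intro ε hε
    refine ⟨1, one_pos, fun w₀ w₁ a0 a1 a2 a3 a4 a5 => ?_⟩
    have h1 := dg_mono hP a0.le (by linarith : w₀ ≤ w₁) a5 (h0 w₀ a0 (by linarith))
    simp only [Finset.sum_empty, sub_self, zero_mul, abs_zero]
    exact mul_nonneg hε.le (by linarith)
  | insert i s hi ih =>
    have h1 := h i (Finset.mem_insert_self i s)
    have h2 := ih fun j hj => h j (Finset.mem_insert_of_mem hj)
    have h3 := h1.add h2
    simp only [Finset.sum_insert hi]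
    exact h3

/-- Finite upper derivatives of finite sums. -/
theorem FinD.sum {ι : Type} (s : Finset ι) {v : ι → ℝ → ℝ} {w : ℝ}
    (h : ∀ i ∈ s, FinD (v i) w) : FinD (fun x => ∑ i ∈ s, v i x) w := by
  classical
  induction s using Finset.induction_on with
  | empty =>
    refine ⟨0, 1, one_pos, fun w₀ w₁ _ _ _ _ => ?_⟩
    simp
  | insert i s hi ih =>
    obtain ⟨M, η, hη, h1⟩ := h i (Finset.mem_insert_self i s)
    obtain ⟨M', η', hη', h2⟩ := ih fun j hj => h j (Finset.mem_insert_of_mem hj)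
    refine ⟨M + M', min η η', lt_min hη hη', fun w₀ w₁ a1 a2 a3 a4 => ?_⟩
    have e1 := min_le_left η η'
    have e2 := min_le_right η η'
    have b1 := h1 w₀ w₁ (by linarith) a2 a3 (by linarith)
    have b2 := h2 w₀ w₁ (by linarith) a2 a3 (by linarith)
    simp only [Finset.sum_insert hi]
    linarith

section fin

variable {P : ℝ → ℝ → ℝ} {ρ : ℝ → ℝ} {W : Set ℝ} {k : ℕ} {L : Fin k → ℝ → ℝ}

open Classical in
/-- **At most one of the levels falls**, three windows. -/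
theorem jmpN_of_r2c (hP : Law P) (h0 : ∀ w, 0 < w → w ≤ 1 → 0 ≤ P w w ∧ P w w ≤ 1)
    (hρ : LipschitzWith 1 ρ) (hW : Dense W)
    (hL : ∀ j x y, 0 < x → x ≤ y → y ≤ 1 → L j x ≤ L j y)
    (h : ∀ l, R2C P ρ (fun x => ∑ j ∈ Finset.univ.erase l, L j x) (L l) W)
    (h1 : ∀ᵐ Q : ℝ, 0 < Q → Q < 1 → 0 < Lv P (Q, 0) →
      HasDerivAt (fun Q => Lv P (Q, 0)) 0 Q →
      ∃ l, ∀ j, j ≠ l → FinD (L j) (Lv P (Q, 0))) : JmpN P ρ := by
  refine jmpN_of_rowF hP h0 hρ (W := W) ?_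
  have h2 := ae_all_iff.2 fun j => ratio_ae hP h0 (v := L j) (hL j)
  filter_upwards [h1, h2] with Q hQ hr a1 a2 a3 a4
  obtain ⟨l, hl⟩ := hQ a1 a2 a3 a4
  obtain ⟨p, -, hp⟩ := hr l a1 a2 a3
  refine (h l).rowF hP (fun w b1 b2 => (h0 w b1 b2).1) hW a1 a2 a3 a4 ?_ hp
  exact FinD.sum _ fun j hj => hl j (Finset.ne_of_mem_erase hj)

open Classical in
/-- **At most one of the levels falls**, two windows. -/
theorem jmpN_of_r2d (hP : Law P) (h0 : ∀ w, 0 < w → w ≤ 1 → 0 ≤ P w w ∧ P w w ≤ 1)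
    (hρ : LipschitzWith 1 ρ) (hW : Dense W)
    (hL : ∀ j x y, 0 < x → x ≤ y → y ≤ 1 → L j x ≤ L j y)
    (h : ∀ l, R2D P ρ (fun x => ∑ j ∈ Finset.univ.erase l, L j x) (L l) W)
    (h1 : ∀ᵐ Q : ℝ, 0 < Q → Q < 1 → 0 < Lv P (Q, 0) →
      HasDerivAt (fun Q => Lv P (Q, 0)) 0 Q →
      ∃ l, ∀ j, j ≠ l → ∀ p, 0 < p → ¬ Ratio P (L j) (Lv P (Q, 0)) p) : JmpN P ρ := by
  refine jmpN_of_rowF hP h0 hρ (W := W) ?_
  have h2 := ae_all_iff.2 fun j => ratio_ae hP h0 (v := L j) (hL j)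
  filter_upwards [h1, h2] with Q hQ hr a1 a2 a3 a4
  obtain ⟨l, hl⟩ := hQ a1 a2 a3 a4
  obtain ⟨p, -, hp⟩ := hr l a1 a2 a3
  refine (h l).rowF hP (fun w b1 b2 => (h0 w b1 b2).1) hW a1 a2 a3 a4 ?_ hp
  have h3 : ∀ j ∈ Finset.univ.erase l, Ratio P (L j) (Lv P (Q, 0)) ((fun _ => (0 : ℝ)) j) := by
    intro j hj
    obtain ⟨q, hq, hq'⟩ := hr j a1 a2 a3
    rcases hq.eq_or_lt with h4 | h4
    · rw [← h4] at hq'
      exact hq'
    · exact absurd hq' (hl j (Finset.ne_of_mem_erase hj) q h4)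
  have h4 := Ratio.sum hP (fun w b1 b2 => (h0 w b1 b2).2) _ h3
  simpa using h4

end fin

end Pool.STR
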