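import Pool.Agent.H93.GEN.RowH

/-!
# Rows below one row

`RowT ρ Q`: there are `m ≤ 1` such that almost all rows in `(Q - m, Q)` are full.
`one_le_of_rowT`: then the row `Q` is full if `ρ` has a derivative there. `steepL`, `tripleL`:
windows near a row with a vanishing diagonal slope, compared with the number of rows below the row.
`jmpN_of_rowT`. `low_ratio`: levels which are monotone functions of the row of truncation and of
the window have finite ratios at almost every row.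
-/

set_option autoImplicit false

namespace Pool.STR

open MeasureTheory Set Filter Topology Pool.LEV

/-- Almost all rows just below `Q` are full, at one scale for every `ε`. -/
def RowT (ρ : ℝ → ℝ) (Q : ℝ) : Prop :=
  ∀ ε : ℝ, 0 < ε → ∃ m : ℝ, 0 < m ∧ m ≤ 1 ∧ (1 - ε) * m ≤ ρ Q - ρ (Q - m)

/-- **A row with full rows below it.** -/
theorem one_le_of_rowT {ρ : ℝ → ℝ} (hρ : LipschitzWith 1 ρ) {Q : ℝ} (h : RowT ρ Q)
    (hd : DifferentiableAt ℝ ρ Q) : 1 ≤ deriv ρ Q := by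
  by_contra hc
  push Not at hc
  obtain ⟨D, hD⟩ : ∃ D, D = deriv ρ Q := ⟨_, rfl⟩
  rw [← hD] at hc
  obtain ⟨ε, hε⟩ : ∃ ε, ε = (1 - D) / 3 := ⟨_, rfl⟩
  have ε0 : 0 < ε := by rw [hε]; linarith
  have eD : D = 1 - 3 * ε := by rw [hε]; ring
  have h3 := hd.hasDerivAt.isLittleO.def ε0
  obtain ⟨d₀, hd0, h4⟩ := Metric.eventually_nhds_iff.1 h3
  have h5 : ∀ x, |x - Q| < d₀ → |ρ x - ρ Q - (x - Q) * D| ≤ ε * |x - Q| := by
    intro x hx
    have h6 := h4 (y := x) (by rw [Real.dist_eq]; exact hx)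
    rw [hD]
    simpa using h6
  obtain ⟨d, hd'⟩ : ∃ d, d = min (d₀ / 2) 1 := ⟨_, rfl⟩
  have d0 : 0 < d := by rw [hd']; exact lt_min (by linarith) one_pos
  have d1 : d ≤ 1 := by rw [hd']; exact min_le_right _ _
  have d2 : d < d₀ := by
    rw [hd']
    exact (min_le_left _ _).trans_lt (by linarith)
  have hL : ∀ x, x ≤ Q → ρ Q - ρ x ≤ (Q - x) - 2 * ε * min d (Q - x) := by
    intro x hx
    rcases le_total (Q - x) d with h6 | h6
    · rw [min_eq_right h6]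
      have h7 := (abs_le.1 (h5 x (by rw [abs_of_nonpos (by linarith)]; linarith))).1
      rw [abs_of_nonpos (by linarith : x - Q ≤ 0)] at h7
      rw [eD] at h7
      linarith
    · rw [min_eq_left h6]
      have h7 := (abs_le.1 (h5 (Q - d) (by
        rw [show Q - d - Q = -d by ring, abs_neg, abs_of_nonneg d0.le]; linarith))).1
      rw [show Q - d - Q = -d by ring, abs_neg, abs_of_nonneg d0.le, eD] at h7
      have h8 := lip_le hρ (show x ≤ Q - d by linarith)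
      linarith
  obtain ⟨m, m0, m1, hm⟩ := h (ε * d) (by positivity)
  have h6 := hL (Q - m) (by linarith)
  rw [show Q - (Q - m) = m by ring] at h6
  have h7 : d * m ≤ min d m := le_min (by nlinarith) (by nlinarith)
  have h8 : 2 * ε * (d * m) ≤ 2 * ε * min d m := mul_le_mul_of_nonneg_left h7 (by positivity)
  have h9 : 0 < ε * d * m := by positivity
  nlinarith

section low

variable {P : ℝ → ℝ → ℝ}

/-- **Windows near a row with a vanishing diagonal slope**, rows below the row. -/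
theorem steepL (hP : Law P) (h0 : ∀ w, 0 < w → w ≤ 1 → 0 ≤ P w w) {W : Set ℝ} (hW : Dense W)
    {Q : ℝ} (hQ : 0 < Q) (hQ1 : Q < 1) (hg : 0 < Lv P (Q, 0))
    (hd : HasDerivAt (fun Q => Lv P (Q, 0)) 0 Q) {δ η : ℝ} (hδ : 0 < δ) (hη : 0 < η) :
    ∃ w₀ ∈ W, ∃ w₁ ∈ W, Lv P (Q, 0) - η < w₀ ∧ w₀ < Lv P (Q, 0) ∧ Lv P (Q, 0) < w₁ ∧
      w₁ < Lv P (Q, 0) + η ∧ 0 < w₀ ∧ w₁ ≤ 1 ∧ P w₀ w₀ < Q ∧
      w₁ - w₀ ≤ δ * (Q - P w₀ w₀) := by
  obtain ⟨g, hgd⟩ : ∃ g : ℝ → ℝ, g = fun Q => Lv P (Q, 0) := ⟨_, rfl⟩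
  have hgm : Monotone g := by
    rw [hgd]
    exact fun x y hxy => Lv_mono hP ⟨hxy, le_rfl⟩
  have hgQ : g Q ≤ Q := by
    rw [hgd]
    exact Lv_diag_le hP h0 hQ hQ1
  have hgp : 0 < g Q := by
    rw [hgd]
    exact hg
  have eg : Lv P (Q, 0) = g Q := by rw [hgd]
  rw [eg]
  obtain ⟨e, he⟩ : ∃ e, e = min (δ / 3) 1 := ⟨_, rfl⟩
  have e0 : 0 < e := by rw [he]; exact lt_min (by linarith) one_pos
  have e1 : e ≤ δ / 3 := by rw [he]; exact min_le_left _ _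
  have e2 : e ≤ 1 := by rw [he]; exact min_le_right _ _
  have h2 : ∃ d : ℝ, 0 < d ∧ ∀ x : ℝ, |x| < d → |g (Q + x) - g Q| ≤ e * |x| := by
    have h1 : HasDerivAt g 0 Q := by rw [hgd]; exact hd
    have h3 := h1.isLittleO.def e0
    obtain ⟨d, hd, h4⟩ := Metric.eventually_nhds_iff.1 h3
    refine ⟨d, hd, fun x hx => ?_⟩
    have h5 := h4 (y := Q + x) (by rw [Real.dist_eq, add_sub_cancel_left]; exact hx)
    simpa using h5
  obtain ⟨d, hd1, h2⟩ := h2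
  obtain ⟨x, hx⟩ : ∃ x, x = min (d / 2) (min (Q / 2) (min ((1 - Q) / 4)
    (min (g Q / 4) (η / 4)))) := ⟨_, rfl⟩
  have x0 : 0 < x := by
    rw [hx]
    exact lt_min (by linarith) (lt_min (by linarith) (lt_min (by linarith)
      (lt_min (by linarith) (by linarith))))
  have k1 : x ≤ d / 2 := by rw [hx]; exact min_le_left _ _
  have k2 : x ≤ Q / 2 := by rw [hx]; exact (min_le_right _ _).trans (min_le_left _ _)
  have k3 : x ≤ (1 - Q) / 4 := by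
    rw [hx]
    exact (min_le_right _ _).trans ((min_le_right _ _).trans (min_le_left _ _))
  have k4 : x ≤ g Q / 4 := by
    rw [hx]
    exact (min_le_right _ _).trans ((min_le_right _ _).trans ((min_le_right _ _).trans
      (min_le_left _ _)))
  have k5 : x ≤ η / 4 := by
    rw [hx]
    exact (min_le_right _ _).trans ((min_le_right _ _).trans ((min_le_right _ _).trans
      (min_le_right _ _)))
  have ex : 0 < e * x := by positivity
  have ex1 : e * x ≤ x := by nlinarith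
  have a2 := (abs_le.1 (h2 (-x) (by rw [abs_neg, abs_of_pos x0]; linarith))).1
  rw [abs_neg, abs_of_pos x0] at a2
  obtain ⟨w₁, w₁W, u1, u2⟩ := hW.exists_between (show g Q < g Q + e * x by linarith)
  obtain ⟨w₀, w₀W, v1, v2⟩ := hW.exists_between
    (show g (Q + -x) - e * x < g (Q + -x) by linarith)
  have m0 : g (Q + -x) ≤ g Q := hgm (by linarith)
  have hw0 : 0 < w₀ := by linarith
  have p0 : P w₀ w₀ < Q + -x := diag_lt_of_lt (by linarith) (by linarith) hw0.le (by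
    rw [hgd] at v2
    exact v2)
  refine ⟨w₀, w₀W, w₁, w₁W, by linarith, by linarith, by linarith, by linarith, hw0,
    by linarith, by linarith, ?_⟩
  have h6 : 3 * (e * x) ≤ δ * x := by nlinarith
  have h7 : δ * x ≤ δ * (Q - P w₀ w₀) := mul_le_mul_of_nonneg_left (by linarith) hδ.le
  linarith

/-- **Three windows** near a row with a vanishing diagonal slope, rows below the row. -/
theorem tripleL (hP : Law P) (h0 : ∀ w, 0 < w → w ≤ 1 → 0 ≤ P w w) {W : Set ℝ} (hW : Dense W)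
    {c : ℝ → ℝ} {Q : ℝ} (hQ : 0 < Q) (hQ1 : Q < 1) (hg : 0 < Lv P (Q, 0))
    (hd : HasDerivAt (fun Q => Lv P (Q, 0)) 0 Q) (hv : FinD c (Lv P (Q, 0)))
    {δ₀ η : ℝ} (hδ₀ : 0 < δ₀) (hη : 0 < η) :
    ∃ w₀ ∈ W, ∃ w₁ ∈ W, ∃ w₂ ∈ W, Lv P (Q, 0) - η < w₀ ∧ w₀ < Lv P (Q, 0) ∧
      Lv P (Q, 0) < w₁ ∧ w₁ < w₂ ∧ w₂ < Lv P (Q, 0) + η ∧ 0 < w₀ ∧ w₂ ≤ 1 ∧ P w₀ w₀ < Q ∧
      (w₁ - w₀) + (c w₁ - c w₀) ≤ δ₀ * (w₂ - w₀) ∧
      (w₂ - w₀) + (c w₂ - c w₀) ≤ δ₀ * (Q - P w₀ w₀) := by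
  obtain ⟨M₀, η₀, hη₀, hv⟩ := hv
  obtain ⟨δ, hδd⟩ : ∃ δ, δ = min δ₀ 1 := ⟨_, rfl⟩
  have hδ : 0 < δ := by rw [hδd]; exact lt_min hδ₀ one_pos
  have hδ1 : δ ≤ 1 := by rw [hδd]; exact min_le_right _ _
  have hδ2 : δ ≤ δ₀ := by rw [hδd]; exact min_le_left _ _
  obtain ⟨M, hMd⟩ : ∃ M, M = max M₀ 0 := ⟨_, rfl⟩
  have hM0 : 0 ≤ M := by rw [hMd]; exact le_max_right _ _
  have hM1 : M₀ ≤ M := by rw [hMd]; exact le_max_left _ _
  have hgQ : Lv P (Q, 0) ≤ Q := Lv_diag_le hP h0 hQ hQ1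
  obtain ⟨w, hw⟩ : ∃ w, w = Lv P (Q, 0) := ⟨_, rfl⟩
  obtain ⟨A, hA⟩ : ∃ A, A = 2 * (1 + M) / δ := ⟨_, rfl⟩
  have hA1 : 2 ≤ A := by
    rw [hA, le_div_iff₀ hδ]
    nlinarith
  obtain ⟨e, he⟩ : ∃ e, e = δ / (A * (1 + M)) := ⟨_, rfl⟩
  have e0 : 0 < e := by rw [he]; positivity
  obtain ⟨t, ht⟩ : ∃ t, t = min η (min η₀ (1 - w)) / (2 * A) := ⟨_, rfl⟩
  have hm0 : 0 < min η (min η₀ (1 - w)) :=
    lt_min hη (lt_min hη₀ (by rw [hw]; linarith))
  have t0 : 0 < t := by rw [ht]; positivity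
  have tA : A * (2 * t) = min η (min η₀ (1 - w)) := by
    rw [ht]
    field_simp
  have t1 : A * (2 * t) ≤ η := by rw [tA]; exact min_le_left _ _
  have t2 : A * (2 * t) ≤ η₀ := by
    rw [tA]; exact (min_le_right _ _).trans (min_le_left _ _)
  have t3 : A * (2 * t) ≤ 1 - w := by
    rw [tA]; exact (min_le_right _ _).trans (min_le_right _ _)
  have t4 : 4 * t ≤ A * (2 * t) := by nlinarith
  obtain ⟨w₀, b0, w₁, b1, c1, c2, c3, c4, c5, c6, c8, c7⟩ :=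
    steepL hP h0 hW hQ hQ1 hg hd e0 t0
  rw [← hw] at c1 c2 c3 c4 hv ⊢
  obtain ⟨y, hy⟩ : ∃ y, y = w₁ - w₀ := ⟨_, rfl⟩
  have y0 : 0 < y := by linarith
  have y1 : y < 2 * t := by linarith
  rw [← hy] at c7
  obtain ⟨w₂, b2, d1, d2⟩ := hW.exists_between
    (show w₀ + A / 2 * y < w₀ + A * y by nlinarith)
  have yA : y ≤ A / 2 * y := by nlinarith
  have yA' : A * y ≤ A * (2 * t) := mul_le_mul_of_nonneg_left y1.le (by linarith)
  have g1 : c w₁ - c w₀ ≤ M * y := by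
    have := hv w₀ w₁ (by linarith) c2 c3 (by linarith)
    rw [← hy] at this
    exact this.trans (mul_le_mul_of_nonneg_right hM1 y0.le)
  have g2 : c w₂ - c w₀ ≤ M * (w₂ - w₀) := by
    have := hv w₀ w₂ (by linarith) c2 (by linarith) (by linarith)
    exact this.trans (mul_le_mul_of_nonneg_right hM1 (by linarith))
  have h9 : 0 ≤ Q - P w₀ w₀ := by linarith
  refine ⟨w₀, b0, w₁, b1, w₂, b2, by linarith, c2, c3, by linarith, by linarith, c5,
    by linarith, c8, ?_, ?_⟩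
  · calc (w₁ - w₀) + (c w₁ - c w₀) ≤ (1 + M) * y := by rw [← hy]; linarith
      _ = δ * (A / 2 * y) := by rw [hA]; field_simp
      _ ≤ δ * (w₂ - w₀) := mul_le_mul_of_nonneg_left (by linarith) hδ.le
      _ ≤ δ₀ * (w₂ - w₀) := mul_le_mul_of_nonneg_right hδ2 (by linarith)
  · calc (w₂ - w₀) + (c w₂ - c w₀) ≤ (1 + M) * (w₂ - w₀) := by linarith
      _ ≤ (1 + M) * (A * y) := mul_le_mul_of_nonneg_left (by linarith) (by linarith)
      _ ≤ (1 + M) * (A * (e * (Q - P w₀ w₀))) := by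
          refine mul_le_mul_of_nonneg_left (mul_le_mul_of_nonneg_left c7 (by linarith))
            (by linarith)
      _ = δ * (Q - P w₀ w₀) := by
          rw [he]
          have : A * (1 + M) ≠ 0 := by positivity
          field_simp
      _ ≤ δ₀ * (Q - P w₀ w₀) := mul_le_mul_of_nonneg_right hδ2 h9

/-- **The rows with a vanishing diagonal slope** from `RowT`. -/
theorem jmpN_of_rowT {ρ : ℝ → ℝ} (hρ : LipschitzWith 1 ρ)
    (h : ∀ᵐ Q : ℝ, 0 < Q → Q < 1 → 0 < Lv P (Q, 0) →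
      HasDerivAt (fun Q => Lv P (Q, 0)) 0 Q → DifferentiableAt ℝ ρ Q → deriv ρ Q < 1 →
      RowT ρ Q) : JmpN P ρ := by
  intro h' hh'
  filter_upwards [h] with Q hQ a1 a2 a3 a4 a5 a6
  by_contra hc
  push Not at hc
  have h1 := one_le_of_rowT hρ
    (hQ a1 a2 a3 (by have := a4.hasDerivAt; rwa [a5] at this) a6 (by linarith)) a6
  linarith

/-- **Finite ratios of levels of truncated classes.** `V Q' w` is a monotone function of the row
`Q'` (in a dense set `D`) and of the window `w`. -/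
theorem low_ratio (hP : Law P) (h0 : ∀ w, 0 < w → w ≤ 1 → 0 ≤ P w w ∧ P w w ≤ 1)
    {D : Set ℝ} (hD : Dense D) {V : ℝ → ℝ → ℝ} {B : ℝ}
    (hB : ∀ q ∈ D, ∀ w, 0 < w → w ≤ 1 → |V q w| ≤ B)
    (hV : ∀ q ∈ D, ∀ q' ∈ D, ∀ w w', q ≤ q' → 0 < w → w ≤ w' → w' ≤ 1 → V q w ≤ V q' w') :
    ∀ᵐ Q : ℝ, 0 < Q → Q < 1 → 0 < Lv P (Q, 0) → ∃ C : ℝ, 0 ≤ C ∧ ∃ η : ℝ, 0 < η ∧
      ∀ w₀, 0 < w₀ → Lv P (Q, 0) - η < w₀ → w₀ < Lv P (Q, 0) → P w₀ w₀ < Q →
        ∃ κ : ℝ, 0 < κ ∧ ∀ w₁, Lv P (Q, 0) < w₁ → w₁ < Lv P (Q, 0) + κ → w₁ ≤ 1 →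
          ∀ q ∈ D, ∀ q' ∈ D, Q - κ < q → q < Q → Q < q' → q' < Q + κ →
            V q' w₁ - V q w₀ ≤ C * (Q - P w₀ w₀) := by
  obtain ⟨g, hgd⟩ : ∃ g : ℝ → ℝ, g = fun Q => Lv P (Q, 0) := ⟨_, rfl⟩
  have hgm : Monotone g := by
    rw [hgd]
    exact fun x y hxy => Lv_mono hP ⟨hxy, le_rfl⟩
  suffices hk : ∀ k : ℕ, ∀ᵐ Q : ℝ, 0 < Q → Q < 1 → 1 / ((k : ℝ) + 1) < g Q →
      ∃ C : ℝ, 0 ≤ C ∧ ∃ η : ℝ, 0 < η ∧
      ∀ w₀, 0 < w₀ → g Q - η < w₀ → w₀ < g Q → P w₀ w₀ < Q →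
        ∃ κ : ℝ, 0 < κ ∧ ∀ w₁, g Q < w₁ → w₁ < g Q + κ → w₁ ≤ 1 →
          ∀ q ∈ D, ∀ q' ∈ D, Q - κ < q → q < Q → Q < q' → q' < Q + κ →
            V q' w₁ - V q w₀ ≤ C * (Q - P w₀ w₀) by
    have h1 := ae_all_iff.2 hk
    filter_upwards [h1] with Q hQ a1 a2 a3
    have a3' : 0 < g Q := by rw [hgd]; exact a3
    obtain ⟨k, hk⟩ := exists_nat_one_div_lt a3'
    have := hQ k a1 a2 hk
    rw [hgd] at this
    exact this
  intro k
  obtain ⟨c, hc⟩ : ∃ c : ℝ, c = 1 / ((k : ℝ) + 1) := ⟨_, rfl⟩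
  have c0 : 0 < c := by rw [hc]; positivity
  have c1 : c ≤ 1 := by
    rw [hc, div_le_one (by positivity)]
    have : (0 : ℝ) ≤ k := Nat.cast_nonneg k
    linarith
  have hBn : 0 ≤ B := by
    obtain ⟨q, hq, -, -⟩ := hD.exists_between (show (0 : ℝ) < 1 from one_pos)
    exact (abs_nonneg _).trans (hB q hq 1 one_pos le_rfl)
  -- the monotone function of the row
  obtain ⟨u, hu⟩ : ∃ u : ℝ → ℝ, u = fun x => sSup {y | y = -B ∨ ∃ q ∈ D, ∃ w, q < x ∧ c / 2 ≤ w ∧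
      w ≤ 1 ∧ w < max c (g x) ∧ y = V q w} := ⟨_, rfl⟩
  have hbd : ∀ x, BddAbove {y | y = -B ∨ ∃ q ∈ D, ∃ w, q < x ∧ c / 2 ≤ w ∧
      w ≤ 1 ∧ w < max c (g x) ∧ y = V q w} := by
    intro x
    refine ⟨B, ?_⟩
    rintro y (rfl | ⟨q, hq, w, -, hw, hw1, -, rfl⟩)
    · linarith
    · exact (abs_le.1 (hB q hq w (by linarith) hw1)).2
  have hne : ∀ x, ({y | y = -B ∨ ∃ q ∈ D, ∃ w, q < x ∧ c / 2 ≤ w ∧
      w ≤ 1 ∧ w < max c (g x) ∧ y = V q w} : Set ℝ).Nonempty := fun x => ⟨-B, Or.inl rfl⟩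
  have hum : Monotone u := by
    intro x y hxy
    rw [hu]
    refine csSup_le_csSup (hbd y) (hne x) ?_
    rintro z (rfl | ⟨q, hq, w, h1, h2, h3, h4, rfl⟩)
    · exact Or.inl rfl
    · exact Or.inr ⟨q, hq, w, h1.trans_le hxy, h2, h3, h4.trans_le (max_le_max le_rfl (hgm hxy)),
        rfl⟩
  -- left ends of the intervals of constancy
  obtain ⟨E, hE⟩ : ∃ E : Set ℝ, E = {Q | 0 < Q ∧ Q < 1 ∧ 0 < g Q ∧
      (∀ m : ℝ, 0 < m → ∃ w₀, 0 < w₀ ∧ w₀ < g Q ∧ Q - P w₀ w₀ < m) ∧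
      ∃ x : ℝ, 0 < x ∧ g (Q + x) ≤ g Q} := ⟨_, rfl⟩
  have hEc : E.Countable := by
    have h1 : ∀ Q ∈ E, ∃ x : ℝ, 0 < x ∧ g (Q + x) ≤ g Q := by
      intro Q hQ
      rw [hE] at hQ
      exact hQ.2.2.2.2
    choose! x hx0 hx using h1
    refine Set.PairwiseDisjoint.countable_of_Ioo (y := fun Q => Q + x Q) ?_
      (fun Q hQ => by have := hx0 Q hQ; linarith)
    have key : ∀ Q ∈ E, ∀ Q' ∈ E, Q < Q' → ¬ Q' < Q + x Q := by
      intro Q hQ Q' hQ' h2 h3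
      have h4 := hx Q hQ
      rw [hE] at hQ hQ'
      obtain ⟨q1, q2, q3, q4, -⟩ := hQ
      obtain ⟨r1, r2, r3, r4, -⟩ := hQ'
      have h5 : g Q' ≤ g Q := (hgm h3.le).trans h4
      obtain ⟨w₀, s1, s2, s3⟩ := r4 (Q' - Q) (by linarith)
      have h6 : P w₀ w₀ < Q := diag_lt_of_lt q1 q2 s1.le (by
        have : w₀ < g Q := s2.trans_le h5
        rw [hgd] at this
        exact this)
      linarith
    intro Q hQ Q' hQ' hne
    rw [Function.onFun, Set.disjoint_left]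
    rintro z ⟨z1, z2⟩ ⟨z3, z4⟩
    rcases lt_or_gt_of_ne hne with h2 | h2
    · exact key Q hQ Q' hQ' h2 (by linarith)
    · exact key Q' hQ' Q hQ h2 (by linarith)
  filter_upwards [hum.ae_differentiableAt, hEc.ae_notMem volume] with Q hQd hQE a1 a2 a3
  rw [← hc] at a3
  obtain ⟨w, hw⟩ : ∃ w, w = g Q := ⟨_, rfl⟩
  rw [← hw] at a3 ⊢
  have hwQ : w ≤ Q := by
    rw [hw, hgd]
    exact Lv_diag_le hP (fun w h1 h2 => (h0 w h1 h2).1) a1 a2
  have hw0 : 0 < w := c0.trans a3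
  have hw1 : w < 1 := by linarith
  have gQ : Lv P (Q, 0) = w := by rw [hw, hgd]
  have dm : ∀ x y, 0 < x → x ≤ y → y ≤ 1 → P x x ≤ P y y := fun x y hx hxy hy =>
    dg_mono hP hx.le hxy hy (h0 x hx (hxy.trans hy)).2
  have dn : ∀ w₀, 0 < w₀ → w₀ < w → P w₀ w₀ < Q := fun w₀ h1 h2 =>
    diag_lt_of_lt a1 a2 h1.le (by rw [gQ]; exact h2)
  by_cases hat : ∃ m : ℝ, 0 < m ∧ (∀ w₀, 0 < w₀ → w₀ < w → m ≤ Q - P w₀ w₀)
  · -- the rows below do not shrink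
    obtain ⟨m, hm, hj⟩ := hat
    refine ⟨2 * B / m, by positivity, 1, one_pos, fun w₀ b0 b1 b2 b3 => ⟨1, one_pos, ?_⟩⟩
    intro w₁ e1 e2 e3 q hq q' hq' e4 e5 e6 e7
    have f1 := (abs_le.1 (hB q' hq' w₁ (by linarith) e3)).2
    have f0 := (abs_le.1 (hB q hq w₀ b0 (by linarith))).1
    have f2 := hj w₀ b0 b2
    have f3 : 2 * B / m * m ≤ 2 * B / m * (Q - P w₀ w₀) :=
      mul_le_mul_of_nonneg_left f2 (by positivity)
    rw [div_mul_cancel₀ _ hm.ne'] at f3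
    linarith
  · push Not at hat
    have hr : ∀ x : ℝ, 0 < x → w < g (Q + x) := by
      intro x hx
      by_contra hc'
      push Not at hc'
      refine hQE ?_
      rw [hE]
      exact ⟨a1, a2, by rw [← hw]; exact hw0, by rw [← hw]; exact hat, x, hx, by
        rw [← hw]; exact hc'⟩
    have h3 := hQd.hasDerivAt.isLittleO.def one_pos
    obtain ⟨d, hd, h4⟩ := Metric.eventually_nhds_iff.1 h3
    obtain ⟨p, hp⟩ : ∃ p, p = deriv u Q := ⟨_, rfl⟩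
    have hp0 : 0 ≤ p := by rw [hp]; exact hum.deriv_nonneg
    have h5 : ∀ x, |x - Q| < d → |u x - u Q - (x - Q) * p| ≤ |x - Q| := by
      intro x hx
      have h6 := h4 (y := x) (by rw [Real.dist_eq]; exact hx)
      rw [hp]
      simpa using h6
    obtain ⟨w₀', b0, b1, b2⟩ := hat d hd
    refine ⟨2 * (p + 1), by positivity, min (w - w₀') (w - c),
      lt_min (by linarith) (by linarith), fun w₀ c0' c1' c2' c3' => ?_⟩
    have e1 := min_le_left (w - w₀') (w - c)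
    have e2 := min_le_right (w - w₀') (w - c)
    have m0 := dm w₀' w₀ b0 (by linarith) (by linarith)
    obtain ⟨x, hx⟩ : ∃ x, x = Q - P w₀ w₀ := ⟨_, rfl⟩
    have x0 : 0 < x := by linarith
    have q0 := (h0 w₀ c0' (by linarith)).1
    have g0 : g (Q - x) = w₀ := by
      rw [hx, sub_sub_cancel, hgd]
      show Lv P (P w₀ w₀, 0) = w₀
      rw [Lv_eq (P := P) le_rfl zero_le_one q0 (by linarith)]
      exact lev_diag hP c0'.le (by linarith) (by linarith)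
    have gr := hr x x0
    refine ⟨min x (g (Q + x) - w), lt_min x0 (by linarith), ?_⟩
    intro w₁ f1 f2 f3 q hq q' hq' f4 f5 f6 f7
    have e3 := min_le_left x (g (Q + x) - w)
    have e4 := min_le_right x (g (Q + x) - w)
    have up : V q' w₁ ≤ u (Q + x) := by
      rw [hu]
      refine le_csSup (hbd _) (Or.inr ⟨q', hq', w₁, by linarith, by linarith, f3, ?_, rfl⟩)
      exact lt_of_lt_of_le (by linarith) (le_max_right _ _)
    have dw : u (Q - x) ≤ V q w₀ := by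
      rw [hu]
      refine csSup_le (hne _) ?_
      rintro y (rfl | ⟨q'', hq'', w'', i1, i2, i3, i4, rfl⟩)
      · exact (abs_le.1 (hB q hq w₀ c0' (by linarith))).1
      · rw [g0, max_eq_right (by linarith)] at i4
        exact hV q'' hq'' q hq w'' w₀ (by linarith) (by linarith) i4.le (by linarith)
    have r1 := abs_le.1 (h5 (Q + x) (by
      rw [add_sub_cancel_left, abs_of_pos x0]; linarith))
    have r0 := abs_le.1 (h5 (Q - x) (by
      rw [show Q - x - Q = -x by ring, abs_neg, abs_of_pos x0]; linarith))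
    rw [add_sub_cancel_left, abs_of_pos x0] at r1
    rw [show Q - x - Q = -x by ring, abs_neg, abs_of_pos x0] at r0
    rw [← hx]
    have : 2 * (p + 1) * x = 2 * (x * p) + 2 * x := by ring
    linarith [r1.2, r0.1]

end low

end Pool.STR
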