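import Pool.Agent.H93.GEN.Fz
import Pool.Agent.H92.GN.Free

/-!
# Costs on real windows

`thR n w` is the extension of a decreasing nonnegative function `n` on the rational windows `≤ 1`
to the real windows. `thR_gap`: a small decrease of `thR n` from `w - d` to `w + d` bounds the
decrease of `n` between rational windows in this interval. `FNum.th`: the numbers of the entropy of
the first `c r k` digits of the direction given the record of the window give the costs `θ c k` of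
`jmpN_of_good`.
-/

set_option autoImplicit false

namespace Pool.STR

open Set Filter Topology

/-- The extension of a decreasing function on rational windows. -/
noncomputable def thR (n : ℚ → ℝ) (w : ℝ) : ℝ :=
  sSup {x : ℝ | ∃ v : ℚ, w ≤ v ∧ v ≤ 1 ∧ n v = x}

section

variable {n : ℚ → ℝ} {M : ℝ} (h0 : ∀ v : ℚ, v ≤ 1 → 0 ≤ n v) (h1 : ∀ v : ℚ, v ≤ 1 → n v ≤ M)

include h1 in
theorem thR_bdd (w : ℝ) : BddAbove {x : ℝ | ∃ v : ℚ, w ≤ v ∧ v ≤ 1 ∧ n v = x} := by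
  refine ⟨M, ?_⟩
  rintro _ ⟨v, -, hv, rfl⟩
  exact h1 v hv

include h1 in
theorem le_thR {w : ℝ} {v : ℚ} (hw : w ≤ v) (hv : v ≤ 1) : n v ≤ thR n w :=
  le_csSup (thR_bdd h1 w) ⟨v, hw, hv, rfl⟩

include h0 in
theorem thR_nonneg (w : ℝ) : 0 ≤ thR n w := by
  refine Real.sSup_nonneg ?_
  rintro _ ⟨v, -, hv, rfl⟩
  exact h0 v hv

include h0 h1 in
theorem thR_le (w : ℝ) : thR n w ≤ M := by
  refine Real.sSup_le ?_ ((h0 0 zero_le_one).trans (h1 0 zero_le_one))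
  rintro _ ⟨v, -, hv, rfl⟩
  exact h1 v hv

include h0 h1 in
theorem thR_anti : Antitone (thR n) := by
  intro w w' hw
  refine Real.sSup_le ?_ (thR_nonneg h0 w)
  rintro _ ⟨v, hv, hv1, rfl⟩
  exact le_thR h1 (hw.trans hv) hv1

include h0 in
theorem thR_le_of (ha : ∀ v v' : ℚ, v ≤ v' → v' ≤ 1 → n v' ≤ n v) {w : ℝ} {v : ℚ} (hv : v ≤ 1)
    (hw : v ≤ w) : thR n w ≤ n v := by
  refine Real.sSup_le ?_ (h0 v hv)
  rintro _ ⟨v', hv', h2, rfl⟩
  exact ha v v' (by exact_mod_cast hw.trans hv') h2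

include h0 h1 in
/-- The decrease between rational windows. -/
theorem thR_gap (ha : ∀ v v' : ℚ, v ≤ v' → v' ≤ 1 → n v' ≤ n v) {w w' : ℝ} {v v' : ℚ}
    (hv : w ≤ v) (hv1 : v ≤ 1) (hv' : v' ≤ w') (hv2 : v' ≤ 1) :
    n v - n v' ≤ thR n w - thR n w' := by
  have a := le_thR h1 hv hv1
  have b := thR_le_of h0 ha hv2 hv'
  linarith

end

end Pool.STR

namespace Pool.RCD

open Finset Real
open Pool.Agent.H49.Ent Pool.Agent.H32.Dense Pool.STK Pool.KA Pool.KSAT Pool.K2S Pool.PB Pool.S6C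
  Pool.GEN

variable {m : ℕ} {S : PCl m} (hS : S.Ne)
    (hpos : ∀ (τ : ℝ) (J : ℕ) (F : Fam m J) (A : F.Ω → Prop), S.St τ J F A → 0 < Pe F.p A)
    {γ : ℚ → ∀ J : ℕ, Fam m J → Type}
    {y : ∀ (Q : ℚ) (J : ℕ) (F : Fam m J), F.Ω → γ Q J F} {η : ℚ → ℚ → ℝ}
    {t : ℚ → ℚ → ℚ → ℚ → ℝ} (N : FNum S y η t)

include hS hpos N

/-- **The costs of the digits of the direction.** -/
theorem FNum.th (hy : Nst y) {q Q : ℚ} (hq : q ≤ 1) {r : ℕ → ℚ} (hr : ∀ k, 0 < r k) :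
    ∃ θ : ℕ → ℕ → ℝ → ℝ, (∀ c k, Antitone (θ c k)) ∧ (∀ c k w, 0 ≤ θ c k w) ∧
      (∀ (c k : ℕ) (w : ℝ), θ c k w ≤ (m * c : ℝ) * (r k : ℝ)) ∧
      ∀ (c k : ℕ) (w w' : ℝ) (v v' : ℚ), (c : ℚ) * r k ≤ 1 → w ≤ v → v ≤ 1 → v' ≤ w' → v' ≤ 1 →
        t v q Q (c * r k) - t v' q Q (c * r k) ≤ (θ c k w - θ c k w') * Real.log 2 := by
  classical
  have hl : 0 < Real.log 2 := Real.log_pos one_lt_two
  obtain ⟨n, hn⟩ : ∃ n : ℕ → ℕ → ℚ → ℝ, n = fun (c k : ℕ) (v : ℚ) =>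
    if (c : ℚ) * r k ≤ 1 then t v q Q (c * r k) / Real.log 2 else 0 := ⟨_, rfl⟩
  have hc0 : ∀ (c k : ℕ), (0 : ℝ) ≤ (c : ℝ) * (r k : ℝ) := fun c k =>
    mul_nonneg (Nat.cast_nonneg c) (by exact_mod_cast (hr k).le)
  have hc0' : ∀ (c k : ℕ), (0 : ℚ) ≤ (c : ℚ) * r k := fun c k =>
    mul_nonneg (Nat.cast_nonneg c) (hr k).le
  have h0 : ∀ (c k : ℕ) (v : ℚ), v ≤ 1 → 0 ≤ n c k v := by
    intro c k v hv
    rw [hn]
    simp only
    split_ifs with h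
    · exact div_nonneg (N.nonneg hS hpos hv hq h) hl.le
    · exact le_rfl
  have h1 : ∀ (c k : ℕ) (v : ℚ), v ≤ 1 → n c k v ≤ (m * c : ℝ) * (r k : ℝ) := by
    intro c k v hv
    rw [hn]
    simp only
    split_ifs with h
    · rw [div_le_iff₀ hl]
      have := N.up hS hpos (Q := Q) hv hq (hc0' c k) h
      push_cast at this
      calc t v q Q (c * r k) ≤ m * (c * (r k : ℝ)) * Real.log 2 := this
        _ = (m * c : ℝ) * (r k : ℝ) * Real.log 2 := by ring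
    · have := mul_nonneg (Nat.cast_nonneg (α := ℝ) m) (hc0 c k)
      linarith [mul_assoc (m : ℝ) (c : ℝ) (r k : ℝ)]
  have ha : ∀ (c k : ℕ) (v v' : ℚ), v ≤ v' → v' ≤ 1 → n c k v' ≤ n c k v := by
    intro c k v v' hv hv'
    rw [hn]
    simp only
    split_ifs with h
    · exact div_le_div_of_nonneg_right (N.anti hS hpos hy hv hv' hq le_rfl h) hl.le
    · exact le_rfl
  refine ⟨fun c k => Pool.STR.thR (n c k), fun c k => Pool.STR.thR_anti (h0 c k) (h1 c k),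
    fun c k w => Pool.STR.thR_nonneg (h0 c k) w, fun c k w => Pool.STR.thR_le (h0 c k) (h1 c k) w,
    ?_⟩
  intro c k w w' v v' hc hv hv1 hv' hv2
  have h := Pool.STR.thR_gap (h0 c k) (h1 c k) (ha c k) hv hv1 hv' hv2
  have e : ∀ x : ℚ, n c k x = t x q Q (c * r k) / Real.log 2 := by
    intro x
    rw [hn]
    simp only [if_pos hc]
  rw [e, e, ← sub_div, div_le_iff₀ hl] at h
  exact h

end Pool.RCD
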